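import Mathlib

set_option autoImplicit false

namespace Pool.Agent.Helper95.Acyc

open Finset

/-- Boundary of a simplicial chain.  A chain with coefficients in `k` is a function `c` giving the
coefficient of every finite vertex set; the coefficient of the boundary at `G` is the sum over the
vertices `v ∉ G` of `(-1)^{#{w ∈ G : w < v}} · c (G ∪ {v})`. -/
def bdry {n : ℕ} {k : Type*} [Field k] (c : Finset (Fin n) → k) (G : Finset (Fin n)) : k :=
  ∑ v ∈ univ \ G, (-1 : k) ^ (G.filter (fun w => w < v)).card * c (insert v G)

/-- `c` is a chain of `Δ` supported on faces with exactly `m` vertices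
(i.e. faces of dimension `m - 1`; for `m = 0` this is the empty face). -/
def IsChain {n : ℕ} {k : Type*} [Field k] (Δ : Finset (Finset (Fin n))) (m : ℕ)
    (c : Finset (Fin n) → k) : Prop :=
  ∀ F : Finset (Fin n), c F ≠ 0 → F ∈ Δ ∧ F.card = m

/-- `Δ` is acyclic over `k`: every cycle is a boundary, in every degree, including degree `-1`
(reduced simplicial homology vanishes). -/
def Acyclic {n : ℕ} (k : Type*) [Field k] (Δ : Finset (Finset (Fin n))) : Prop :=
  ∀ (m : ℕ) (c : Finset (Fin n) → k), IsChain Δ m c → (∀ G, bdry c G = 0) →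
    ∃ d : Finset (Fin n) → k, IsChain Δ (m + 1) d ∧ ∀ G, bdry d G = c G

/-- `Δ` is closed under taking subsets. -/
def IsDown {n : ℕ} (Δ : Finset (Finset (Fin n))) : Prop :=
  ∀ F ∈ Δ, ∀ G : Finset (Fin n), G ⊆ F → G ∈ Δ

variable {n : ℕ} {k : Type*} [Field k]

def sg (k : Type*) [Field k] (v : Fin n) (G : Finset (Fin n)) : k :=
  (-1 : k) ^ (G.filter (fun w => w < v)).card

lemma sg_insert (v w : Fin n) (G : Finset (Fin n)) (hw : w ∉ G) :
    sg k v (insert w G) = (if w < v then -1 else 1) * sg k v G := by
  unfold sg
  rw [Finset.filter_insert]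
  split_ifs with h
  · rw [Finset.card_insert_of_notMem (by simp [hw]), pow_succ]; ring
  · ring

lemma sg_mul_self (v : Fin n) (G : Finset (Fin n)) : sg k v G * sg k v G = 1 := by
  unfold sg
  rw [← pow_add, ← two_mul, pow_mul]; simp

lemma bdry_eq (c : Finset (Fin n) → k) (G : Finset (Fin n)) :
    bdry c G = ∑ v ∈ univ \ G, sg k v G * c (insert v G) := rfl

lemma bdry_add (c d : Finset (Fin n) → k) (G : Finset (Fin n)) :
    bdry (fun F => c F + d F) G = bdry c G + bdry d G := by
  simp only [bdry_eq, mul_add, Finset.sum_add_distrib]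

lemma bdry_sub (c d : Finset (Fin n) → k) (G : Finset (Fin n)) :
    bdry (fun F => c F - d F) G = bdry c G - bdry d G := by
  simp only [bdry_eq, mul_sub, Finset.sum_sub_distrib]

/-- `∂∂ = 0`. -/
lemma bdry_bdry (c : Finset (Fin n) → k) (G : Finset (Fin n)) :
    bdry (fun F => bdry c F) G = 0 := by
  classical
  simp only [bdry_eq, Finset.mul_sum]
  rw [Finset.sum_sigma']
  refine Finset.sum_involution (fun p _ => ⟨p.2, p.1⟩) ?_ ?_ ?_ ?_
  · rintro ⟨v, w⟩ h
    simp only [Finset.mem_sigma, Finset.mem_sdiff, Finset.mem_univ, true_and,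
      Finset.mem_insert, not_or] at h
    obtain ⟨hv, hwv, hw⟩ := h
    simp only
    rw [sg_insert w v G hv, sg_insert v w G hw, Finset.insert_comm w v G]
    rcases lt_or_gt_of_ne hwv with h1 | h1
    · rw [if_neg (not_lt.2 h1.le), if_pos h1]; ring
    · rw [if_pos h1, if_neg (not_lt.2 h1.le)]; ring
  · rintro ⟨v, w⟩ h _
    simp only [Finset.mem_sigma, Finset.mem_sdiff, Finset.mem_univ, true_and,
      Finset.mem_insert, not_or] at h
    intro he
    simp only [Sigma.mk.injEq] at he
    exact h.2.1 he.1
  · rintro ⟨v, w⟩ h
    simp only [Finset.mem_sigma, Finset.mem_sdiff, Finset.mem_univ, true_and,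
      Finset.mem_insert, not_or] at h ⊢
    exact ⟨h.2.2, fun he => h.2.1 he.symm, h.1⟩
  · rintro ⟨v, w⟩ h
    rfl

/-- A cone is acyclic. -/
lemma acyclic_cone (Δ : Finset (Finset (Fin n))) (x : Fin n)
    (h1 : ∀ F ∈ Δ, insert x F ∈ Δ) (h2 : ∀ F ∈ Δ, F.erase x ∈ Δ) : Acyclic k Δ := by
  classical
  intro m c hc hz
  refine ⟨fun G => if x ∈ G then sg k x (G.erase x) * c (G.erase x) else 0, ?_, ?_⟩
  · intro F hF
    simp only [ne_eq, ite_eq_right_iff, mul_eq_zero, not_forall, not_or] at hF
    obtain ⟨hx, _, hcF⟩ := hF
    obtain ⟨ha, hb⟩ := hc _ hcF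
    have hF' : insert x (F.erase x) = F := Finset.insert_erase hx
    refine ⟨hF' ▸ h1 _ ha, ?_⟩
    rw [← hF', Finset.card_insert_of_notMem (Finset.notMem_erase x F), hb]
  · intro G
    rw [bdry_eq]
    by_cases hx : x ∈ G
    · -- G = insert x H
      set H := G.erase x with hH
      have hxH : x ∉ H := Finset.notMem_erase x G
      have hG : G = insert x H := (Finset.insert_erase hx).symm
      have hzH := hz H
      rw [bdry_eq] at hzH
      have hsplit : (univ \ H : Finset (Fin n)) = insert x (univ \ G) := by
        ext y
        simp only [Finset.mem_sdiff, Finset.mem_univ, true_and, Finset.mem_insert, hG, not_or]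
        by_cases hy : y = x
        · subst hy; simp [hxH]
        · simp [hy]
      rw [hsplit, Finset.sum_insert (by simp [hx]), ← hG] at hzH
      have hterm : ∀ v ∈ univ \ G, sg k v G * (if x ∈ insert v G then
          sg k x ((insert v G).erase x) * c ((insert v G).erase x) else 0)
          = -(sg k x H * (sg k v H * c (insert v H))) := by
        intro v hv
        simp only [Finset.mem_sdiff, Finset.mem_univ, true_and] at hv
        have hvx : v ≠ x := fun h => hv (h ▸ hx)
        have hvH : v ∉ H := fun h => hv (Finset.mem_of_mem_erase h)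
        rw [if_pos (Finset.mem_insert_of_mem hx)]
        have he : (insert v G).erase x = insert v H := by
          rw [Finset.erase_insert_of_ne hvx]
        rw [he, sg_insert x v H hvH]
        conv_lhs => rw [hG, sg_insert v x H hxH]
        rcases lt_or_gt_of_ne hvx with h | h
        · rw [if_neg (not_lt.2 h.le), if_pos h]; ring
        · rw [if_pos h, if_neg (not_lt.2 h.le)]; ring
      rw [Finset.sum_congr rfl hterm, Finset.sum_neg_distrib, ← Finset.mul_sum]
      have hs := sg_mul_self (k := k) x H
      have h3 : ∑ v ∈ univ \ G, sg k v H * c (insert v H) = -(sg k x H * c G) := by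
        linear_combination hzH
      rw [h3]
      linear_combination (c G) * hs
    · rw [Finset.sum_eq_single x]
      · rw [if_pos (Finset.mem_insert_self x G), Finset.erase_insert hx, ← mul_assoc,
          sg_mul_self, one_mul]
      · intro v hv hvx
        rw [if_neg, mul_zero]
        simp only [Finset.mem_insert, not_or]
        exact ⟨fun h => hvx h.symm, hx⟩
      · intro h
        simp only [Finset.mem_sdiff, Finset.mem_univ, true_and, not_not] at h
        exact absurd h hx

/-- An elementary expansion preserves acyclicity. -/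
lemma acyclic_step (L : Finset (Finset (Fin n))) (σ : Finset (Fin n)) (x : Fin n)
    (hx : x ∉ σ) (hσ : σ ∉ L) (hτ : insert x σ ∉ L) (hL : IsDown L)
    (hb : ∀ y ∈ σ, (insert x σ).erase y ∈ L) (hac : Acyclic k L) :
    Acyclic k (insert σ (insert (insert x σ) L)) := by
  classical
  intro m c hc hz
  have hcardτ : (insert x σ).card = σ.card + 1 := Finset.card_insert_of_notMem hx
  have mono : ∀ (m : ℕ) (d : Finset (Fin n) → k), IsChain L m d →
      IsChain (insert σ (insert (insert x σ) L)) m d := by
    intro m d hd F hF
    obtain ⟨h1, h2⟩ := hd F hF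
    exact ⟨by simp [h1], h2⟩
  by_cases hm : m = σ.card
  · -- subtract a multiple of ∂τ
    set a : k := sg k x σ * c σ with ha
    set e : Finset (Fin n) → k := fun F => if F = insert x σ then a else 0 with he
    have hbe : ∀ G, bdry e G ≠ 0 → (G = σ ∨ G ∈ L) ∧ G.card = m := by
      intro G hG
      rw [bdry_eq] at hG
      obtain ⟨v, hv, hne⟩ := Finset.exists_ne_zero_of_sum_ne_zero hG
      have hvG : insert v G = insert x σ := by
        by_contra h
        apply hne
        simp [he, h]
      simp only [Finset.mem_sdiff, Finset.mem_univ, true_and] at hv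
      have hcard : G.card = m := by
        have := congrArg Finset.card hvG
        rw [hcardτ, Finset.card_insert_of_notMem hv] at this
        omega
      refine ⟨?_, hcard⟩
      have hvτ : v ∈ insert x σ := hvG ▸ Finset.mem_insert_self v G
      have hGe : G = (insert x σ).erase v := by
        rw [← hvG, Finset.erase_insert hv]
      rcases Finset.mem_insert.1 hvτ with h | h
      · left; rw [hGe, h, Finset.erase_insert hx]
      · right; rw [hGe]; exact hb v h
    have hbσ : bdry e σ = c σ := by
      rw [bdry_eq, Finset.sum_eq_single x]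
      · simp only [he, if_true, ha]
        rw [← mul_assoc, sg_mul_self, one_mul]
      · intro v hv hvx
        simp only [Finset.mem_sdiff, Finset.mem_univ, true_and] at hv
        have : insert v σ ≠ insert x σ := by
          intro h
          have : v ∈ insert x σ := h ▸ Finset.mem_insert_self v σ
          rcases Finset.mem_insert.1 this with h | h
          · exact hvx h
          · exact hv h
        simp [he, this]
      · intro h
        simp only [Finset.mem_sdiff, Finset.mem_univ, true_and, not_not] at h
        exact absurd h hx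
    have hc' : IsChain L m (fun F => c F - bdry e F) := by
      intro F hF
      by_cases hFσ : F = σ
      · exfalso; apply hF; simp only [hFσ, hbσ, sub_self]
      by_cases hcF : c F = 0
      · have : bdry e F ≠ 0 := by
          intro h; apply hF; simp [hcF, h]
        obtain ⟨h1, h2⟩ := hbe F this
        exact ⟨h1.resolve_left hFσ, h2⟩
      · obtain ⟨h1, h2⟩ := hc F hcF
        refine ⟨?_, h2⟩
        rcases Finset.mem_insert.1 h1 with h | h
        · exact absurd h hFσ
        rcases Finset.mem_insert.1 h with h | h
        · exfalso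
          rw [h, hcardτ] at h2
          omega
        · exact h
    have hz' : ∀ G, bdry (fun F => c F - bdry e F) G = 0 := by
      intro G
      rw [bdry_sub, hz G, bdry_bdry, sub_zero]
    obtain ⟨d, hd1, hd2⟩ := hac m _ hc' hz'
    refine ⟨fun F => d F + e F, ?_, ?_⟩
    · intro F hF
      by_cases hdF : d F = 0
      · have hFe : F = insert x σ := by
          by_contra h
          apply hF
          simp [hdF, he, h]
        exact ⟨by simp [hFe], by rw [hFe, hcardτ, hm]⟩
      · exact mono _ _ hd1 F hdF
    · intro G
      rw [bdry_add, hd2 G]; ring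
  · -- c is supported on L
    have hcσ : c σ = 0 := by
      by_contra h
      exact hm (hc σ h).2.symm
    have hcτ : c (insert x σ) = 0 := by
      by_contra h
      have hmt := (hc _ h).2
      have hzσ := hz σ
      rw [bdry_eq, Finset.sum_eq_single x] at hzσ
      · have hs := sg_mul_self (k := k) x σ
        have : c (insert x σ) = 0 := by
          linear_combination (-(c (insert x σ))) * hs + sg k x σ * hzσ
        exact h this
      · intro v hv hvx
        simp only [Finset.mem_sdiff, Finset.mem_univ, true_and] at hv
        rw [mul_eq_zero]; right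
        by_contra hcv
        have hmem := (hc _ hcv).1
        rcases Finset.mem_insert.1 hmem with h' | h'
        · exact hv (h' ▸ Finset.mem_insert_self v σ)
        rcases Finset.mem_insert.1 h' with h' | h'
        · have : v ∈ insert x σ := h' ▸ Finset.mem_insert_self v σ
          rcases Finset.mem_insert.1 this with h | h
          · exact hvx h
          · exact hv h
        · exact hσ (hL _ h' σ (Finset.subset_insert v σ))
      · intro h
        simp only [Finset.mem_sdiff, Finset.mem_univ, true_and, not_not] at h
        exact absurd h hx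
    have hcL : IsChain L m c := by
      intro F hF
      obtain ⟨h1, h2⟩ := hc F hF
      refine ⟨?_, h2⟩
      rcases Finset.mem_insert.1 h1 with h | h
      · exact absurd (h ▸ hF) (by simp [hcσ])
      rcases Finset.mem_insert.1 h with h | h
      · exact absurd (h ▸ hF) (by simp [hcτ])
      · exact h
    obtain ⟨d, hd1, hd2⟩ := hac m c hcL hz
    exact ⟨d, mono _ _ hd1, hd2⟩

lemma isDown_step (L : Finset (Finset (Fin n))) (σ : Finset (Fin n)) (x : Fin n)
    (hL : IsDown L) (hb : ∀ y ∈ σ, (insert x σ).erase y ∈ L)
    (hs : ∀ y ∈ σ, σ.erase y ∈ L) :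
    IsDown (insert σ (insert (insert x σ) L)) := by
  classical
  have key : ∀ G : Finset (Fin n), G ⊆ σ → G = σ ∨ G ∈ L := by
    intro G hG
    by_cases h : G = σ
    · exact Or.inl h
    · right
      obtain ⟨y, hy, hyG⟩ := Finset.exists_of_ssubset (Finset.ssubset_iff_subset_ne.2 ⟨hG, h⟩)
      exact hL _ (hs y hy) G (Finset.subset_erase.2 ⟨hG, hyG⟩)
  have key2 : ∀ G : Finset (Fin n), G ⊆ insert x σ → G = σ ∨ G = insert x σ ∨ G ∈ L := by
    intro G hG
    by_cases h : σ ⊆ G
    · by_cases hxG : x ∈ G
      · right; left
        exact Finset.Subset.antisymm hG (Finset.insert_subset hxG h)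
      · left
        refine Finset.Subset.antisymm ?_ h
        intro y hy
        rcases Finset.mem_insert.1 (hG hy) with h' | h'
        · exact absurd (h' ▸ hy) hxG
        · exact h'
    · obtain ⟨y, hy, hyG⟩ := Finset.not_subset.1 h
      right; right
      exact hL _ (hb y hy) G (Finset.subset_erase.2 ⟨hG, hyG⟩)
  intro F hF G hG
  rcases Finset.mem_insert.1 hF with h | h
  · rcases key G (h ▸ hG) with h' | h'
    · simp [h']
    · simp [h']
  rcases Finset.mem_insert.1 h with h | h
  · rcases key2 G (h ▸ hG) with h' | h' | h'
    · simp [h']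
    · simp [h']
    · simp [h']
  · simp [hL F h G hG]

end Pool.Agent.Helper95.Acyc
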