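import Pool.Agent.Helper95.AcycBase

set_option autoImplicit false

namespace Pool.Agent.Helper95.Acyc

open Finset

variable {n : ℕ} {k : Type*} [Field k]

/-- The finite set of bits of `m` below 12. -/
def bs (m : ℕ) : Finset (Fin 12) := univ.filter (fun i => m.testBit i.1 = true)

@[simp] lemma mem_bs (m : ℕ) (i : Fin 12) : i ∈ bs m ↔ m.testBit i.1 = true := by
  simp [bs]

lemma bs_inj (a b : ℕ) (ha : a < 4096) (hb : b < 4096) (h : bs a = bs b) : a = b := by
  apply Nat.eq_of_testBit_eq
  intro i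
  by_cases hi : i < 12
  · have := congrArg (fun s => (⟨i, hi⟩ : Fin 12) ∈ s) h
    simp only [mem_bs, eq_iff_iff] at this
    rcases ha' : a.testBit i with _ | _ <;> rcases hb' : b.testBit i with _ | _ <;> simp_all
  · have h12 : 2 ^ 12 ≤ 2 ^ i := Nat.pow_le_pow_right (by norm_num) (by omega)
    rw [Nat.testBit_lt_two_pow (lt_of_lt_of_le ha (by norm_num at h12 ⊢; exact h12)),
      Nat.testBit_lt_two_pow (lt_of_lt_of_le hb (by norm_num at h12 ⊢; exact h12))]

lemma testBit_one_shiftLeft (x i : ℕ) : (1 <<< x).testBit i = decide (x = i) := by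
  rw [Nat.one_shiftLeft, Nat.testBit_two_pow]

lemma bs_or (m : ℕ) (x : Fin 12) : bs (m ||| 1 <<< x.1) = insert x (bs m) := by
  ext i
  simp only [mem_bs, Nat.testBit_or, testBit_one_shiftLeft, Finset.mem_insert,
    Bool.or_eq_true, decide_eq_true_eq]
  constructor
  · rintro (h | h)
    · exact Or.inr h
    · exact Or.inl (Fin.ext h.symm)
  · rintro (h | h)
    · exact Or.inr (by rw [h])
    · exact Or.inl h

lemma bs_xor (m : ℕ) (y : Fin 12) (hy : m.testBit y.1 = true) :
    bs (m ^^^ 1 <<< y.1) = (bs m).erase y := by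
  ext i
  simp only [mem_bs, Nat.testBit_xor, testBit_one_shiftLeft, Finset.mem_erase]
  by_cases h : y.1 = i.1
  · have : y = i := Fin.ext h
    subst this
    simp [hy]
  · have : ¬ (i = y) := fun h' => h (by rw [h'])
    simp [h, this]

lemma or_lt (m : ℕ) (x : ℕ) (hm : m < 4096) (hx : x < 12) : m ||| 1 <<< x < 4096 := by
  have : (4096 : ℕ) = 2 ^ 12 := by norm_num
  rw [this] at hm ⊢
  apply Nat.or_lt_two_pow hm
  rw [Nat.one_shiftLeft]
  exact Nat.pow_lt_pow_right (by norm_num) hx

lemma xor_lt (m : ℕ) (x : ℕ) (hm : m < 4096) (hx : x < 12) : m ^^^ 1 <<< x < 4096 := by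
  have : (4096 : ℕ) = 2 ^ 12 := by norm_num
  rw [this] at hm ⊢
  apply Nat.xor_lt_two_pow hm
  rw [Nat.one_shiftLeft]
  exact Nat.pow_lt_pow_right (by norm_num) hx

/-- All faces in a list of pairs `(σ, σ ∪ {x})`. -/
def facesOf (P : List (ℕ × ℕ)) : List ℕ := P.flatMap (fun p => [p.1, p.1 ||| 1 <<< p.2])

/-- `P` (read from the right) is a sequence of elementary expansions relative to the base `b`. -/
def good (b : ℕ → Bool) : List (ℕ × ℕ) → Bool
  | [] => true
  | (s, x) :: rest =>
    good b rest && decide (s < 4096) && decide (x < 12) && !s.testBit x && !b s &&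
      !b (s ||| 1 <<< x) && !(facesOf rest).contains s && !(facesOf rest).contains (s ||| 1 <<< x) &&
      (List.range 12).all (fun y => !s.testBit y ||
        ((b (s ^^^ 1 <<< y) || (facesOf rest).contains (s ^^^ 1 <<< y)) &&
         (b ((s ||| 1 <<< x) ^^^ 1 <<< y) ||
          (facesOf rest).contains ((s ||| 1 <<< x) ^^^ 1 <<< y))))

lemma good_lt (b : ℕ → Bool) (P : List (ℕ × ℕ)) (h : good b P = true) :
    ∀ m ∈ facesOf P, m < 4096 := by
  induction P with
  | nil => intro m hm; simp [facesOf] at hm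
  | cons p rest ih =>
    obtain ⟨s, x⟩ := p
    simp only [good, Bool.and_eq_true, decide_eq_true_eq] at h
    intro m hm
    simp only [facesOf, List.flatMap_cons, List.mem_append, List.mem_cons, List.not_mem_nil,
      or_false] at hm
    rcases hm with (hm | hm) | hm
    · rw [hm]; exact h.1.1.1.1.1.1.1.2
    · rw [hm]; exact or_lt _ _ h.1.1.1.1.1.1.1.2 h.1.1.1.1.1.1.2
    · exact ih h.1.1.1.1.1.1.1.1 m hm

/-- The image of the faces of `P` under an embedding of the twelve labels. -/
def img (e : Fin 12 ↪ Fin n) (P : List (ℕ × ℕ)) : Finset (Finset (Fin n)) :=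
  (facesOf P).toFinset.image (fun m => (bs m).map e)

lemma img_cons (e : Fin 12 ↪ Fin n) (s x : ℕ) (rest : List (ℕ × ℕ)) :
    img e ((s, x) :: rest) =
      insert ((bs s).map e) (insert ((bs (s ||| 1 <<< x)).map e) (img e rest)) := by
  classical
  unfold img facesOf
  simp only [List.flatMap_cons, List.toFinset_append, List.toFinset_cons, List.toFinset_nil,
    Finset.image_union, Finset.image_insert, insert_empty_eq, Finset.image_singleton]
  ext y
  simp only [Finset.mem_union, Finset.mem_insert, Finset.mem_singleton, or_assoc]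

lemma mem_img (e : Fin 12 ↪ Fin n) (P : List (ℕ × ℕ)) (F : Finset (Fin n)) :
    F ∈ img e P ↔ ∃ m ∈ facesOf P, (bs m).map e = F := by
  simp [img]

lemma ext_acyclic (L : Finset (Finset (Fin n))) (hL : IsDown L) (hac : Acyclic k L)
    (e : Fin 12 ↪ Fin n) (b : ℕ → Bool)
    (hb : ∀ m < 4096, (bs m).map e ∈ L ↔ b m = true) (P : List (ℕ × ℕ))
    (hg : good b P = true) :
    IsDown (L ∪ img e P) ∧ Acyclic k (L ∪ img e P) := by
  classical
  induction P with
  | nil =>
    have : img e [] = ∅ := by simp [img, facesOf]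
    rw [this, Finset.union_empty]
    exact ⟨hL, hac⟩
  | cons p rest ih =>
    obtain ⟨s, x⟩ := p
    have hg' := hg
    simp only [good, Bool.and_eq_true, decide_eq_true_eq, Bool.not_eq_true',
      List.contains_eq_mem, decide_eq_false_iff_not] at hg
    obtain ⟨⟨⟨⟨⟨⟨⟨⟨h1, h2⟩, h3⟩, h4⟩, h5⟩, h6⟩, h7⟩, h8⟩, h9⟩ := hg
    obtain ⟨ihd, iha⟩ := ih h1
    have hlt := good_lt b rest h1
    set K := L ∪ img e rest with hK
    set X : Fin 12 := ⟨x, h3⟩ with hX
    have hσdef : (bs (s ||| 1 <<< x)).map e = insert (e X) ((bs s).map e) := by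
      have := bs_or s X
      simp only [hX] at this
      rw [this, Finset.map_insert]
    have hmemK : ∀ m < 4096, (bs m).map e ∈ K ↔ (b m = true ∨ m ∈ facesOf rest) := by
      intro m hm
      rw [hK, Finset.mem_union, hb m hm, mem_img]
      constructor
      · rintro (h | ⟨m', hm', he⟩)
        · exact Or.inl h
        · right
          have := bs_inj m' m (hlt m' hm') hm (Finset.map_injective e he)
          rwa [← this]
      · rintro (h | h)
        · exact Or.inl h
        · exact Or.inr ⟨m, h, rfl⟩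
    have hKeq : L ∪ img e ((s, x) :: rest) =
        insert ((bs s).map e) (insert (insert (e X) ((bs s).map e)) K) := by
      rw [img_cons, hσdef, hK]
      ext y
      simp only [Finset.mem_union, Finset.mem_insert]
      tauto
    have hxn : e X ∉ (bs s).map e := by
      rw [Finset.mem_map']
      simp [hX, h4]
    have hσ : (bs s).map e ∉ K := by
      rw [hmemK s h2]
      rintro (h | h)
      · rw [h5] at h; exact absurd h (by decide)
      · exact h7 h
    have hτ : insert (e X) ((bs s).map e) ∉ K := by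
      rw [← hσdef, hmemK _ (or_lt s x h2 h3)]
      rintro (h | h)
      · rw [h6] at h; exact absurd h (by decide)
      · exact h8 h
    have hy : ∀ y ∈ (bs s).map e, ∃ Y : Fin 12, s.testBit Y.1 = true ∧ e Y = y := by
      intro y hy
      obtain ⟨Y, hY, rfl⟩ := Finset.mem_map.1 hy
      exact ⟨Y, (mem_bs s Y).1 hY, rfl⟩
    have h9' : ∀ Y : Fin 12, s.testBit Y.1 = true →
        (b (s ^^^ 1 <<< Y.1) = true ∨ s ^^^ 1 <<< Y.1 ∈ facesOf rest) ∧
        (b ((s ||| 1 <<< x) ^^^ 1 <<< Y.1) = true ∨
          (s ||| 1 <<< x) ^^^ 1 <<< Y.1 ∈ facesOf rest) := by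
      intro Y hY
      have := List.all_eq_true.1 h9 Y.1 (List.mem_range.2 Y.2)
      simp only [hY, Bool.not_true, Bool.false_or, Bool.and_eq_true, Bool.or_eq_true,
        decide_eq_true_eq, List.contains_eq_mem] at this
      exact this
    have hbt : ∀ y ∈ (bs s).map e, (insert (e X) ((bs s).map e)).erase y ∈ K := by
      intro y hyy
      obtain ⟨Y, hY, rfl⟩ := hy y hyy
      rw [← hσdef, ← Finset.map_erase, ← bs_xor _ Y (by simp [hY]),
        hmemK _ (xor_lt _ _ (or_lt s x h2 h3) Y.2)]
      exact (h9' Y hY).2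
    have hbs : ∀ y ∈ (bs s).map e, ((bs s).map e).erase y ∈ K := by
      intro y hyy
      obtain ⟨Y, hY, rfl⟩ := hy y hyy
      rw [← Finset.map_erase, ← bs_xor _ Y hY, hmemK _ (xor_lt _ _ h2 Y.2)]
      exact (h9' Y hY).1
    rw [hKeq]
    exact ⟨isDown_step K _ _ ihd hbt hbs, acyclic_step K _ _ hxn hσ hτ ihd hbt iha⟩

end Pool.Agent.Helper95.Acyc
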