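import Pool.Agent.Helper95.AcycData

set_option autoImplicit false
set_option maxRecDepth 20000

namespace Pool.Agent.Helper95.Acyc

open Finset

universe u

/-- The embedding of the twelve labels as copy `i`: labels below 9 are shared, the labels
9, 10, 11 get fresh vertices for every `i`. -/
def embF (i : Fin 513) (j : Fin 12) : Fin 1548 :=
  if _h : j.1 < 9 then ⟨j.1, by omega⟩ else ⟨9 + 3 * i.1 + (j.1 - 9), by omega⟩

lemma embF_old (i : Fin 513) (j : Fin 12) (h : j.1 < 9) : (embF i j).1 = j.1 := by
  simp [embF, h]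

lemma embF_new (i : Fin 513) (j : Fin 12) (h : 9 ≤ j.1) :
    (embF i j).1 = 9 + 3 * i.1 + (j.1 - 9) := by
  simp [embF, Nat.not_lt.2 h]

lemma embF_inj (i : Fin 513) : Function.Injective (embF i) := by
  intro a b h
  have h' := congrArg Fin.val h
  apply Fin.ext
  by_cases ha : a.1 < 9 <;> by_cases hb : b.1 < 9
  · rw [embF_old _ _ ha, embF_old _ _ hb] at h'; exact h'
  · rw [embF_old _ _ ha, embF_new _ _ (not_lt.1 hb)] at h'; omega
  · rw [embF_new _ _ (not_lt.1 ha), embF_old _ _ hb] at h'; omega
  · rw [embF_new _ _ (not_lt.1 ha), embF_new _ _ (not_lt.1 hb)] at h'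
    have := a.2; have := b.2; omega

def emb (i : Fin 513) : Fin 12 ↪ Fin 1548 := ⟨embF i, embF_inj i⟩

lemma emb_old (i : Fin 513) (j : Fin 12) (h : j.1 < 9) : (emb i j).1 = j.1 := embF_old i j h

lemma emb_new (i : Fin 513) (j : Fin 12) (h : 9 ≤ j.1) :
    (emb i j).1 = 9 + 3 * i.1 + (j.1 - 9) := embF_new i j h

lemma emb_lt (i : Fin 513) (j : Fin 12) : (emb i j).1 < 9 ↔ j.1 < 9 := by
  constructor
  · intro h
    by_contra hj
    rw [emb_new i j (not_lt.1 hj)] at h
    omega
  · intro h; rw [emb_old i j h]; exact h

lemma emb_eq (i i' : Fin 513) (j j' : Fin 12) (h : 9 ≤ j.1) (he : emb i j = emb i' j') :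
    i = i' ∧ j = j' := by
  have h' := congrArg Fin.val he
  have hj' : 9 ≤ j'.1 := by
    by_contra hc
    have := (emb_lt i' j').2 (not_le.1 hc)
    rw [← he] at this
    have := (emb_lt i j).1 this
    omega
  rw [emb_new i j h, emb_new i' j' hj'] at h'
  have := j.2; have := j'.2
  constructor
  · apply Fin.ext; omega
  · apply Fin.ext; omega

lemma tb3584 (i : ℕ) : (3584 : ℕ).testBit i = decide (9 ≤ i ∧ i < 12) := by
  by_cases h : i < 12
  · interval_cases i <;> decide
  · rw [Nat.testBit_lt_two_pow]
    · simp; omega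
    · have : 2 ^ 12 ≤ 2 ^ i := Nat.pow_le_pow_right (by norm_num) (by omega)
      norm_num at this ⊢
      omega

lemma bE_iff (m : ℕ) : bE m = true ↔ ∀ j : Fin 12, 9 ≤ j.1 → m.testBit j.1 = false := by
  unfold bE
  rw [beq_iff_eq]
  constructor
  · intro h j hj
    have := congrArg (fun x => x.testBit j.1) h
    simp only [Nat.testBit_and, tb3584, Nat.zero_testBit] at this
    simpa [hj, j.2] using this
  · intro h
    apply Nat.eq_of_testBit_eq
    intro i
    rw [Nat.testBit_and, tb3584, Nat.zero_testBit]
    by_cases hi : 9 ≤ i ∧ i < 12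
    · have := h ⟨i, hi.2⟩ hi.1
      simp only at this
      simp [this]
    · simp [hi]

lemma bE_false (m : ℕ) (h : bE m = false) : ∃ j : Fin 12, 9 ≤ j.1 ∧ m.testBit j.1 = true := by
  by_contra hc
  push Not at hc
  have : bE m = true := (bE_iff m).2 (fun j hj => by
    have := hc j hj
    simpa using this)
  rw [this] at h
  exact absurd h (by decide)

lemma bV_iff (v m : ℕ) : bV v m = true ↔ bE m = true ∧ m.testBit v = false := by
  unfold bV bE
  rw [beq_iff_eq, beq_iff_eq]
  constructor
  · intro h
    have h' : ∀ i, (m &&& (3584 ||| 1 <<< v)).testBit i = false := by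
      intro i; rw [h]; simp
    constructor
    · apply Nat.eq_of_testBit_eq
      intro i
      have := h' i
      rw [Nat.testBit_and, Nat.testBit_or] at this
      rw [Nat.testBit_and, Nat.zero_testBit]
      revert this
      cases m.testBit i <;> cases (3584 : ℕ).testBit i <;> simp
    · have := h' v
      rw [Nat.testBit_and, Nat.testBit_or, testBit_one_shiftLeft] at this
      simpa using this
  · rintro ⟨h1, h2⟩
    apply Nat.eq_of_testBit_eq
    intro i
    have := congrArg (fun x => x.testBit i) h1
    simp only [Nat.testBit_and, Nat.zero_testBit] at this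
    rw [Nat.testBit_and, Nat.testBit_or, testBit_one_shiftLeft, Nat.zero_testBit]
    by_cases hv : v = i
    · subst hv; simp [h2]
    · simp [hv, this]

/-- The shared vertices. -/
def Vs : Finset (Fin 1548) := univ.filter (fun v => v.1 < 9)

lemma mem_Vs (v : Fin 1548) : v ∈ Vs ↔ v.1 < 9 := by simp [Vs]

/-- a face of copy `i` without new vertex -/
lemma map_sub_Vs (m : ℕ) (i : Fin 513) : (bs m).map (emb i) ⊆ Vs ↔ bE m = true := by
  rw [bE_iff]
  constructor
  · intro h j hj
    by_contra hc
    have : emb i j ∈ (bs m).map (emb i) := by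
      rw [Finset.mem_map']; simpa using hc
    have := (mem_Vs _).1 (h this)
    rw [emb_lt] at this
    omega
  · intro h y hy
    obtain ⟨j, hj, rfl⟩ := Finset.mem_map.1 hy
    rw [mem_Vs, emb_lt]
    by_contra hc
    have h1 := h j (not_lt.1 hc)
    rw [mem_bs, h1] at hj
    exact absurd hj (by decide)

lemma map_copy (m m' : ℕ) (i i' : Fin 513) (h : bE m = false)
    (he : (bs m).map (emb i) = (bs m').map (emb i')) : i = i' := by
  obtain ⟨j, hj, hb⟩ := bE_false m h
  have : emb i j ∈ (bs m').map (emb i') := by
    rw [← he, Finset.mem_map']; simpa using hb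
  obtain ⟨j', _, hj'⟩ := Finset.mem_map.1 this
  exact (emb_eq i i' j j' hj hj'.symm).1

def stage (L0 : Finset (Finset (Fin 1548))) (P : List (ℕ × ℕ)) (t : ℕ) :
    Finset (Finset (Fin 1548)) :=
  L0 ∪ (univ.filter (fun i : Fin 513 => i.1 < t)).biUnion (fun i => img (emb i) P)

lemma mem_stage (L0 : Finset (Finset (Fin 1548))) (P : List (ℕ × ℕ)) (t : ℕ)
    (F : Finset (Fin 1548)) :
    F ∈ stage L0 P t ↔ F ∈ L0 ∨ ∃ i : Fin 513, i.1 < t ∧ ∃ m ∈ facesOf P, (bs m).map (emb i) = F := by
  simp [stage, mem_img]

lemma stage_ok (k : Type u) [Field k] (L0 : Finset (Finset (Fin 1548))) (hd : IsDown L0)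
    (ha : Acyclic k L0) (b : ℕ → Bool) (P : List (ℕ × ℕ)) (hg : good b P = true)
    (hb : ∀ i : Fin 513, ∀ m < 4096, (bs m).map (emb i) ∈ L0 ↔ b m = true)
    (hP : ∀ m ∈ facesOf P, bE m = false) (t : ℕ) (ht : t ≤ 513) :
    IsDown (stage L0 P t) ∧ Acyclic k (stage L0 P t) := by
  induction t with
  | zero =>
    have : stage L0 P 0 = L0 := by
      ext F; rw [mem_stage]; simp
    rw [this]; exact ⟨hd, ha⟩
  | succ t ih =>
    obtain ⟨h1, h2⟩ := ih (by omega)
    have hs : stage L0 P (t + 1) = stage L0 P t ∪ img (emb ⟨t, by omega⟩) P := by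
      ext F
      rw [Finset.mem_union, mem_stage, mem_stage, mem_img]
      constructor
      · rintro (h | ⟨i, hi, h⟩)
        · exact Or.inl (Or.inl h)
        · by_cases hit : i.1 = t
          · right
            have : i = ⟨t, by omega⟩ := Fin.ext hit
            rw [← this]; exact h
          · left; right; exact ⟨i, by omega, h⟩
      · rintro ((h | ⟨i, hi, h⟩) | h)
        · exact Or.inl h
        · exact Or.inr ⟨i, by omega, h⟩
        · exact Or.inr ⟨⟨t, by omega⟩, by simp, h⟩
    rw [hs]
    apply ext_acyclic _ h1 h2 _ b _ P hg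
    intro m hm
    rw [mem_stage]
    constructor
    · rintro (h | ⟨i, hi, m', hm', he⟩)
      · exact (hb _ m hm).1 h
      · have := map_copy m' m i _ (hP m' hm') he
        rw [this] at hi
        simp at hi
    · intro h
      exact Or.inl ((hb _ m hm).2 h)

/-- The glued complex: the full simplex on the nine shared vertices together with 513 copies of the
new part. -/
def Delta : Finset (Finset (Fin 1548)) := stage Vs.powerset PE 513

lemma Q_lt (q : ℕ) (hq : q ∈ Qlist) : q < 4096 ∧ bE q = false := by
  have := List.all_eq_true.1 Q_ok q hq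
  simpa using this

lemma facesE (m : ℕ) : m ∈ facesOf PE ↔ m ∈ Qlist := by
  constructor
  · intro h
    have := List.all_eq_true.1 facesE1 m h
    simpa using this
  · intro h
    have := List.all_eq_true.1 facesE2 m h
    simpa using this

lemma mem_Delta (F : Finset (Fin 1548)) :
    F ∈ Delta ↔ F ⊆ Vs ∨ ∃ i : Fin 513, ∃ q ∈ Qlist, (bs q).map (emb i) = F := by
  rw [Delta, mem_stage, Finset.mem_powerset]
  simp only [facesE]
  constructor
  · rintro (h | ⟨i, _, h⟩)
    · exact Or.inl h
    · exact Or.inr ⟨i, h⟩
  · rintro (h | ⟨i, h⟩)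
    · exact Or.inl h
    · exact Or.inr ⟨i, i.2, h⟩

lemma powerset_down (S : Finset (Fin 1548)) : IsDown S.powerset := by
  intro F hF G hG
  rw [Finset.mem_powerset] at hF ⊢
  exact hG.trans hF

lemma powerset_acyclic (k : Type u) [Field k] (S : Finset (Fin 1548)) (x : Fin 1548) (hx : x ∈ S) :
    Acyclic k S.powerset := by
  apply acyclic_cone _ x
  · intro F hF
    rw [Finset.mem_powerset] at hF ⊢
    exact Finset.insert_subset hx hF
  · intro F hF
    rw [Finset.mem_powerset] at hF ⊢
    exact (Finset.erase_subset _ _).trans hF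

lemma Delta_ok (k : Type u) [Field k] : IsDown Delta ∧ Acyclic k Delta := by
  apply stage_ok k _ (powerset_down Vs) (powerset_acyclic k Vs ⟨0, by omega⟩ (by simp [mem_Vs])) bE
    PE goodE
  · intro i m _
    rw [Finset.mem_powerset, map_sub_Vs]
  · intro m hm
    exact (Q_lt m ((facesE m).1 hm)).2
  · exact le_refl _

lemma Delta_down (F G : Finset (Fin 1548)) (hF : F ∈ Delta) (hG : G ⊆ F) : G ∈ Delta := by
  have h := (Delta_ok ℚ).1
  unfold IsDown at h
  exact h F hF G hG

attribute [irreducible] Delta

/-- links of shared vertices -/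
lemma link_old (k : Type u) [Field k] (v : Fin 1548) (hv : v.1 < 9) :
    Acyclic k (Delta.filter (fun G => v ∉ G ∧ insert v G ∈ Delta)) := by
  classical
  have hr : v.1 ∈ List.range 9 := List.mem_range.2 hv
  have hr12 : v.1 ∈ List.range 12 := List.mem_range.2 (by omega)
  set V' : Fin 12 := ⟨v.1, by omega⟩ with hV'
  have hemb : ∀ i : Fin 513, emb i V' = v := fun i => Fin.ext (by rw [emb_old i V' hv])
  have hF1 : ∀ m ∈ facesOf (PV v.1), m.testBit v.1 = false ∧ (m ||| 1 <<< v.1) ∈ Qlist := by
    intro m hm
    have := List.all_eq_true.1 (List.all_eq_true.1 facesV1 v.1 hr12) m hm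
    simpa using this
  have hF2 : ∀ q ∈ Qlist, q.testBit v.1 = true → q ^^^ 1 <<< v.1 ∈ facesOf (PV v.1) := by
    intro q hq hb
    have := List.all_eq_true.1 (List.all_eq_true.1 facesV2 v.1 hr) q hq
    simpa [hb] using this
  have hF3 : ∀ m ∈ facesOf (PV v.1), bE m = false := by
    intro m hm
    have := List.all_eq_true.1 (List.all_eq_true.1 facesV3 v.1 hr) m hm
    simpa using this
  have heq : Delta.filter (fun G => v ∉ G ∧ insert v G ∈ Delta) =
      stage (Vs.erase v).powerset (PV v.1) 513 := by
    ext G
    rw [Finset.mem_filter, mem_stage, Finset.mem_powerset]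
    constructor
    · rintro ⟨hG, hvG, hins⟩
      rw [mem_Delta] at hins
      rcases hins with h | ⟨i, q, hq, he⟩
      · left
        intro y hy
        rw [Finset.mem_erase]
        exact ⟨fun h' => hvG (h' ▸ hy), h (Finset.mem_insert_of_mem hy)⟩
      · right
        have hvq : q.testBit v.1 = true := by
          have : emb i V' ∈ (bs q).map (emb i) := by
            rw [he, hemb]; exact Finset.mem_insert_self v G
          rw [Finset.mem_map', mem_bs] at this
          exact this
        refine ⟨i, i.2, q ^^^ 1 <<< v.1, hF2 q hq hvq, ?_⟩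
        have := bs_xor q V' hvq
        simp only [hV'] at this
        rw [this, Finset.map_erase, he]
        have h2 : emb i ⟨v.1, by omega⟩ = v := hemb i
        rw [h2, Finset.erase_insert hvG]
    · intro h
      have key : v ∉ G ∧ insert v G ∈ Delta := by
        rcases h with h | ⟨i, _, m, hm, he⟩
        · refine ⟨fun hv' => ?_, ?_⟩
          · exact (Finset.mem_erase.1 (h hv')).1 rfl
          · rw [mem_Delta]; left
            apply Finset.insert_subset ((mem_Vs v).2 hv)
            exact h.trans (Finset.erase_subset _ _)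
        · obtain ⟨h1, h2⟩ := hF1 m hm
          refine ⟨fun hv' => ?_, ?_⟩
          · rw [← he, ← hemb i, Finset.mem_map', mem_bs] at hv'
            simp only [hV'] at hv'
            rw [h1] at hv'
            exact absurd hv' (by decide)
          · rw [mem_Delta]; right
            refine ⟨i, _, h2, ?_⟩
            have := bs_or m V'
            simp only [hV'] at this
            rw [this, Finset.map_insert, he]
            have h2 : emb i ⟨v.1, by omega⟩ = v := hemb i
            rw [h2]
      exact ⟨Delta_down _ G key.2 (Finset.subset_insert v G), key.1, key.2⟩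
  rw [heq]
  obtain ⟨x, hx⟩ : ∃ x : Fin 1548, x ∈ Vs.erase v := by
    by_cases h0 : v.1 = 0
    · refine ⟨⟨1, by omega⟩, ?_⟩
      rw [Finset.mem_erase, mem_Vs]
      refine ⟨fun h => ?_, by simp⟩
      have := congrArg Fin.val h
      simp at this; omega
    · refine ⟨⟨0, by omega⟩, ?_⟩
      rw [Finset.mem_erase, mem_Vs]
      refine ⟨fun h => ?_, by simp⟩
      have := congrArg Fin.val h
      simp at this; omega
  have hgood := List.all_eq_true.1 goodV v.1 hr
  refine (stage_ok k _ (powerset_down _) (powerset_acyclic k _ x hx) (bV v.1) (PV v.1)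
    hgood ?_ hF3 513 (le_refl _)).2
  intro i m _
  rw [Finset.mem_powerset, bV_iff, ← map_sub_Vs m i]
  constructor
  · intro h
    refine ⟨h.trans (Finset.erase_subset _ _), ?_⟩
    by_contra hc
    have : emb i V' ∈ (bs m).map (emb i) := by
      rw [Finset.mem_map', mem_bs]; simpa using hc
    have := h this
    rw [hemb] at this
    exact (Finset.mem_erase.1 this).1 rfl
  · rintro ⟨h1, h2⟩ y hy
    rw [Finset.mem_erase]
    refine ⟨fun h => ?_, h1 hy⟩
    rw [h, ← hemb i, Finset.mem_map', mem_bs] at hy
    simp only [hV'] at hy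
    rw [h2] at hy
    exact absurd hy (by decide)

/-- links of new vertices -/
lemma link_new (k : Type u) [Field k] (i : Fin 513) (w : Fin 12) (hw : 9 ≤ w.1) :
    Acyclic k (Delta.filter (fun G => emb i w ∉ G ∧ insert (emb i w) G ∈ Delta)) := by
  classical
  have hr12 : w.1 ∈ List.range 12 := List.mem_range.2 w.2
  have hr : w.1 ∈ [9, 10, 11] := by
    have := w.2
    simp only [List.mem_cons, List.not_mem_nil, or_false]
    omega
  have hF1 : ∀ m ∈ facesOf (PV w.1), m.testBit w.1 = false ∧ (m ||| 1 <<< w.1) ∈ Qlist := by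
    intro m hm
    have := List.all_eq_true.1 (List.all_eq_true.1 facesV1 w.1 hr12) m hm
    simpa using this
  have hW := List.all_eq_true.1 facesW2 w.1 hr
  simp only [Bool.and_eq_true] at hW
  obtain ⟨⟨hW1, hW2⟩, hW3⟩ := hW
  have hW1' : 1 <<< w.1 ∈ Qlist := by simpa using hW1
  have hW2' : 1 ||| 1 <<< w.1 ∈ Qlist := by simpa using hW2
  have hF2 : ∀ q ∈ Qlist, q.testBit w.1 = true → q ^^^ 1 <<< w.1 ∈ facesOf (PV w.1) ∨
      q ^^^ 1 <<< w.1 = 0 ∨ q ^^^ 1 <<< w.1 = 1 := by
    intro q hq hb
    have := List.all_eq_true.1 hW3 q hq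
    simpa [hb, bW, or_assoc] using this
  set x0 : Fin 1548 := emb i 0 with hx0
  have hx0v : x0.1 = 0 := by rw [hx0, emb_old i 0 (by decide)]; rfl
  have hbs0 : bs 0 = ∅ := by ext j; simp
  have hbs1 : (bs 1).map (emb i) = {x0} := by
    have : bs 1 = {0} := by decide
    rw [this, Finset.map_singleton]
  set L : Finset (Finset (Fin 1548)) := ({x0} : Finset (Fin 1548)).powerset with hL
  have heq : Delta.filter (fun G => emb i w ∉ G ∧ insert (emb i w) G ∈ Delta) =
      L ∪ img (emb i) (PV w.1) := by
    ext G
    rw [Finset.mem_filter, Finset.mem_union, mem_img]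
    constructor
    · rintro ⟨hG, hvG, hins⟩
      rw [mem_Delta] at hins
      rcases hins with h | ⟨i', q, hq, he⟩
      · exfalso
        have := (mem_Vs _).1 (h (Finset.mem_insert_self _ G))
        rw [emb_lt] at this
        omega
      · have hmem : emb i w ∈ (bs q).map (emb i') := by
          rw [he]; exact Finset.mem_insert_self _ G
        obtain ⟨j', hj', hjj⟩ := Finset.mem_map.1 hmem
        obtain ⟨hi, hwj⟩ := emb_eq i i' w j' hw hjj.symm
        subst hi
        subst hwj
        have hvq : q.testBit w.1 = true := (mem_bs _ _).1 hj'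
        have hGe : (bs (q ^^^ 1 <<< w.1)).map (emb i) = G := by
          rw [bs_xor q w hvq, Finset.map_erase, he, Finset.erase_insert hvG]
        rcases hF2 q hq hvq with h | h | h
        · right; exact ⟨_, h, hGe⟩
        · left; rw [← hGe, h, hbs0]; simp [hL]
        · left; rw [← hGe, h, hbs1]; simp [hL]
    · intro h
      have key : emb i w ∉ G ∧ insert (emb i w) G ∈ Delta := by
        rcases h with h | ⟨m, hm, he⟩
        · have hwx : emb i w ≠ x0 := by
            intro h'
            have := congrArg Fin.val h'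
            rw [hx0v, emb_new i w hw] at this
            omega
          rw [hL, Finset.mem_powerset, Finset.subset_singleton_iff] at h
          rcases h with h | h
          · subst h
            refine ⟨by simp, ?_⟩
            rw [mem_Delta]; right
            refine ⟨i, _, hW1', ?_⟩
            have := bs_or 0 w
            rw [Nat.zero_or] at this
            rw [this, Finset.map_insert, hbs0]
            simp
          · subst h
            refine ⟨by simpa using hwx, ?_⟩
            rw [mem_Delta]; right
            refine ⟨i, _, hW2', ?_⟩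
            rw [bs_or 1 w, Finset.map_insert, hbs1]
        · obtain ⟨h1, h2⟩ := hF1 m hm
          refine ⟨fun hv' => ?_, ?_⟩
          · rw [← he, Finset.mem_map', mem_bs, h1] at hv'
            exact absurd hv' (by decide)
          · rw [mem_Delta]; right
            refine ⟨i, _, h2, ?_⟩
            rw [bs_or m w, Finset.map_insert, he]
      exact ⟨Delta_down _ G key.2 (Finset.subset_insert _ G), key.1, key.2⟩
  rw [heq]
  have hgood := List.all_eq_true.1 goodW w.1 hr
  refine (ext_acyclic L (powerset_down _) (powerset_acyclic k _ x0 (by simp)) (emb i) bW ?_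
    (PV w.1) hgood).2
  intro m hm
  rw [hL, Finset.mem_powerset, Finset.subset_singleton_iff]
  have : bW m = true ↔ m = 0 ∨ m = 1 := by simp [bW]
  rw [this]
  constructor
  · rintro (h | h)
    · left
      rw [Finset.map_eq_empty] at h
      exact bs_inj m 0 hm (by norm_num) (by rw [h, hbs0])
    · right
      rw [← hbs1] at h
      exact bs_inj m 1 hm (by norm_num) (Finset.map_injective _ h)
  · rintro (h | h)
    · left; rw [h, hbs0]; simp
    · right; rw [h, hbs1]

/-- every vertex link is acyclic -/
lemma link_acyclic (k : Type u) [Field k] (v : Fin 1548) :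
    Acyclic k (Delta.filter (fun G => v ∉ G ∧ insert v G ∈ Delta)) := by
  by_cases hv : v.1 < 9
  · exact link_old k v hv
  · have hlt := v.2
    set i : Fin 513 := ⟨(v.1 - 9) / 3, by omega⟩ with hi
    set w : Fin 12 := ⟨9 + (v.1 - 9) % 3, by omega⟩ with hw
    have : emb i w = v := by
      apply Fin.ext
      rw [emb_new i w (by simp [hw])]
      simp only [hi, hw]
      omega
    rw [← this]
    exact link_new k i w (by simp [hw])

end Pool.Agent.Helper95.Acyc
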