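import Pool.Agent.Helper95.AcycMain

set_option autoImplicit false
set_option maxRecDepth 20000

namespace Pool.Agent.Helper95.Acyc

open Finset

/-- `cov` is compatible with the chosen family `S`. -/
def Cons (S : ℕ → Prop) (cov : ℕ) : Prop := ∀ J ∈ Jl, S J → J &&& cov = 0 ∨ J &&& cov = J

lemma refL_sound (S : ℕ → Prop) (hcov : ∀ q < 108, ∃ J ∈ Jl, S J ∧ J.testBit q = true)
    (hdis : ∀ J ∈ Jl, ∀ J' ∈ Jl, S J → S J' → J = J' ∨ J &&& J' = 0) (t : T) :
    ∀ (Is : List ℕ) (cov : ℕ), refL t Is cov = true → ∀ I ∈ Is, ¬ Cons S (cov ||| I) := by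
  induction t with
  | nil =>
    intro Is cov h I hI
    cases Is with
    | nil => simp at hI
    | cons a b => simp [refL] at h
  | cons q ch rest ih1 ih2 =>
    intro Is cov h I hI
    cases Is with
    | nil => simp at hI
    | cons a b =>
      rw [refL] at h
      simp only [Bool.and_eq_true, decide_eq_true_eq, Bool.not_eq_true'] at h
      obtain ⟨⟨⟨h1, h2⟩, h3⟩, h4⟩ := h
      rcases List.mem_cons.1 hI with hI | hI
      · subst hI
        intro hC
        obtain ⟨J, hJ, hSJ, hJq⟩ := hcov q h1
        have hJc : J &&& (cov ||| I) = 0 := by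
          rcases hC J hJ hSJ with h | h
          · exact h
          · exfalso
            have := congrArg (fun x => x.testBit q) h
            simp only [Nat.testBit_and, hJq, h2] at this
            exact absurd this (by decide)
        refine ih1 _ _ h3 J ?_ ?_
        · rw [List.mem_filter]
          refine ⟨hJ, ?_⟩
          simp [hJq, hJc]
        · intro J' hJ' hSJ'
          rcases hdis J' hJ' J hJ hSJ' hSJ with h | h
          · right
            apply Nat.eq_of_testBit_eq
            intro i
            rw [Nat.testBit_and, Nat.testBit_or, h]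
            cases J.testBit i <;> simp
          · rcases hC J' hJ' hSJ' with h' | h'
            · left
              rw [Nat.and_or_distrib_left, h', h]; rfl
            · right
              rw [Nat.and_or_distrib_left, h', h, Nat.or_zero]
      · exact ih2 b cov h4 I hI

theorem ints_lt : ints.all (fun t => decide (t.2.2 < 2 ^ 108)) = true := by decide +kernel

lemma Qlen : Qlist.length = 108 := by decide +kernel

lemma popc_card (m : ℕ) : popc m = (bs m).card := by
  unfold popc bs
  rw [Finset.card_filter]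
  simp only [List.range_succ, List.range_zero, List.nil_append, List.countP_append,
    List.countP_cons, List.countP_nil, Fin.sum_univ_castSucc, Fin.sum_univ_zero, zero_add]
  rfl

lemma bs_sub_iff (a b : ℕ) (ha : a < 4096) : bs a ⊆ bs b ↔ a &&& b = a := by
  constructor
  · intro h
    apply Nat.eq_of_testBit_eq
    intro i
    rw [Nat.testBit_and]
    by_cases hi : i < 12
    · by_cases hai : a.testBit i = true
      · have := h ((mem_bs a ⟨i, hi⟩).2 hai)
        rw [mem_bs] at this
        simp only at this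
        rw [hai, this]; rfl
      · simp only [Bool.not_eq_true] at hai
        rw [hai]; rfl
    · have : a.testBit i = false := by
        apply Nat.testBit_lt_two_pow
        have : 2 ^ 12 ≤ 2 ^ i := Nat.pow_le_pow_right (by norm_num) (by omega)
        norm_num at this
        omega
      rw [this]; rfl
  · intro h j hj
    rw [mem_bs] at hj ⊢
    have := congrArg (fun x => x.testBit j.1) h
    simp only [Nat.testBit_and, hj, Bool.true_and] at this
    exact this

/-- No partition of `Delta` into intervals of length two. -/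
theorem no_partition (P : Finset (Finset (Fin 1548) × Finset (Fin 1548)))
    (h1 : ∀ p ∈ P, p.1 ⊆ p.2 ∧ p.2 ∈ Delta ∧ p.2.card = p.1.card + 2)
    (h2 : ∀ H ∈ Delta, ∃! p, p ∈ P ∧ p.1 ⊆ H ∧ H ⊆ p.2) : False := by
  classical
  -- pigeonhole
  have hVs : Vs.card ≤ 9 := by
    have : Vs ⊆ (univ : Finset (Fin 9)).image (Fin.castLE (by norm_num : 9 ≤ 1548)) := by
      intro v hv
      rw [mem_Vs] at hv
      rw [Finset.mem_image]
      exact ⟨⟨v.1, hv⟩, Finset.mem_univ _, rfl⟩
    refine (Finset.card_le_card this).trans (Finset.card_image_le.trans ?_)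
    simp
  have hclean : ∃ i : Fin 513, ∀ p ∈ P, (∃ f ∈ Qlist, (bs f).map (emb i) = p.2) → ¬ p.1 ⊆ Vs := by
    by_contra hc
    push Not at hc
    choose p hp hf hs using hc
    have hcard : Vs.powerset.card < (univ : Finset (Fin 513)).card := by
      rw [Finset.card_powerset, Finset.card_univ, Fintype.card_fin]
      calc 2 ^ Vs.card ≤ 2 ^ 9 := Nat.pow_le_pow_right (by norm_num) hVs
        _ < 513 := by norm_num
    obtain ⟨i, _, i', _, hne, he⟩ := Finset.exists_ne_map_eq_of_card_lt_of_maps_to hcard
      (f := fun i => (p i).1) (fun i _ => Finset.mem_powerset.2 (hs i))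
    have hG : (p i).1 ∈ Delta := Delta_down _ _ (h1 _ (hp i)).2.1 (h1 _ (hp i)).1
    obtain ⟨r, _, hr⟩ := h2 _ hG
    have e1 := hr (p i) ⟨hp i, Finset.Subset.refl _, (h1 _ (hp i)).1⟩
    have e2 := hr (p i') ⟨hp i', by rw [he], by rw [he]; exact (h1 _ (hp i')).1⟩
    obtain ⟨f, hfQ, hfe⟩ := hf i
    obtain ⟨f', hfQ', hfe'⟩ := hf i'
    apply hne
    apply map_copy f f' i i' (Q_lt f hfQ).2
    rw [hfe, hfe', e1, e2]
  obtain ⟨i, hi⟩ := hclean
  set S : ℕ → Prop := fun J => ∃ t ∈ ints, t.2.2 = J ∧
    ((bs t.1).map (emb i), (bs t.2.1).map (emb i)) ∈ P with hS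
  have hbit : ∀ t ∈ ints, ∀ q : ℕ, ∀ m : ℕ, Qlist[q]? = some m →
      (t.2.2.testBit q = true ↔ (t.1 &&& m = t.1 ∧ m &&& t.2.1 = m)) := by
    intro t ht q m hm
    have hmem : (m, q) ∈ QI := by
      unfold QI
      rw [List.mk_mem_zipIdx_iff_getElem?]
      exact hm
    have := List.all_eq_true.1 (List.all_eq_true.1 ints_ok t ht) (m, q) hmem
    simp only [beq_iff_eq] at this
    rw [this]
    simp
  have hget : ∀ q < 108, ∃ m, Qlist[q]? = some m ∧ m ∈ Qlist := by
    intro q hq
    have hq' : q < Qlist.length := by rw [Qlen]; exact hq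
    exact ⟨Qlist[q], List.getElem?_eq_getElem hq', List.getElem_mem hq'⟩
  have hQD : ∀ m ∈ Qlist, (bs m).map (emb i) ∈ Delta := by
    intro m hm
    rw [mem_Delta]; right; exact ⟨i, m, hm, rfl⟩
  have hcov : ∀ q < 108, ∃ J ∈ Jl, S J ∧ J.testBit q = true := by
    intro q hq
    obtain ⟨m, hm, hmQ⟩ := hget q hq
    obtain ⟨p, ⟨hp, hpl, hpr⟩, _⟩ := h2 _ (hQD m hmQ)
    obtain ⟨hp1, hp2, hp3⟩ := h1 p hp
    obtain ⟨j, hj, hjm⟩ := bE_false m (Q_lt m hmQ).2
    have hjH : emb i j ∈ (bs m).map (emb i) := by rw [Finset.mem_map']; simpa using hjm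
    -- p.2
    have hp2' : ∃ f ∈ Qlist, (bs f).map (emb i) = p.2 := by
      rcases (mem_Delta _).1 hp2 with h | ⟨i', f, hf, he⟩
      · exfalso
        have := (mem_Vs _).1 (h (hpr hjH))
        rw [emb_lt] at this
        omega
      · have : emb i j ∈ (bs f).map (emb i') := by rw [he]; exact hpr hjH
        obtain ⟨j', _, hjj⟩ := Finset.mem_map.1 this
        have := (emb_eq i i' j j' hj hjj.symm).1
        subst this
        exact ⟨f, hf, he⟩
    have hnot := hi p hp hp2'
    obtain ⟨f, hf, hfe⟩ := hp2'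
    have hp1' : ∃ g ∈ Qlist, (bs g).map (emb i) = p.1 := by
      rcases (mem_Delta _).1 (Delta_down _ _ hp2 hp1) with h | ⟨i', g, hg, he⟩
      · exact absurd h hnot
      · obtain ⟨j2, hj2, hjg⟩ := bE_false g (Q_lt g hg).2
        have h3 : emb i' j2 ∈ (bs f).map (emb i) := by
          rw [hfe]; apply hp1; rw [← he, Finset.mem_map']; simpa using hjg
        obtain ⟨j', _, hjj⟩ := Finset.mem_map.1 h3
        have := (emb_eq i' i j2 j' hj2 hjj.symm).1
        subst this
        exact ⟨g, hg, he⟩
    obtain ⟨g, hg, hge⟩ := hp1'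
    have hgl := (Q_lt g hg).1
    have hgm : g &&& m = g := by
      rw [← bs_sub_iff g m hgl]
      rw [← hge, Finset.map_subset_map] at hpl
      exact hpl
    have hmf : m &&& f = m := by
      rw [← bs_sub_iff m f (Q_lt m hmQ).1]
      rw [← hfe, Finset.map_subset_map] at hpr
      exact hpr
    have hgf : g &&& f = g := by
      rw [← bs_sub_iff g f hgl]
      rw [← hge, ← hfe, Finset.map_subset_map] at hp1
      exact hp1
    have hpop : popc f = popc g + 2 := by
      rw [popc_card, popc_card]
      rw [← hge, ← hfe, Finset.card_map, Finset.card_map] at hp3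
      exact hp3
    have hcompl := List.all_eq_true.1 (List.all_eq_true.1 ints_complete g hg) f hf
    simp only [hgf, hpop, beq_self_eq_true, Bool.not_true, Bool.false_or,
      List.any_eq_true, Bool.and_eq_true, beq_iff_eq] at hcompl
    obtain ⟨t, ht, ht1, ht2⟩ := hcompl
    refine ⟨t.2.2, List.mem_map.2 ⟨t, ht, rfl⟩, ⟨t, ht, rfl, ?_⟩, ?_⟩
    · rw [ht1, ht2, hge, hfe]; exact hp
    · rw [hbit t ht q m hm, ht1, ht2]; exact ⟨hgm, hmf⟩
  have hdis : ∀ J ∈ Jl, ∀ J' ∈ Jl, S J → S J' → J = J' ∨ J &&& J' = 0 := by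
    rintro J _ J' _ ⟨t, ht, rfl, hP⟩ ⟨t', ht', rfl, hP'⟩
    by_cases h0 : t.2.2 &&& t'.2.2 = 0
    · exact Or.inr h0
    left
    have hlt := List.all_eq_true.1 ints_lt t ht
    have hlt' := List.all_eq_true.1 ints_lt t' ht'
    simp only [decide_eq_true_eq] at hlt hlt'
    obtain ⟨q, hq⟩ : ∃ q, (t.2.2 &&& t'.2.2).testBit q = true := by
      by_contra hc
      push Not at hc
      apply h0
      apply Nat.eq_of_testBit_eq
      intro q
      have := hc q
      simp only [ne_eq, Bool.not_eq_true] at this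
      rw [this]; simp
    rw [Nat.testBit_and, Bool.and_eq_true] at hq
    have hq108 : q < 108 := by
      by_contra hc
      have : t.2.2.testBit q = false := by
        apply Nat.testBit_lt_two_pow
        exact lt_of_lt_of_le hlt (Nat.pow_le_pow_right (by norm_num) (not_lt.1 hc))
      rw [this] at hq
      exact absurd hq.1 (by decide)
    obtain ⟨m, hm, hmQ⟩ := hget q hq108
    have b1 := (hbit t ht q m hm).1 hq.1
    have b2 := (hbit t' ht' q m hm).1 hq.2
    have hml := (Q_lt m hmQ).1
    have sub : ∀ a b : ℕ, a &&& b = a → bs a ⊆ bs b := by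
      intro a b h j hj
      rw [mem_bs] at hj ⊢
      have := congrArg (fun x => x.testBit j.1) h
      simp only [Nat.testBit_and, hj, Bool.true_and] at this
      exact this
    obtain ⟨r, _, hr⟩ := h2 _ (hQD m hmQ)
    have e1 := hr _ ⟨hP, Finset.map_subset_map.2 (sub _ _ b1.1),
      Finset.map_subset_map.2 (sub _ _ b1.2)⟩
    have e2 := hr _ ⟨hP', Finset.map_subset_map.2 (sub _ _ b2.1),
      Finset.map_subset_map.2 (sub _ _ b2.2)⟩
    have e := e1.trans e2.symm
    simp only [Prod.mk.injEq] at e
    have g1 : bs t.1 = bs t'.1 := Finset.map_injective _ e.1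
    have g2 : bs t.2.1 = bs t'.2.1 := Finset.map_injective _ e.2
    apply Nat.eq_of_testBit_eq
    intro q'
    by_cases hq' : q' < 108
    · obtain ⟨m', hm', hmQ'⟩ := hget q' hq'
      have hml' := (Q_lt m' hmQ').1
      rw [Bool.eq_iff_iff, hbit t ht q' m' hm', hbit t' ht' q' m' hm']
      have bi : ∀ a : ℕ, a < 4096 → ∀ b, (a &&& b = a ↔ bs a ⊆ bs b) :=
        fun a ha b => (bs_sub_iff a b ha).symm
      have tl : ∀ s ∈ ints, s.1 < 4096 := by
        intro s hs
        have := List.all_eq_true.1 (show ints.all (fun t => decide (t.1 < 4096)) = true by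
          decide +kernel) s hs
        simpa using this
      rw [bi _ (tl t ht), bi _ (tl t' ht'), bi _ hml', bi _ hml', g1, g2]
    · have z1 : t.2.2.testBit q' = false := Nat.testBit_lt_two_pow
        (lt_of_lt_of_le hlt (Nat.pow_le_pow_right (by norm_num) (not_lt.1 hq')))
      have z2 : t'.2.2.testBit q' = false := Nat.testBit_lt_two_pow
        (lt_of_lt_of_le hlt' (Nat.pow_le_pow_right (by norm_num) (not_lt.1 hq')))
      rw [z1, z2]
  refine refL_sound S hcov hdis tr [0] 0 tr_ok 0 (by simp) ?_
  intro J _ _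
  left; simp

end Pool.Agent.Helper95.Acyc
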