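import Mathlib

/-! Job A: Newton interpolation bound for analytic functions, and chain-of-discs propagation of smallness. -/

namespace Pool.Agent.Helper95.Hada

/-- bound on the divided difference of a bounded analytic function on a disc. -/
theorem dslope_bound (G : ℂ → ℂ) (w₀ a : ℂ) (ρ A : ℝ) (hρ : 0 < ρ) (hA : 0 ≤ A)
    (hd : DifferentiableOn ℂ G (Metric.ball w₀ (9 * ρ)))
    (hb : ∀ z ∈ Metric.ball w₀ (9 * ρ), ‖G z‖ ≤ A) (ha : a ∈ Metric.closedBall w₀ ρ) :
    DifferentiableOn ℂ (dslope G a) (Metric.ball w₀ (9 * ρ)) ∧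
    ∀ z ∈ Metric.ball w₀ (9 * ρ), ‖dslope G a z‖ ≤ A / (4 * ρ) := by
  have ha' : a ∈ Metric.ball w₀ (9 * ρ) := by
    rw [Metric.mem_closedBall] at ha
    rw [Metric.mem_ball]
    linarith
  have hD : DifferentiableOn ℂ (dslope G a) (Metric.ball w₀ (9 * ρ)) :=
    (Complex.differentiableOn_dslope (Metric.isOpen_ball.mem_nhds ha')).2 hd
  refine ⟨hD, ?_⟩
  intro z hz
  rw [Metric.mem_ball] at hz
  -- bound for each r
  have key : ∀ r : ℝ, dist z w₀ < r → ρ < r → r < 9 * ρ → ‖dslope G a z‖ ≤ 2 * A / (r - ρ) := by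
    intro r hr1 hr2 hr3
    have hsub : closure (Metric.ball w₀ r) ⊆ Metric.ball w₀ (9 * ρ) := by
      refine Metric.closure_ball_subset_closedBall.trans ?_
      exact Metric.closedBall_subset_ball hr3
    have hdc : DiffContOnCl ℂ (dslope G a) (Metric.ball w₀ r) := by
      refine DifferentiableOn.diffContOnCl (hD.mono hsub)
    refine Complex.norm_le_of_forall_mem_frontier_norm_le Metric.isBounded_ball hdc ?_ ?_
    · intro x hx
      have hx' : dist x w₀ = r := by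
        exact Metric.mem_sphere.1 (Metric.frontier_ball_subset_sphere hx)
      have hxb : x ∈ Metric.ball w₀ (9 * ρ) := by
        rw [Metric.mem_ball, hx']; exact hr3
      have hxa : r - ρ ≤ dist x a := by
        have h1 : dist x w₀ ≤ dist x a + dist a w₀ := dist_triangle _ _ _
        rw [Metric.mem_closedBall] at ha
        linarith
      have hpos : 0 < r - ρ := by linarith
      have hne : x ≠ a := by
        intro h
        rw [h, dist_self] at hxa
        linarith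
      rw [dslope_of_ne _ hne, slope_def_field, norm_div]
      have hnum : ‖G x - G a‖ ≤ 2 * A := by
        calc ‖G x - G a‖ ≤ ‖G x‖ + ‖G a‖ := norm_sub_le _ _
          _ ≤ A + A := add_le_add (hb x hxb) (hb a ha')
          _ = 2 * A := by ring
      rw [← dist_eq_norm x a]
      exact div_le_div₀ (by linarith) hnum hpos hxa
    · apply subset_closure
      rw [Metric.mem_ball]; exact hr1
  -- take the limit
  by_contra hcon
  push Not at hcon
  set B := ‖dslope G a z‖ with hB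
  have hBpos : 0 < B := lt_of_le_of_lt (by positivity) hcon
  -- 2A/(r-ρ) < B for r near 9ρ ; i.e. 2A < B (r - ρ)
  have h2 : 2 * A < B * (8 * ρ) := by
    rw [div_lt_iff₀ (by positivity)] at hcon
    linarith
  -- choose r = max
  set r0 : ℝ := max (dist z w₀) (max ρ (2 * A / B + ρ)) with hr0
  have hr0lt : r0 < 9 * ρ := by
    rw [hr0]
    refine max_lt hz (max_lt (by linarith) ?_)
    have : 2 * A / B < 8 * ρ := by
      rw [div_lt_iff₀ hBpos]; linarith
    linarith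
  obtain ⟨r, hr1, hr2⟩ := exists_between hr0lt
  have h3 := key r (lt_of_le_of_lt (le_max_left _ _) hr1)
    (lt_of_le_of_lt ((le_max_left _ _).trans (le_max_right _ _)) hr1) hr2
  have h4 : 2 * A / B + ρ < r := lt_of_le_of_lt ((le_max_right _ _).trans (le_max_right _ _)) hr1
  have h5 : 2 * A / B < r - ρ := by linarith
  have hrρ : 0 < r - ρ := lt_of_le_of_lt (by positivity) h5
  rw [le_div_iff₀ hrρ] at h3
  rw [div_lt_iff₀ hBpos] at h5
  linarith

/-- Newton interpolation: an analytic function bounded by `A` on a disc of radius `9ρ` and small at `m`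
separated points of the concentric disc of radius `ρ` is small on the disc of radius `2ρ`. -/
theorem newton_bound (m : ℕ) : ∀ (G : ℂ → ℂ) (w₀ : ℂ) (ρ τ t A : ℝ), 0 < ρ → 0 < τ → 0 ≤ t → 0 ≤ A →
    DifferentiableOn ℂ G (Metric.ball w₀ (9 * ρ)) →
    (∀ z ∈ Metric.ball w₀ (9 * ρ), ‖G z‖ ≤ A) →
    ∀ (w : ℕ → ℂ), (∀ i < m, w i ∈ Metric.closedBall w₀ ρ) →
    (∀ i < m, ∀ j < m, i ≠ j → τ * ρ ≤ ‖w i - w j‖) →
    (∀ i < m, ‖G (w i)‖ ≤ t) →
    ∀ z ∈ Metric.closedBall w₀ (2 * ρ),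
      ‖G z‖ ≤ t * (∑ j ∈ Finset.range m, (6 / τ) ^ j) + A * (3 / 4) ^ m := by
  induction m with
  | zero =>
    intro G w₀ ρ τ t A hρ hτ ht hA hd hb w hw hsep hsm z hz
    simp only [Finset.range_zero, Finset.sum_empty, mul_zero, pow_zero, mul_one, zero_add]
    apply hb
    rw [Metric.mem_closedBall] at hz
    rw [Metric.mem_ball]
    linarith
  | succ m ih =>
    intro G w₀ ρ τ t A hρ hτ ht hA hd hb w hw hsep hsm z hz
    obtain ⟨hD1, hB1⟩ := dslope_bound G w₀ (w 0) ρ A hρ hA hd hb (hw 0 (Nat.succ_pos m))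
    have hih := ih (dslope G (w 0)) w₀ ρ τ (2 * t / (τ * ρ)) (A / (4 * ρ)) hρ hτ (by positivity)
      (by positivity) hD1 hB1 (fun i => w (i + 1)) (fun i hi => hw (i + 1) (by omega))
      (fun i hi j hj hij => hsep (i + 1) (by omega) (j + 1) (by omega) (by omega))
      (by
        intro i hi
        have hs := hsep (i + 1) (by omega) 0 (by omega) (by omega)
        have hpos : 0 < τ * ρ := by positivity
        have hne : w (i + 1) ≠ w 0 := by
          intro h
          rw [h, sub_self, norm_zero] at hs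
          linarith
        show ‖dslope G (w 0) (w (i + 1))‖ ≤ _
        rw [dslope_of_ne _ hne, slope_def_field, norm_div]
        refine div_le_div₀ (by linarith) ?_ hpos hs
        calc ‖G (w (i + 1)) - G (w 0)‖ ≤ ‖G (w (i + 1))‖ + ‖G (w 0)‖ := norm_sub_le _ _
          _ ≤ t + t := add_le_add (hsm _ (by omega)) (hsm _ (by omega))
          _ = 2 * t := by ring) z hz
    have hGz : G z = G (w 0) + (z - w 0) * dslope G (w 0) z := by
      have := sub_smul_dslope G (w 0) z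
      rw [smul_eq_mul] at this
      rw [this]; ring
    have hz3 : ‖z - w 0‖ ≤ 3 * ρ := by
      rw [← dist_eq_norm]
      have h0 := hw 0 (Nat.succ_pos m)
      rw [Metric.mem_closedBall] at hz h0
      have := dist_triangle z w₀ (w 0)
      rw [dist_comm w₀ (w 0)] at this
      linarith
    have hmul : ‖(z - w 0) * dslope G (w 0) z‖ ≤ (3 * ρ) *
        (2 * t / (τ * ρ) * (∑ j ∈ Finset.range m, (6 / τ) ^ j) + A / (4 * ρ) * (3 / 4) ^ m) := by
      rw [norm_mul]
      exact mul_le_mul hz3 hih (norm_nonneg _) (by positivity)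
    rw [hGz]
    refine (norm_add_le _ _).trans ?_
    refine (add_le_add (hsm 0 (Nat.succ_pos m)) hmul).trans (le_of_eq ?_)
    rw [geom_sum_succ]
    have hρ' := hρ.ne'
    have hτ' := hτ.ne'
    field_simp
    ring

/-- one propagation step. -/
theorem prop_step (t₁ : ℝ) (ht₁ : 0 < t₁) : ∃ t₂ : ℝ, 0 < t₂ ∧
    ∀ (G : ℂ → ℂ) (ρ A : ℝ) (w₀ : ℂ), 0 < ρ → 0 ≤ A →
    DifferentiableOn ℂ G (Metric.ball w₀ (9 * ρ)) →
    (∀ z ∈ Metric.ball w₀ (9 * ρ), ‖G z‖ ≤ A) →
    (∀ z ∈ Metric.closedBall w₀ ρ, ‖G z‖ ≤ t₂ * A) →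
    ∀ z ∈ Metric.closedBall w₀ (2 * ρ), ‖G z‖ ≤ t₁ * A := by
  obtain ⟨m, hm⟩ := exists_pow_lt_of_lt_one (show 0 < t₁ / 2 by positivity)
    (show (3 / 4 : ℝ) < 1 by norm_num)
  set S : ℝ := ∑ j ∈ Finset.range m, (6 / (1 / ((m : ℝ) + 1))) ^ j with hS
  have hS0 : 0 ≤ S := Finset.sum_nonneg (fun j _ => by positivity)
  refine ⟨(t₁ / 2) / (S + 1), by positivity, ?_⟩
  intro G ρ A w₀ hρ hA hd hb hsm z hz
  have hm1 : (0 : ℝ) < (m : ℝ) + 1 := by positivity
  have hw : ∀ i < m, w₀ + ((ρ * ((i : ℝ) / ((m : ℝ) + 1)) : ℝ) : ℂ) ∈ Metric.closedBall w₀ ρ := by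
    intro i hi
    rw [Metric.mem_closedBall, dist_eq_norm, add_sub_cancel_left, Complex.norm_real,
      Real.norm_of_nonneg (by positivity)]
    have h1 : (i : ℝ) / ((m : ℝ) + 1) ≤ 1 := by
      rw [div_le_one hm1]
      have : (i : ℝ) < m := by exact_mod_cast hi
      linarith
    calc ρ * ((i : ℝ) / ((m : ℝ) + 1)) ≤ ρ * 1 := by
          exact mul_le_mul_of_nonneg_left h1 hρ.le
      _ = ρ := mul_one _
  have h := newton_bound m G w₀ ρ (1 / ((m : ℝ) + 1)) ((t₁ / 2) / (S + 1) * A) A hρ (by positivity)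
    (by positivity) hA hd hb (fun i => w₀ + ((ρ * ((i : ℝ) / ((m : ℝ) + 1)) : ℝ) : ℂ)) hw
    (by
      intro i hi j hj hij
      have heq : (w₀ + ((ρ * ((i : ℝ) / ((m : ℝ) + 1)) : ℝ) : ℂ))
          - (w₀ + ((ρ * ((j : ℝ) / ((m : ℝ) + 1)) : ℝ) : ℂ))
          = ((1 / ((m : ℝ) + 1) * ρ * ((i : ℝ) - j) : ℝ) : ℂ) := by
        push_cast
        ring
      show 1 / ((m : ℝ) + 1) * ρ ≤ ‖(w₀ + ((ρ * ((i : ℝ) / ((m : ℝ) + 1)) : ℝ) : ℂ))
          - (w₀ + ((ρ * ((j : ℝ) / ((m : ℝ) + 1)) : ℝ) : ℂ))‖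
      rw [heq, Complex.norm_real, Real.norm_eq_abs, abs_mul, abs_of_nonneg (show 0 ≤ 1 / ((m : ℝ) + 1) * ρ by positivity)]
      have habs : (1 : ℝ) ≤ |(i : ℝ) - j| := by
        have h1 : (1 : ℤ) ≤ |(i : ℤ) - j| := by
          refine Int.one_le_abs ?_
          omega
        have h2 : ((|(i : ℤ) - j| : ℤ) : ℝ) = |(i : ℝ) - j| := by push_cast; rfl
        rw [← h2]
        exact_mod_cast h1
      exact le_mul_of_one_le_right (by positivity) habs)
    (fun i hi => hsm _ (hw i hi)) z hz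
  refine h.trans ?_
  rw [← hS]
  have h1 : (t₁ / 2) / (S + 1) * A * S ≤ (t₁ / 2) * A := by
    have : (t₁ / 2) / (S + 1) * A * S = (t₁ / 2) * A * (S / (S + 1)) := by
      field_simp
    rw [this]
    have h2 : S / (S + 1) ≤ 1 := by
      rw [div_le_one (by positivity)]; linarith
    exact mul_le_of_le_one_right (by positivity) h2
  have h3 : A * (3 / 4) ^ m ≤ A * (t₁ / 2) := mul_le_mul_of_nonneg_left hm.le hA
  linarith

/-- Propagation of smallness along a chain of `Q` discs. -/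
theorem chain_bound (Q : ℕ) (t₁ : ℝ) (ht₁ : 0 < t₁) : ∃ t₂ : ℝ, 0 < t₂ ∧
    ∀ (G : ℂ → ℂ) (ρ A : ℝ) (w : ℕ → ℂ), 0 < ρ → 0 ≤ A →
    (∀ j ≤ Q, DifferentiableOn ℂ G (Metric.ball (w j) (9 * ρ))) →
    (∀ j ≤ Q, ∀ z ∈ Metric.ball (w j) (9 * ρ), ‖G z‖ ≤ A) →
    (∀ j < Q, ‖w (j + 1) - w j‖ ≤ ρ) →
    (∀ z ∈ Metric.closedBall (w 0) ρ, ‖G z‖ ≤ t₂ * A) →
    ∀ z ∈ Metric.closedBall (w Q) ρ, ‖G z‖ ≤ t₁ * A := by
  induction Q generalizing t₁ with
  | zero =>
    refine ⟨t₁, ht₁, ?_⟩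
    intro G ρ A w hρ hA hd hb hstep hsm
    exact hsm
  | succ Q ih =>
    obtain ⟨t', ht', hprop⟩ := prop_step t₁ ht₁
    obtain ⟨t₂, ht₂, hih⟩ := ih t' ht'
    refine ⟨t₂, ht₂, ?_⟩
    intro G ρ A w hρ hA hd hb hstep hsm z hz
    have h1 := hih G ρ A w hρ hA (fun j hj => hd j (by omega)) (fun j hj => hb j (by omega))
      (fun j hj => hstep j (by omega)) hsm
    apply hprop G ρ A (w Q) hρ hA (hd Q (by omega)) (hb Q (by omega)) h1 z
    rw [Metric.mem_closedBall] at hz ⊢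
    have h2 := hstep Q (by omega)
    rw [← dist_eq_norm] at h2
    have h3 := dist_triangle z (w (Q + 1)) (w Q)
    linarith

end Pool.Agent.Helper95.Hada
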