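import Pool.Agent.Helper95.HadaCut
import Pool.Agent.Helper95.HadaNewton

open Filter Topology Set

namespace Pool.Agent.Helper95.Hada

/-! ===== helper lemmas for D ===== -/

section D
open MeasureTheory

lemma Ser.lam_mono' (S : Ser) : StrictMono S.lam := by
  refine strictMono_nat_of_lt_succ fun k => ?_
  have h1 := S.ratio k
  have h2 := S.lam_pos k
  have h3 := S.one_lt_q
  nlinarith

lemma Ser.lam_pow (S : Ser) (k j : ℕ) : S.q ^ j * S.lam k ≤ S.lam (k + j) := by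
  induction j with
  | zero => simp
  | succ j ih =>
    have h1 := S.ratio (k + j)
    have h3 := S.one_lt_q
    calc S.q ^ (j+1) * S.lam k = S.q * (S.q ^ j * S.lam k) := by ring
      _ ≤ S.q * S.lam (k + j) := mul_le_mul_of_nonneg_left ih (by linarith)
      _ ≤ _ := h1

lemma Ser.exists_index (S : Ser) (y : ℝ) :
    ∃ K, (∀ k < K, S.lam k ≤ y) ∧ (∀ k, K ≤ k → y < S.lam k) := by
  classical
  have hex : ∃ K, y < S.lam K := by
    obtain ⟨j, hj⟩ := pow_unbounded_of_one_lt (y / S.lam 0) S.one_lt_q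
    refine ⟨j, ?_⟩
    have h1 := S.lam_pow 0 j
    rw [zero_add] at h1
    rw [div_lt_iff₀ (S.lam_pos 0)] at hj
    linarith
  refine ⟨Nat.find hex, fun k hk => not_lt.mp (Nat.find_min hex hk), fun k hk => ?_⟩
  exact lt_of_lt_of_le (Nat.find_spec hex) (S.lam_mono'.monotone hk)

lemma Ser.sep (S : Ser) {j k : ℕ} (hjk : j ≠ k) :
    (1 - 1 / S.q) * S.lam k ≤ |S.lam j - S.lam k| := by
  have hq := S.one_lt_q
  have hq0 : 0 < S.q := by linarith
  have hk := S.lam_pos k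
  have hq1 : 1 / S.q * S.q = 1 := by field_simp
  rcases lt_or_gt_of_ne hjk with h | h
  · obtain ⟨k', rfl⟩ : ∃ k', k = k' + 1 := ⟨k - 1, by omega⟩
    have h1 := S.ratio k'
    have h2 : S.lam j ≤ S.lam k' := S.lam_mono'.monotone (by omega)
    have h3 : S.lam k' ≤ 1 / S.q * S.lam (k' + 1) := by
      rw [div_mul_eq_mul_div, one_mul, le_div_iff₀ hq0]
      linarith
    rw [abs_sub_comm]
    refine le_trans ?_ (le_abs_self _)
    nlinarith
  · have h1 := S.ratio k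
    have h2 : S.lam (k+1) ≤ S.lam j := S.lam_mono'.monotone (by omega)
    refine le_trans ?_ (le_abs_self _)
    have h3 : 1 - 1 / S.q ≤ S.q - 1 := by
      have : 0 < 1 / S.q := by positivity
      nlinarith [sq_nonneg (S.q - 1)]
    nlinarith

/-- the `j`-th twisted term -/
noncomputable def Ser.tw (S : Ser) (k : ℕ) (s : ℝ) (j : ℕ) (t : ℝ) : ℂ :=
  S.a j * Complex.exp (S.lam j * (⟨-s, t⟩ : ℂ)) * Complex.exp (-(S.lam k * t) * Complex.I)

lemma Ser.norm_tw (S : Ser) (k : ℕ) (s : ℝ) (j : ℕ) (t : ℝ) : ‖S.tw k s j t‖ = S.x j s := by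
  unfold Ser.tw Ser.x
  rw [norm_mul, norm_mul, Complex.norm_exp, Complex.norm_exp]
  have h1 : ((S.lam j : ℂ) * (⟨-s, t⟩ : ℂ)).re = -(S.lam j * s) := by
    simp
  have h2 : (-((S.lam k : ℂ) * (t:ℂ)) * Complex.I).re = 0 := by
    simp
  rw [h1, h2, Real.exp_zero, mul_one]

lemma mk_eq (s t : ℝ) : (⟨-s, t⟩ : ℂ) = -(s : ℂ) + t * Complex.I := by
  apply Complex.ext <;> simp

lemma Ser.tw_eq (S : Ser) (k : ℕ) (s : ℝ) (j : ℕ) (t : ℝ) :
    S.tw k s j t = S.a j * Complex.exp (-(S.lam j * s)) *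
      Complex.exp (((S.lam j - S.lam k : ℝ) * Complex.I) * t) := by
  unfold Ser.tw
  rw [mul_assoc, mul_assoc, ← Complex.exp_add, ← Complex.exp_add, mk_eq]
  congr 2
  push_cast
  ring

lemma Ser.continuous_tw (S : Ser) (k : ℕ) (s : ℝ) (j : ℕ) : Continuous (S.tw k s j) := by
  have : S.tw k s j = fun t : ℝ => S.a j * Complex.exp (-(S.lam j * s)) *
      Complex.exp (((S.lam j - S.lam k : ℝ) * Complex.I) * t) := by
    funext t; exact S.tw_eq k s j t
  rw [this]
  fun_prop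

lemma Ser.summable_xD (S : Ser) {s : ℝ} (hs : 0 < s) : Summable fun j => S.x j s := S.summ s hs

lemma Ser.hasSum_tw (S : Ser) (k : ℕ) {s : ℝ} (hs : 0 < s) (t : ℝ) :
    HasSum (fun j => S.tw k s j t) (S.F s t * Complex.exp (-(S.lam k * t) * Complex.I)) := by
  unfold Ser.F Ser.G Ser.tw
  refine HasSum.mul_right _ ?_
  refine Summable.hasSum ?_
  refine Summable.of_norm ?_
  refine (S.summable_xD hs).congr fun j => ?_
  rw [norm_mul, Complex.norm_exp]
  have h1 : ((S.lam j : ℂ) * (⟨-s, t⟩ : ℂ)).re = -(S.lam j * s) := by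
    simp
  rw [h1]
  rfl

lemma Ser.hasSum_int (S : Ser) (k : ℕ) {s : ℝ} (hs : 0 < s) (a b : ℝ) :
    HasSum (fun j => ∫ t in a..b, S.tw k s j t)
      (∫ t in a..b, S.F s t * Complex.exp (-(S.lam k * t) * Complex.I)) := by
  refine intervalIntegral.hasSum_integral_of_dominated_convergence (fun j _ => S.x j s) ?_ ?_ ?_ ?_ ?_
  · intro j
    exact (S.continuous_tw k s j).aestronglyMeasurable
  · intro j
    refine Eventually.of_forall fun t _ => ?_
    rw [S.norm_tw]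
  · exact Eventually.of_forall fun t _ => S.summable_xD hs
  · exact intervalIntegrable_const
  · exact Eventually.of_forall fun t _ => S.hasSum_tw k hs t

lemma Ser.int_self (S : Ser) (k : ℕ) (s a b : ℝ) :
    ‖∫ t in a..b, S.tw k s k t‖ = S.x k s * |b - a| := by
  have : ∀ t, S.tw k s k t = S.a k * Complex.exp (-(S.lam k * s)) := by
    intro t
    rw [S.tw_eq]
    simp
  simp_rw [this]
  rw [intervalIntegral.integral_const, norm_smul, Real.norm_eq_abs, mul_comm, norm_mul,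
    Complex.norm_exp]
  congr 1
  unfold Ser.x
  congr 2
  simp

lemma Ser.int_ne (S : Ser) {j k : ℕ} (hjk : j ≠ k) (s a b : ℝ) :
    ‖∫ t in a..b, S.tw k s j t‖ ≤ S.x j s * (2 / ((1 - 1 / S.q) * S.lam k)) := by
  simp_rw [S.tw_eq]
  rw [intervalIntegral.integral_const_mul, norm_mul, norm_mul, Complex.norm_exp]
  have hsig : 0 < 1 - 1 / S.q := by
    have hq := S.one_lt_q
    rw [sub_pos, div_lt_one (by linarith)]
    exact hq
  have hk := S.lam_pos k
  have hsep := S.sep hjk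
  have hpos : 0 < (1 - 1 / S.q) * S.lam k := by positivity
  have hne : S.lam j - S.lam k ≠ 0 := by
    intro h
    rw [h, abs_zero] at hsep
    linarith
  have hc : ((S.lam j - S.lam k : ℝ) : ℂ) * Complex.I ≠ 0 :=
    mul_ne_zero (by exact_mod_cast hne) Complex.I_ne_zero
  rw [integral_exp_mul_complex hc, norm_div]
  have h1 : ‖((S.lam j - S.lam k : ℝ) : ℂ) * Complex.I‖ = |S.lam j - S.lam k| := by
    rw [norm_mul, Complex.norm_I, mul_one, Complex.norm_real, Real.norm_eq_abs]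
  have h2 : ∀ c : ℝ, ‖Complex.exp (((S.lam j - S.lam k : ℝ) : ℂ) * Complex.I * c)‖ = 1 := by
    intro c
    rw [Complex.norm_exp]
    simp
  have h3 : (-((S.lam j : ℂ) * (s : ℂ))).re = -(S.lam j * s) := by simp
  rw [h1, h3]
  unfold Ser.x
  refine mul_le_mul_of_nonneg_left ?_ (by positivity)
  refine div_le_div₀ (by norm_num) ?_ hpos hsep
  refine le_trans (norm_sub_le _ _) ?_
  rw [h2, h2]
  norm_num

/-- the average test -/
lemma Ser.average (S : Ser) (k : ℕ) {s : ℝ} (hs : 0 < s) (c l t₀ : ℝ) (hl : 0 < l)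
    (hx : c ≤ S.x k s) (hlk : S.M s * (2 / ((1 - 1 / S.q) * S.lam k)) ≤ l * c) (hc : 0 < c) :
    ∃ t : ℝ, |t - t₀| ≤ l ∧ c / 4 ≤ ‖S.F s t‖ := by
  by_contra hcon
  push Not at hcon
  have h1 := S.hasSum_int k hs (t₀ - l) (t₀ + l)
  have h2 := hasSum_ite_sub_hasSum h1 k
  have h3 : HasSum (fun j => S.x j s * (2 / ((1 - 1 / S.q) * S.lam k)))
      (S.M s * (2 / ((1 - 1 / S.q) * S.lam k))) :=
    (S.summable_xD hs).hasSum.mul_right _
  have hsig : 0 < 1 - 1 / S.q := by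
    have hq := S.one_lt_q
    rw [sub_pos, div_lt_one (by linarith)]
    exact hq
  have hk := S.lam_pos k
  have h4 := HasSum.norm_le_of_bounded h2 h3 (by
    intro j
    by_cases hj : j = k
    · rw [if_pos hj, norm_zero]
      exact mul_nonneg (S.x_nonneg j s) (by positivity)
    · rw [if_neg hj]
      exact S.int_ne hj s _ _)
  have h5 : ‖∫ t in (t₀ - l)..(t₀ + l), S.F s t * Complex.exp (-(S.lam k * t) * Complex.I)‖ ≤
      c / 4 * |(t₀ + l) - (t₀ - l)| := by
    refine intervalIntegral.norm_integral_le_of_norm_le_const fun t ht => ?_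
    rw [uIoc_of_le (by linarith)] at ht
    rw [norm_mul, Complex.norm_exp]
    have h6 : (-((S.lam k : ℂ) * (t:ℂ)) * Complex.I).re = 0 := by
      simp
    rw [h6, Real.exp_zero, mul_one]
    refine (hcon t ?_).le
    rw [abs_le]
    constructor <;> linarith [ht.1, ht.2]
  have h7 := S.int_self k s (t₀ - l) (t₀ + l)
  have h8 : |(t₀ + l) - (t₀ - l)| = 2 * l := by
    rw [abs_of_pos (by linarith)]
    ring
  rw [h8] at h5 h7
  have h9 := norm_sub_norm_le (∫ t in (t₀ - l)..(t₀ + l), S.tw k s k t)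
    (∫ t in (t₀ - l)..(t₀ + l), S.F s t * Complex.exp (-(S.lam k * t) * Complex.I))
  rw [norm_sub_rev] at h4
  rw [h7] at h9
  have h10 : c * (2 * l) ≤ S.x k s * (2 * l) := mul_le_mul_of_nonneg_right hx (by linarith)
  have h11 : 0 < l * c := by positivity
  nlinarith

end D

/-! ===== TARGETS (prove these) ===== -/

/-! D: non-degeneracy -/
theorem nondeg (q d Kb : ℝ) (hq : 1 < q) (hd : 0 < d) (hKb : 1 < Kb) :
    ∃ C c₅ : ℝ, 0 < C ∧ 0 < c₅ ∧ ∀ (S : Ser), S.q = q → ∀ (L : Lev S d) (n : ℕ),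
      L.η n ≤ Kb * L.η (n + 1) → ∀ θ₀ : ℝ, ∃ θ : ℝ, |θ - θ₀| ≤ C * L.η (n + 1) ∧
        c₅ * (1 + d) ^ (n + 1) ≤ ‖S.F (L.s (n + 1)) θ‖ := by
  set D : ℝ := 1 + d with hD
  have hD1 : 1 < D := by linarith
  have hD0 : 0 < D := by linarith
  set CY : ℝ := 4 * D ^ 2 / d with hCY
  have hCY0 : 0 < CY := by positivity
  obtain ⟨N3, hN3⟩ := pow_unbounded_of_one_lt (2 * D * CY * Kb / d) hq
  set c4 : ℝ := d / (4 * D * (N3 + 1)) with hc4
  have hc40 : 0 < c4 := by positivity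
  set sig : ℝ := 1 - 1 / q with hsig
  have hsig0 : 0 < sig := by
    rw [hsig, sub_pos, div_lt_one (by linarith)]
    exact hq
  refine ⟨4 * D * Kb / (c4 * sig * d), c4 / 4, by positivity, by positivity, ?_⟩
  intro S hSq L n hbal θ₀
  have he0 := L.η_pos n
  have he20 := L.η_pos (n + 1)
  set e := L.η n with he
  set e2 := L.η (n + 1) with he2
  have hs := L.s_pos (n + 1)
  have hMs := L.hM (n + 1)
  rw [← hD] at hMs
  have hM0 : 0 < D ^ (n + 1) := by positivity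
  set y : ℝ := d / (2 * D * e) with hy
  have hy0 : 0 < y := by positivity
  set Y : ℝ := CY / e2 with hY
  have hY0 : 0 < Y := by positivity
  obtain ⟨K1, hK1, hK1'⟩ := S.exists_index y
  obtain ⟨K2, hK2, hK2'⟩ := S.exists_index Y
  have hlow := L.notlow n K1 y hy0.le hK1
  have hhigh := L.high (n + 1) K2 Y (fun k hk => (hK2' k hk).le)
  rw [← hD, ← he, hMs] at hlow
  rw [← hD, ← he2, hMs] at hhigh
  have hlow2 : d / (2 * D) * D ^ (n + 1) ≤ D ^ (n + 1) - S.m K1 (L.s (n + 1)) := by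
    refine le_trans (le_of_eq ?_) hlow
    rw [hy]
    field_simp
    ring
  have hhigh2 : D ^ (n + 1) - S.m K2 (L.s (n + 1)) ≤ d / (4 * D) * D ^ (n + 1) := by
    refine le_trans hhigh ?_
    have h1 : Y * e2 = CY := by rw [hY]; field_simp
    rw [h1]
    have h2 : Real.exp (-CY) ≤ 1 / CY := by
      rw [Real.exp_neg, ← one_div]
      refine one_div_le_one_div_of_le hCY0 ?_
      linarith [Real.add_one_le_exp CY]
    calc Real.exp (-CY) * D ^ (n + 1 + 1) ≤ 1 / CY * D ^ (n + 1 + 1) :=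
          mul_le_mul_of_nonneg_right h2 (by positivity)
      _ = d / (4 * D) * D ^ (n + 1) := by
          rw [hCY]
          field_simp
          ring
  have hdiff : d / (4 * D) * D ^ (n + 1) ≤ S.m K2 (L.s (n + 1)) - S.m K1 (L.s (n + 1)) := by
    have : d / (2 * D) * D ^ (n + 1) = 2 * (d / (4 * D) * D ^ (n + 1)) := by
      field_simp
      ring
    linarith
  have hdpos : 0 < d / (4 * D) * D ^ (n + 1) := by positivity
  have hK12 : K1 < K2 := by
    by_contra hcon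
    push Not at hcon
    have : S.m K2 (L.s (n + 1)) ≤ S.m K1 (L.s (n + 1)) := by
      unfold Ser.m
      exact Finset.sum_le_sum_of_subset_of_nonneg (Finset.range_mono hcon)
        (fun i _ _ => S.x_nonneg i _)
    linarith
  have hcard : K2 - K1 ≤ N3 := by
    by_contra hcon
    push Not at hcon
    have h1 := S.lam_pow K1 (K2 - K1 - 1)
    have h2 : K1 + (K2 - K1 - 1) = K2 - 1 := by omega
    rw [h2, hSq] at h1
    have h3 := hK2 (K2 - 1) (by omega)
    have h4 := hK1' K1 le_rfl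
    have h5 : q ^ N3 ≤ q ^ (K2 - K1 - 1) := pow_le_pow_right₀ hq.le (by omega)
    have h6 : q ^ N3 * y ≤ Y := by
      have h7 : q ^ N3 * y ≤ q ^ (K2 - K1 - 1) * S.lam K1 :=
        mul_le_mul h5 h4.le hy0.le (by positivity)
      linarith
    have h8 : Y ≤ 2 * D * CY * Kb / d * y := by
      rw [hY, hy, div_mul_div_comm, div_le_div_iff₀ he20 (by positivity)]
      have : CY * (d * (2 * D * e)) ≤ CY * (d * (2 * D * (Kb * e2))) := by
        gcongr
      calc CY * (d * (2 * D * e)) ≤ CY * (d * (2 * D * (Kb * e2))) := this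
        _ = 2 * D * CY * Kb * d * e2 := by ring
    have h9 : 2 * D * CY * Kb / d * y < q ^ N3 * y := mul_lt_mul_of_pos_right hN3 hy0
    linarith
  have hsum : S.m K2 (L.s (n + 1)) - S.m K1 (L.s (n + 1)) =
      ∑ k ∈ Finset.Ico K1 K2, S.x k (L.s (n + 1)) := by
    unfold Ser.m
    rw [Finset.sum_Ico_eq_sub _ hK12.le]
  obtain ⟨k, hk, hkx⟩ : ∃ k ∈ Finset.Ico K1 K2, c4 * D ^ (n + 1) ≤ S.x k (L.s (n + 1)) := by
    by_contra hcon
    push Not at hcon
    have h1 : ∑ k ∈ Finset.Ico K1 K2, S.x k (L.s (n + 1)) ≤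
        ∑ k ∈ Finset.Ico K1 K2, c4 * D ^ (n + 1) :=
      Finset.sum_le_sum fun k hk => (hcon k hk).le
    rw [Finset.sum_const, Nat.card_Ico, nsmul_eq_mul] at h1
    have h2 : ((K2 - K1 : ℕ) : ℝ) ≤ N3 := by exact_mod_cast hcard
    have h3 : ((K2 - K1 : ℕ) : ℝ) * (c4 * D ^ (n + 1)) ≤ N3 * (c4 * D ^ (n + 1)) :=
      mul_le_mul_of_nonneg_right h2 (by positivity)
    have h4 : (N3 + 1) * (c4 * D ^ (n + 1)) = d / (4 * D) * D ^ (n + 1) := by
      rw [hc4]
      field_simp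
    have h5 : 0 < c4 * D ^ (n + 1) := by positivity
    linarith
  rw [Finset.mem_Ico] at hk
  have hlk := hK1' k hk.1
  obtain ⟨t, ht, htF⟩ := S.average k hs (c4 * D ^ (n + 1)) (2 / (c4 * sig * y)) θ₀ (by positivity)
    hkx (by
      rw [hMs, hSq, ← hsig]
      have h1 : 2 / (sig * S.lam k) ≤ 2 / (sig * y) := by
        refine div_le_div_of_nonneg_left (by norm_num) (by positivity) ?_
        exact mul_le_mul_of_nonneg_left hlk.le hsig0.le
      calc D ^ (n + 1) * (2 / (sig * S.lam k)) ≤ D ^ (n + 1) * (2 / (sig * y)) :=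
            mul_le_mul_of_nonneg_left h1 hM0.le
        _ = 2 / (c4 * sig * y) * (c4 * D ^ (n + 1)) := by
            field_simp) (by positivity)
  refine ⟨t, le_trans ht ?_, ?_⟩
  · rw [hy]
    calc 2 / (c4 * sig * (d / (2 * D * e))) = 4 * D / (c4 * sig * d) * e := by
          field_simp
          ring
      _ ≤ 4 * D / (c4 * sig * d) * (Kb * e2) := mul_le_mul_of_nonneg_left hbal (by positivity)
      _ = 4 * D * Kb / (c4 * sig * d) * e2 := by ring
  · refine le_trans (le_of_eq ?_) htF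
    ring

/-! ===== TARGETS (prove these) ===== -/

theorem cover_aux (Bad : Set ℝ) (δ : ℝ) (m : ℕ) :
    (∃ t : ℕ → ℝ, (∀ i < m, t i ∈ Bad) ∧ ∀ i < m, ∀ j < m, i ≠ j → δ ≤ |t i - t j|) ∨
    ∃ B : Finset ℝ, B.card ≤ m ∧ (∀ b ∈ B, b ∈ Bad) ∧ ∀ x ∈ Bad, ∃ b ∈ B, |x - b| < δ := by
  induction m with
  | zero =>
    left
    exact ⟨fun _ => 0, fun i hi => absurd hi (Nat.not_lt_zero i),
      fun i hi => absurd hi (Nat.not_lt_zero i)⟩
  | succ k ih =>
    rcases ih with ⟨t, ht, hsep⟩ | ⟨B, hB1, hB2, hB3⟩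
    · by_cases hx : ∃ x ∈ Bad, ∀ i < k, δ ≤ |x - t i|
      · obtain ⟨x, hxB, hx⟩ := hx
        left
        refine ⟨Function.update t k x, ?_, ?_⟩
        · intro i hi
          rcases Nat.lt_succ_iff_lt_or_eq.mp hi with h | h
          · rw [Function.update_of_ne (by omega)]
            exact ht i h
          · subst h
            rw [Function.update_self]
            exact hxB
        · intro i hi j hj hij
          rcases Nat.lt_succ_iff_lt_or_eq.mp hi with h | h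
          · rw [Function.update_of_ne (a := i) (by omega)]
            rcases Nat.lt_succ_iff_lt_or_eq.mp hj with h' | h'
            · rw [Function.update_of_ne (by omega)]
              exact hsep i h j h' hij
            · subst h'
              rw [Function.update_self, abs_sub_comm]
              exact hx i h
          · subst h
            rw [Function.update_self]
            rcases Nat.lt_succ_iff_lt_or_eq.mp hj with h' | h'
            · rw [Function.update_of_ne (by omega)]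
              exact hx j h'
            · exact absurd h'.symm hij
      · right
        refine ⟨(Finset.range k).image t, ?_, ?_, ?_⟩
        · calc ((Finset.range k).image t).card ≤ (Finset.range k).card := Finset.card_image_le
            _ = k := Finset.card_range k
            _ ≤ k + 1 := Nat.le_succ k
        · intro b hb
          obtain ⟨i, hi, rfl⟩ := Finset.mem_image.mp hb
          exact ht i (Finset.mem_range.mp hi)
        · intro x hxB
          by_contra hcon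
          apply hx
          refine ⟨x, hxB, fun i hi => ?_⟩
          by_contra hlt
          apply hcon
          exact ⟨t i, Finset.mem_image_of_mem t (Finset.mem_range.mpr hi), not_le.mp hlt⟩
    · right
      exact ⟨B, hB1.trans (Nat.le_succ k), hB2, hB3⟩

theorem geom_aux (m : ℕ) (x : ℝ) (hx : 2 ≤ x) : ∑ j ∈ Finset.range m, x ^ j ≤ x ^ m := by
  induction m with
  | zero => simp
  | succ k ih =>
    rw [Finset.sum_range_succ, pow_succ]
    have : 0 < x ^ k := by positivity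
    nlinarith

theorem M_anti_aux (S : Ser) {s s' : ℝ} (hs : 0 < s) (h : s ≤ s') : S.M s' ≤ S.M s := by
  have := S.tail_anti 0 hs h
  simpa [Ser.m] using this

/-- the bound and differentiability on discs of radius `η (n+2)` centred left of `-s (n+2)` -/
theorem ball_aux (S : Ser) (d : ℝ) (L : Lev S d) (n : ℕ) (w : ℂ) (hw : L.s (n + 2) ≤ -w.re) :
    DifferentiableOn ℂ S.G (Metric.ball w (L.η (n + 2))) ∧
    ∀ z ∈ Metric.ball w (L.η (n + 2)), ‖S.G z‖ ≤ (1 + d) ^ (n + 3) := by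
  have hkey : ∀ z ∈ Metric.ball w (L.η (n + 2)), L.s (n + 3) < -z.re := by
    intro z hz
    have h1 : ‖z - w‖ < L.η (n + 2) := by
      rw [← dist_eq_norm]; exact hz
    have h2 : |(z - w).re| ≤ ‖z - w‖ := Complex.abs_re_le_norm _
    have h3 := (abs_lt.mp (lt_of_le_of_lt h2 h1)).2
    simp only [Complex.sub_re] at h3
    unfold Lev.η at h3
    have h4 : L.s (n + 2 + 1) = L.s (n + 3) := rfl
    rw [h4] at h3
    linarith
  constructor
  · apply S.differentiableOn_G.mono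
    intro z hz
    have := hkey z hz
    have h0 := L.s_pos (n + 3)
    show z.re < 0
    linarith
  · intro z hz
    have := hkey z hz
    have h0 := L.s_pos (n + 3)
    calc ‖S.G z‖ ≤ S.M (-z.re) := S.norm_G_le (by linarith)
      _ ≤ S.M (L.s (n + 3)) := M_anti_aux S h0 this.le
      _ = (1 + d) ^ (n + 3) := L.hM (n + 3)

/-! E: avoidance -/
theorem avoid (q d Kb : ℝ) (hq : 1 < q) (hd : 0 < d) (hKb : 1 < Kb) :
    ∃ (m L₀ : ℕ) (t₀ : ℝ), 0 < m ∧ 0 < t₀ ∧ ∀ (S : Ser), S.q = q → ∀ (L : Lev S d) (n : ℕ),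
      L.η n ≤ Kb * L.η (n + 1) → L.η (n + 1) ≤ Kb * L.η (n + 2) →
      ∀ (τ g : ℝ), 0 < τ → τ ≤ 1 →
      ∃ B : Finset ℝ, B.card ≤ L₀ ∧ (∀ b ∈ B, b ∈ Icc g (g + L.η (n + 2) / 9)) ∧
        ∀ θ ∈ Icc g (g + L.η (n + 2) / 9), (∀ b ∈ B, τ * (L.η (n + 2) / 9) < |θ - b|) →
          ∀ s ∈ Icc (L.s (n + 2)) (L.s (n + 1)), t₀ * τ ^ m * (1 + d) ^ (n + 1) ≤ ‖S.F s θ‖ := by
  obtain ⟨C, c₅, hC, hc₅, hnd⟩ := nondeg q d Kb hq hd hKb
  have hD : 0 < 1 + d := by linarith
  set t₁ : ℝ := c₅ / (2 * (1 + d) ^ 2) with ht₁def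
  have ht₁ : 0 < t₁ := by positivity
  set Q : ℕ := ⌈9 * Kb⌉₊ + ⌈9 * C * Kb⌉₊ + 10 with hQdef
  obtain ⟨t₂, ht₂, hchain⟩ := chain_bound Q t₁ ht₁
  obtain ⟨m', hm'⟩ := exists_pow_lt_of_lt_one (show (0 : ℝ) < t₂ / 2 by positivity)
    (show (3 / 4 : ℝ) < 1 by norm_num)
  set m : ℕ := m' + 1 with hmdef
  have hm34 : (3 / 4 : ℝ) ^ m ≤ t₂ / 2 := by
    calc (3 / 4 : ℝ) ^ m ≤ (3 / 4 : ℝ) ^ m' :=
          pow_le_pow_of_le_one (by norm_num) (by norm_num) (Nat.le_succ m')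
      _ ≤ t₂ / 2 := hm'.le
  set t₀ : ℝ := t₂ * (1 + d) ^ 2 / (2 * 6 ^ m) with ht₀def
  have ht₀ : 0 < t₀ := by positivity
  set J : ℕ := ⌈9 * Kb⌉₊ + 1 with hJdef
  refine ⟨m, (J + 1) * m, t₀, Nat.succ_pos m', ht₀, ?_⟩
  intro S hS L n h1 h2 τ g hτ hτ1
  obtain ⟨θs, hθs1, hθs2⟩ := hnd S hS L n h1 g
  have hη : 0 < L.η (n + 2) := L.η_pos (n + 2)
  have hη1 : 0 < L.η (n + 1) := L.η_pos (n + 1)
  set ρ : ℝ := L.η (n + 2) / 9 with hρdef
  have hρ : 0 < ρ := by positivity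
  have h9ρ : 9 * ρ = L.η (n + 2) := by rw [hρdef]; ring
  have hη1' : L.η (n + 1) = L.s (n + 1) - L.s (n + 2) := rfl
  have hs12 : L.s (n + 1) - L.s (n + 2) ≤ 9 * Kb * ρ := by
    rw [← hη1']
    calc L.η (n + 1) ≤ Kb * L.η (n + 2) := h2
      _ = 9 * Kb * ρ := by rw [← h9ρ]; ring
  have hs12' : 0 < L.s (n + 1) - L.s (n + 2) := by rw [← hη1']; exact hη1
  set R : ℝ := t₀ * τ ^ m * (1 + d) ^ (n + 1) with hRdef
  have hR : 0 < R := by positivity
  set A : ℝ := (1 + d) ^ (n + 3) with hAdef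
  have hA : 0 < A := by positivity
  have hceil1 : 9 * Kb ≤ (⌈9 * Kb⌉₊ : ℝ) := Nat.le_ceil _
  have hceil2 : 9 * C * Kb ≤ (⌈9 * C * Kb⌉₊ : ℝ) := Nat.le_ceil _
  -- the bad sets
  set Bad : ℕ → Set ℝ := fun j => {t | t ∈ Icc g (g + ρ) ∧ ∃ s ∈ Icc (L.s (n + 2)) (L.s (n + 1)),
    L.s (n + 2) + j * ρ ≤ s ∧ s ≤ L.s (n + 2) + (j + 1) * ρ ∧ ‖S.F s t‖ < R} with hBaddef
  have hno : ∀ j ≤ J, ¬ ∃ t : ℕ → ℝ, (∀ i < m, t i ∈ Bad j) ∧
      ∀ i < m, ∀ k < m, i ≠ k → τ * ρ ≤ |t i - t k| := by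
    rintro j hj ⟨t, ht, hsep⟩
    have hchoice : ∀ i, ∃ s : ℝ, i < m → (s ∈ Icc (L.s (n + 2)) (L.s (n + 1)) ∧
        L.s (n + 2) + j * ρ ≤ s ∧ s ≤ L.s (n + 2) + (j + 1) * ρ ∧ ‖S.F s (t i)‖ < R) := by
      intro i
      by_cases hi : i < m
      · obtain ⟨_, s, hs, hs'⟩ := ht i hi
        exact ⟨s, fun _ => ⟨hs, hs'⟩⟩
      · exact ⟨0, fun h => absurd h hi⟩
    choose σ hσ using hchoice
    set w₀ : ℂ := ⟨-(L.s (n + 2) + j * ρ + ρ / 2), g + ρ / 2⟩ with hw₀
    set w : ℕ → ℂ := fun i => ⟨-(σ i), t i⟩ with hw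
    have hjρ : 0 ≤ (j : ℝ) * ρ := by positivity
    have hJj : (j : ℝ) ≤ (⌈9 * Kb⌉₊ : ℝ) + 1 := by
      have : (j : ℝ) ≤ (J : ℝ) := by exact_mod_cast hj
      rw [hJdef] at this
      push_cast at this
      exact this
    have hball0 := ball_aux S d L n w₀ (by rw [hw₀]; simp; linarith)
    rw [← h9ρ] at hball0
    have hnewt := newton_bound m S.G w₀ ρ τ R A hρ hτ hR.le hA.le hball0.1 hball0.2 w
      (by
        intro i hi
        have hi1 := (ht i hi).1
        obtain ⟨_, hσ1, hσ2, _⟩ := hσ i hi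
        rw [Metric.mem_closedBall, dist_eq_norm]
        refine (Complex.norm_le_abs_re_add_abs_im _).trans ?_
        have e1 : |(w i - w₀).re| ≤ ρ / 2 := by
          simp only [hw, hw₀, Complex.sub_re]
          rw [abs_le]
          constructor <;> linarith
        have e2 : |(w i - w₀).im| ≤ ρ / 2 := by
          simp only [hw, hw₀, Complex.sub_im]
          rw [abs_le]
          obtain ⟨ha, hb⟩ := hi1
          constructor <;> linarith
        linarith)
      (by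
        intro i hi k hk hik
        refine (hsep i hi k hk hik).trans ?_
        have := Complex.abs_im_le_norm (w i - w k)
        simpa [hw] using this)
      (by
        intro i hi
        exact (hσ i hi).2.2.2.le)
    have hgeo : R * (∑ j ∈ Finset.range m, (6 / τ) ^ j) + A * (3 / 4) ^ m ≤ t₂ * A := by
      have hx : 2 ≤ 6 / τ := by
        rw [le_div_iff₀ hτ]; linarith
      have g1 := geom_aux m (6 / τ) hx
      have g2 : R * (∑ j ∈ Finset.range m, (6 / τ) ^ j) ≤ t₂ / 2 * A := by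
        calc R * (∑ j ∈ Finset.range m, (6 / τ) ^ j) ≤ R * (6 / τ) ^ m :=
              mul_le_mul_of_nonneg_left g1 hR.le
          _ = t₂ / 2 * A := by
              rw [hRdef, ht₀def, hAdef, div_pow]
              have h6 : (6 : ℝ) ^ m ≠ 0 := by positivity
              have hτm : τ ^ m ≠ 0 := by positivity
              field_simp
              ring
      have g3 : A * (3 / 4) ^ m ≤ A * (t₂ / 2) := mul_le_mul_of_nonneg_left hm34 hA.le
      linarith
    -- the chain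
    set tgt : ℂ := ⟨-(L.s (n + 1)), θs⟩ with htgt
    have hQpos : (0 : ℝ) < (Q : ℝ) := by
      rw [hQdef]; positivity
    set v : ℕ → ℂ := fun k => w₀ + (((k : ℝ) / (Q : ℝ) : ℝ) : ℂ) * (tgt - w₀) with hv
    have hvball : ∀ k ≤ Q, L.s (n + 2) ≤ -(v k).re := by
      intro k hk
      have hk' : (k : ℝ) ≤ (Q : ℝ) := by exact_mod_cast hk
      have hl0 : 0 ≤ (k : ℝ) / (Q : ℝ) := by positivity
      have hl1 : (k : ℝ) / (Q : ℝ) ≤ 1 := by
        rw [div_le_one hQpos]; exact hk'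
      have hre : -(v k).re = (1 - (k : ℝ) / (Q : ℝ)) * (L.s (n + 2) + j * ρ + ρ / 2)
          + (k : ℝ) / (Q : ℝ) * L.s (n + 1) := by
        simp only [hv, hw₀, htgt, Complex.add_re, Complex.mul_re, Complex.sub_re,
          Complex.ofReal_re, Complex.ofReal_im, Complex.sub_im]
        ring
      rw [hre]
      nlinarith
    have hdist : ‖tgt - w₀‖ ≤ Q * ρ := by
      refine (Complex.norm_le_abs_re_add_abs_im _).trans ?_
      have e1 : |(tgt - w₀).re| ≤ ((⌈9 * Kb⌉₊ : ℝ) + 2) * ρ := by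
        simp only [htgt, hw₀, Complex.sub_re]
        rw [abs_le]
        constructor
        · have : 9 * Kb * ρ ≤ (⌈9 * Kb⌉₊ : ℝ) * ρ := mul_le_mul_of_nonneg_right hceil1 hρ.le
          have h00 : 0 ≤ (⌈9 * Kb⌉₊ : ℝ) * ρ := by positivity
          linarith
        · have : (j : ℝ) * ρ ≤ ((⌈9 * Kb⌉₊ : ℝ) + 1) * ρ := mul_le_mul_of_nonneg_right hJj hρ.le
          linarith
      have e2 : |(tgt - w₀).im| ≤ ((⌈9 * C * Kb⌉₊ : ℝ) + 1) * ρ := by
        simp only [htgt, hw₀, Complex.sub_im]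
        have hb : |θs - g| ≤ (⌈9 * C * Kb⌉₊ : ℝ) * ρ := by
          calc |θs - g| ≤ C * L.η (n + 1) := hθs1
            _ ≤ C * (9 * Kb * ρ) := by
                apply mul_le_mul_of_nonneg_left _ hC.le
                rw [hη1']; exact hs12
            _ = 9 * C * Kb * ρ := by ring
            _ ≤ (⌈9 * C * Kb⌉₊ : ℝ) * ρ := mul_le_mul_of_nonneg_right hceil2 hρ.le
        rw [abs_le] at hb ⊢
        constructor <;> linarith [hb.1, hb.2]
      have hQr : (Q : ℝ) = (⌈9 * Kb⌉₊ : ℝ) + (⌈9 * C * Kb⌉₊ : ℝ) + 10 := by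
        rw [hQdef]; push_cast; ring
      rw [hQr]
      linarith
    have hstep : ∀ k < Q, ‖v (k + 1) - v k‖ ≤ ρ := by
      intro k hk
      have : v (k + 1) - v k = (((1 : ℝ) / (Q : ℝ) : ℝ) : ℂ) * (tgt - w₀) := by
        simp only [hv]
        push_cast
        ring
      rw [this, norm_mul, Complex.norm_real, Real.norm_of_nonneg (by positivity)]
      calc 1 / (Q : ℝ) * ‖tgt - w₀‖ ≤ 1 / (Q : ℝ) * (Q * ρ) :=
            mul_le_mul_of_nonneg_left hdist (by positivity)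
        _ = ρ := by field_simp
    have hv0 : v 0 = w₀ := by simp [hv]
    have hvQ : v Q = tgt := by
      simp only [hv]
      rw [div_self hQpos.ne']
      simp
    have hfin := hchain S.G ρ A v hρ hA.le
      (by
        intro k hk
        have := ball_aux S d L n (v k) (hvball k hk)
        rw [← h9ρ] at this
        exact this.1)
      (by
        intro k hk
        have := ball_aux S d L n (v k) (hvball k hk)
        rw [← h9ρ] at this
        exact this.2)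
      hstep
      (by
        intro z hz
        rw [hv0] at hz
        have hz' : z ∈ Metric.closedBall w₀ (2 * ρ) :=
          Metric.closedBall_subset_closedBall (by linarith) hz
        exact (hnewt z hz').trans hgeo)
      tgt
      (by rw [hvQ]; exact Metric.mem_closedBall_self hρ.le)
    have hF : S.F (L.s (n + 1)) θs = S.G tgt := by
      simp only [Ser.F, htgt]
    rw [hF] at hθs2
    have ht1A : t₁ * A = c₅ * (1 + d) ^ (n + 1) / 2 := by
      rw [ht₁def, hAdef]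
      field_simp
      ring
    rw [ht1A] at hfin
    have : 0 < c₅ * (1 + d) ^ (n + 1) := by positivity
    linarith
  have hcov : ∀ j, ∃ B : Finset ℝ, j ≤ J → (B.card ≤ m ∧ (∀ b ∈ B, b ∈ Bad j) ∧
      ∀ x ∈ Bad j, ∃ b ∈ B, |x - b| < τ * ρ) := by
    intro j
    by_cases hj : j ≤ J
    · rcases cover_aux (Bad j) (τ * ρ) m with h | ⟨B, hB⟩
      · exact absurd h (hno j hj)
      · exact ⟨B, fun _ => hB⟩
    · exact ⟨∅, fun h => absurd h hj⟩
  choose B hB using hcov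
  refine ⟨(Finset.range (J + 1)).biUnion B, ?_, ?_, ?_⟩
  · calc ((Finset.range (J + 1)).biUnion B).card
        ≤ ∑ j ∈ Finset.range (J + 1), (B j).card := Finset.card_biUnion_le
      _ ≤ ∑ j ∈ Finset.range (J + 1), m :=
          Finset.sum_le_sum (fun j hj => (hB j (Nat.lt_succ_iff.mp (Finset.mem_range.mp hj))).1)
      _ = (J + 1) * m := by rw [Finset.sum_const, Finset.card_range, smul_eq_mul]
  · intro b hb
    obtain ⟨j, hj, hbj⟩ := Finset.mem_biUnion.mp hb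
    exact ((hB j (Nat.lt_succ_iff.mp (Finset.mem_range.mp hj))).2.1 b hbj).1
  · intro θ hθ hfar s hs
    by_contra hlt
    push Not at hlt
    set j : ℕ := ⌊(s - L.s (n + 2)) / ρ⌋₊ with hjdef
    have hsnn : 0 ≤ (s - L.s (n + 2)) / ρ := by
      apply div_nonneg _ hρ.le
      linarith [hs.1]
    have hj1 : (j : ℝ) ≤ (s - L.s (n + 2)) / ρ := Nat.floor_le hsnn
    have hj2 : (s - L.s (n + 2)) / ρ < (j : ℝ) + 1 := Nat.lt_floor_add_one _
    have hj1' : (j : ℝ) * ρ ≤ s - L.s (n + 2) := by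
      rw [le_div_iff₀ hρ] at hj1; exact hj1
    have hj2' : s - L.s (n + 2) < ((j : ℝ) + 1) * ρ := by
      rw [div_lt_iff₀ hρ] at hj2; exact hj2
    have hjJ : j ≤ J := by
      have h3 : (s - L.s (n + 2)) / ρ ≤ (⌈9 * Kb⌉₊ : ℝ) := by
        rw [div_le_iff₀ hρ]
        have : 9 * Kb * ρ ≤ (⌈9 * Kb⌉₊ : ℝ) * ρ := mul_le_mul_of_nonneg_right hceil1 hρ.le
        linarith [hs.2]
      have h4 : (j : ℝ) ≤ (⌈9 * Kb⌉₊ : ℝ) := hj1.trans h3
      have h5 : j ≤ ⌈9 * Kb⌉₊ := by exact_mod_cast h4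
      omega
    have hmem : θ ∈ Bad j := by
      refine ⟨hθ, s, hs, by linarith, by linarith, hlt⟩
    obtain ⟨b, hb, hbd⟩ := (hB j hjJ).2.2 θ hmem
    have := hfar b (Finset.mem_biUnion.mpr ⟨j, Finset.mem_range.mpr (Nat.lt_succ_of_le hjJ), hb⟩)
    linarith

/-! ===== TARGETS (prove these) ===== -/

/-- global form of the avoidance lemma -/
theorem avoid_global (q d Kb : ℝ) (hq : 1 < q) (hd : 0 < d) (hKb : 1 < Kb) :
    ∃ (m Lm : ℕ) (t₀ : ℝ), 0 < m ∧ 0 < t₀ ∧ ∀ (S : Ser), S.q = q → ∀ (L : Lev S d) (n : ℕ),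
      L.η n ≤ Kb * L.η (n + 1) → L.η (n + 1) ≤ Kb * L.η (n + 2) →
      ∀ (τ Θ : ℝ), 0 < τ → τ ≤ 1 → 0 < Θ →
      ∃ B : Finset ℝ, (∀ y : ℝ, (B.filter (fun b => |b - y| ≤ (L.η (n + 2) / 9) / 2)).card ≤ Lm) ∧
        (B.card : ℝ) * (L.η (n + 2) / 9) ≤ Lm * (Θ + L.η (n + 2)) ∧
        ∀ θ ∈ Icc (-Θ) Θ, (∀ b ∈ B, τ * (L.η (n + 2) / 9) < |θ - b|) →
          ∀ s ∈ Icc (L.s (n + 2)) (L.s (n + 1)), t₀ * τ ^ m * (1 + d) ^ (n + 1) ≤ ‖S.F s θ‖ := by
  classical
  obtain ⟨m, L₀, t₀, hm, ht₀, H⟩ := avoid q d Kb hq hd hKb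
  refine ⟨m, 3 * L₀, t₀, hm, ht₀, ?_⟩
  intro S hS L n h1 h2 τ Θ hτ hτ1 hΘ
  have hη := L.η_pos (n + 2)
  set ρ : ℝ := L.η (n + 2) / 9 with hρ
  have hρ0 : 0 < ρ := by positivity
  have hρη : ρ ≤ L.η (n + 2) := by rw [hρ]; linarith
  have hcell : ∀ j : ℤ, ∃ B : Finset ℝ, B.card ≤ L₀ ∧ (∀ b ∈ B, b ∈ Icc (j * ρ) (j * ρ + ρ)) ∧
        ∀ θ ∈ Icc (j * ρ) (j * ρ + ρ), (∀ b ∈ B, τ * ρ < |θ - b|) →
          ∀ s ∈ Icc (L.s (n + 2)) (L.s (n + 1)), t₀ * τ ^ m * (1 + d) ^ (n + 1) ≤ ‖S.F s θ‖ :=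
    fun j => H S hS L n h1 h2 τ (j * ρ) hτ hτ1
  choose Bc hB1 hB2 hB3 using hcell
  set J : ℤ := ⌈Θ / ρ⌉ with hJ
  have hJ1 : Θ / ρ ≤ J := Int.le_ceil _
  have hJ2 : (J : ℝ) < Θ / ρ + 1 := Int.ceil_lt_add_one _
  have hJ0 : 0 ≤ J := by
    have h0 : 0 < Θ / ρ := div_pos hΘ hρ0
    have : (0 : ℝ) < J := lt_of_lt_of_le h0 hJ1
    exact_mod_cast this.le
  refine ⟨(Finset.Icc (-J) J).biUnion Bc, ?_, ?_, ?_⟩
  · intro y
    have hsub : ((Finset.Icc (-J) J).biUnion Bc).filter (fun b => |b - y| ≤ ρ / 2) ⊆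
        (Finset.Icc ⌈y / ρ - 3 / 2⌉ ⌊y / ρ + 1 / 2⌋).biUnion Bc := by
      intro b hb
      rw [Finset.mem_filter, Finset.mem_biUnion] at hb
      obtain ⟨⟨j, _, hbj⟩, hby⟩ := hb
      rw [Finset.mem_biUnion]
      refine ⟨j, ?_, hbj⟩
      have h3 := hB2 j b hbj
      rw [abs_le] at hby
      rw [Finset.mem_Icc, Int.ceil_le, Int.le_floor]
      constructor
      · have : y / ρ ≤ j + 3 / 2 := by
          rw [div_le_iff₀ hρ0]
          linarith [h3.2, hby.1]
        linarith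
      · have : (j : ℝ) - 1 / 2 ≤ y / ρ := by
          rw [le_div_iff₀ hρ0]
          linarith [h3.1, hby.2]
        linarith
    refine (Finset.card_le_card hsub).trans ?_
    refine (Finset.card_biUnion_le_card_mul _ _ L₀ fun j _ => hB1 j).trans ?_
    refine Nat.mul_le_mul_right L₀ ?_
    rw [Int.card_Icc]
    have h4 : ⌊y / ρ + 1 / 2⌋ ≤ ⌈y / ρ - 3 / 2⌉ + 2 := by
      have h5 := Int.floor_le (y / ρ + 1 / 2)
      have h6 := Int.le_ceil (y / ρ - 3 / 2)
      have : ((⌊y / ρ + 1 / 2⌋ : ℤ) : ℝ) ≤ ((⌈y / ρ - 3 / 2⌉ + 2 : ℤ) : ℝ) := by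
        push_cast; linarith
      exact_mod_cast this
    omega
  · have h3 : (((Finset.Icc (-J) J).biUnion Bc).card : ℝ) ≤ (2 * J + 1) * L₀ := by
      have h4 := Finset.card_biUnion_le_card_mul (Finset.Icc (-J) J) Bc L₀ fun j _ => hB1 j
      rw [Int.card_Icc] at h4
      have h5 : (((J + 1 - -J).toNat : ℕ) : ℝ) = 2 * J + 1 := by
        have h6 : (((J + 1 - -J).toNat : ℕ) : ℤ) = 2 * J + 1 := by omega
        exact_mod_cast h6
      calc (((Finset.Icc (-J) J).biUnion Bc).card : ℝ) ≤ (((J + 1 - -J).toNat * L₀ : ℕ) : ℝ) := by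
            exact_mod_cast h4
        _ = (2 * J + 1) * L₀ := by rw [Nat.cast_mul, h5]
    have h7 : (2 * (J : ℝ) + 1) * ρ ≤ 3 * (Θ + L.η (n + 2)) := by
      have h8 : (J : ℝ) * ρ ≤ Θ + ρ := by
        have := mul_le_mul_of_nonneg_right hJ2.le hρ0.le
        rw [add_mul, div_mul_cancel₀ _ hρ0.ne', one_mul] at this
        exact this
      nlinarith
    calc (((Finset.Icc (-J) J).biUnion Bc).card : ℝ) * ρ ≤ ((2 * J + 1) * L₀) * ρ :=
          mul_le_mul_of_nonneg_right h3 hρ0.le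
      _ = L₀ * ((2 * J + 1) * ρ) := by ring
      _ ≤ L₀ * (3 * (Θ + L.η (n + 2))) := mul_le_mul_of_nonneg_left h7 (Nat.cast_nonneg _)
      _ = ((3 * L₀ : ℕ) : ℝ) * (Θ + L.η (n + 2)) := by push_cast; ring
  · intro θ hθ hfar s hs
    set j : ℤ := ⌊θ / ρ⌋ with hj
    have hj1 : (j : ℝ) * ρ ≤ θ := by
      have := mul_le_mul_of_nonneg_right (Int.floor_le (θ / ρ)) hρ0.le
      rwa [div_mul_cancel₀ _ hρ0.ne'] at this
    have hj2 : θ ≤ j * ρ + ρ := by
      have := mul_le_mul_of_nonneg_right (Int.lt_floor_add_one (θ / ρ)).le hρ0.le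
      rwa [div_mul_cancel₀ _ hρ0.ne', add_mul, one_mul] at this
    have hjm : j ∈ Finset.Icc (-J) J := by
      rw [Finset.mem_Icc]
      constructor
      · rw [hj, Int.le_floor]
        push_cast
        rw [le_div_iff₀ hρ0]
        have := mul_le_mul_of_nonneg_right hJ1 hρ0.le
        rw [div_mul_cancel₀ _ hρ0.ne'] at this
        linarith [hθ.1]
      · have h3 : (j : ℝ) ≤ J := by
          refine (Int.floor_le _).trans (le_trans ?_ hJ1)
          exact div_le_div_of_nonneg_right hθ.2 hρ0.le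
        exact_mod_cast h3
    exact hB3 j θ ⟨hj1, hj2⟩ (fun b hb => hfar b (Finset.mem_biUnion.mpr ⟨j, hjm, hb⟩)) s hs

end Pool.Agent.Helper95.Hada
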