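import Mathlib

open Filter Topology Set

namespace Pool.Agent.Helper95.Hada

/-- A lacunary exponential series: positive exponents with ratio at least `q > 1`, coefficients `a`. -/
structure Ser where
  q : ℝ
  lam : ℕ → ℝ
  a : ℕ → ℂ
  one_lt_q : 1 < q
  lam_pos : ∀ k, 0 < lam k
  ratio : ∀ k, q * lam k ≤ lam (k + 1)
  summ : ∀ s : ℝ, 0 < s → Summable (fun k => ‖a k‖ * Real.exp (-(lam k * s)))

noncomputable def Ser.x (S : Ser) (k : ℕ) (s : ℝ) : ℝ := ‖S.a k‖ * Real.exp (-(S.lam k * s))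
noncomputable def Ser.M (S : Ser) (s : ℝ) : ℝ := ∑' k, S.x k s
noncomputable def Ser.m (S : Ser) (K : ℕ) (s : ℝ) : ℝ := ∑ k ∈ Finset.range K, S.x k s
noncomputable def Ser.G (S : Ser) (z : ℂ) : ℂ := ∑' k, S.a k * Complex.exp (S.lam k * z)
noncomputable def Ser.F (S : Ser) (s θ : ℝ) : ℂ := S.G ⟨-s, θ⟩
noncomputable def Ser.P (S : Ser) (K : ℕ) (s θ : ℝ) : ℂ :=
  ∑ k ∈ Finset.range K, S.a k * Complex.exp (S.lam k * (⟨-s, θ⟩ : ℂ))

/-- levels `s n` with `M (s n) = (1+d)^n` -/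
structure Lev (S : Ser) (d : ℝ) where
  s : ℕ → ℝ
  d_pos : 0 < d
  s_pos : ∀ n, 0 < s n
  hM : ∀ n, S.M (s n) = (1 + d) ^ n

noncomputable def Lev.η {S : Ser} {d : ℝ} (L : Lev S d) (n : ℕ) : ℝ := L.s n - L.s (n + 1)

/-! C0: basic facts -/
theorem Ser.x_nonneg (S : Ser) (k : ℕ) (s : ℝ) : 0 ≤ S.x k s := by
  unfold Ser.x
  positivity
theorem Ser.x_anti (S : Ser) (k : ℕ) {s s' : ℝ} (h : s ≤ s') : S.x k s' ≤ S.x k s := by
  unfold Ser.x
  apply mul_le_mul_of_nonneg_left _ (norm_nonneg _)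
  apply Real.exp_le_exp.2
  have := mul_le_mul_of_nonneg_left h (S.lam_pos k).le
  linarith
theorem Ser.summ_x (S : Ser) {s : ℝ} (hs : 0 < s) : Summable (fun k => S.x k s) := S.summ s hs
theorem Ser.m_le_M (S : Ser) (K : ℕ) {s : ℝ} (hs : 0 < s) : S.m K s ≤ S.M s := by
  unfold Ser.m Ser.M
  exact (S.summ_x hs).sum_le_tsum _ (fun k _ => S.x_nonneg k s)
theorem Ser.tail_eq (S : Ser) (K : ℕ) {s : ℝ} (hs : 0 < s) :
    S.M s - S.m K s = ∑' k, S.x (k + K) s := by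
  unfold Ser.m Ser.M
  rw [← (S.summ_x hs).sum_add_tsum_nat_add K]
  ring
theorem Ser.tail_anti (S : Ser) (K : ℕ) {s s' : ℝ} (hs : 0 < s) (h : s ≤ s') :
    S.M s' - S.m K s' ≤ S.M s - S.m K s := by
  have hs' : 0 < s' := lt_of_lt_of_le hs h
  rw [S.tail_eq K hs, S.tail_eq K hs']
  apply Summable.tsum_le_tsum
  · intro k
    exact S.x_anti _ h
  · exact (summable_nat_add_iff K).2 (S.summ_x hs')
  · exact (summable_nat_add_iff K).2 (S.summ_x hs)
theorem Ser.norm_term (S : Ser) (k : ℕ) (z : ℂ) :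
    ‖S.a k * Complex.exp (S.lam k * z)‖ = S.x k (-z.re) := by
  unfold Ser.x
  rw [norm_mul, Complex.norm_exp]
  congr 2
  simp
theorem Ser.norm_G_le (S : Ser) {z : ℂ} (hz : z.re < 0) : ‖S.G z‖ ≤ S.M (-z.re) := by
  unfold Ser.G Ser.M
  have hs : 0 < -z.re := by linarith
  have h1 : Summable (fun k => ‖S.a k * Complex.exp (S.lam k * z)‖) := by
    simp only [S.norm_term]
    exact S.summ_x hs
  refine (norm_tsum_le_tsum_norm h1).trans (le_of_eq ?_)
  simp only [S.norm_term]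
theorem Ser.differentiableOn_G (S : Ser) : DifferentiableOn ℂ S.G {z | z.re < 0} := by
  intro z0 hz0
  have hz0' : z0.re < 0 := hz0
  set U : Set ℂ := {z | z.re < z0.re / 2} with hU
  have hUo : IsOpen U := isOpen_lt Complex.continuous_re continuous_const
  have hmem : z0 ∈ U := by
    show z0.re < z0.re / 2
    linarith
  have hs : 0 < -(z0.re / 2) := by linarith
  have hd : DifferentiableOn ℂ (fun z => ∑' k, S.a k * Complex.exp (S.lam k * z)) U := by
    apply Complex.differentiableOn_tsum_of_summable_norm (S.summ_x hs)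
    · intro k
      apply Differentiable.differentiableOn
      fun_prop
    · exact hUo
    · intro k z hz
      rw [S.norm_term]
      apply S.x_anti
      have : z.re < z0.re / 2 := hz
      linarith
  exact (hd.differentiableAt (hUo.mem_nhds hmem)).differentiableWithinAt
theorem Ser.F_sub_P (S : Ser) (K : ℕ) {s s' : ℝ} (hs : 0 < s) (θ : ℝ) :
    ‖S.F s θ - S.P K s' θ‖ ≤ ∑ k ∈ Finset.range K, |S.x k s - S.x k s'| + (S.M s - S.m K s) := by
  unfold Ser.F Ser.G Ser.P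
  have hsum : Summable (fun k => S.a k * Complex.exp (S.lam k * (⟨-s, θ⟩ : ℂ))) := by
    apply Summable.of_norm
    simp only [S.norm_term, neg_neg]
    exact S.summ_x hs
  rw [← hsum.sum_add_tsum_nat_add K]
  have e : ∑ i ∈ Finset.range K, S.a i * Complex.exp (S.lam i * (⟨-s, θ⟩ : ℂ)) +
      ∑' i, S.a (i + K) * Complex.exp (S.lam (i + K) * (⟨-s, θ⟩ : ℂ)) -
      ∑ k ∈ Finset.range K, S.a k * Complex.exp (S.lam k * (⟨-s', θ⟩ : ℂ)) =
      ∑ k ∈ Finset.range K, (S.a k * Complex.exp (S.lam k * (⟨-s, θ⟩ : ℂ)) -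
        S.a k * Complex.exp (S.lam k * (⟨-s', θ⟩ : ℂ))) +
      ∑' i, S.a (i + K) * Complex.exp (S.lam (i + K) * (⟨-s, θ⟩ : ℂ)) := by
    rw [Finset.sum_sub_distrib]
    ring
  rw [e]
  refine (norm_add_le _ _).trans ?_
  apply add_le_add
  · refine (norm_sum_le _ _).trans ?_
    apply Finset.sum_le_sum
    intro k _
    have h1 : ∀ t : ℝ, Complex.exp (S.lam k * (⟨-t, θ⟩ : ℂ)) =
        Complex.exp (((S.lam k * θ : ℝ) : ℂ) * Complex.I) * ((Real.exp (-(S.lam k * t)) : ℝ) : ℂ) := by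
      intro t
      rw [Complex.ofReal_exp, ← Complex.exp_add]
      congr 1
      apply Complex.ext <;> simp
    rw [h1, h1]
    have h2 : S.a k * (Complex.exp (((S.lam k * θ : ℝ) : ℂ) * Complex.I) *
        ((Real.exp (-(S.lam k * s)) : ℝ) : ℂ)) - S.a k * (Complex.exp (((S.lam k * θ : ℝ) : ℂ) * Complex.I) *
        ((Real.exp (-(S.lam k * s')) : ℝ) : ℂ)) = S.a k * (Complex.exp (((S.lam k * θ : ℝ) : ℂ) * Complex.I) *
        ((Real.exp (-(S.lam k * s)) - Real.exp (-(S.lam k * s')) : ℝ) : ℂ)) := by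
      push_cast
      ring
    rw [h2, norm_mul, norm_mul, Complex.norm_exp_ofReal_mul_I, one_mul, Complex.norm_real,
      Real.norm_eq_abs]
    unfold Ser.x
    rw [← mul_sub, abs_mul, abs_of_nonneg (norm_nonneg _)]
  · rw [S.tail_eq K hs]
    have h1 : Summable (fun i => ‖S.a (i + K) * Complex.exp (S.lam (i + K) * (⟨-s, θ⟩ : ℂ))‖) := by
      simp only [S.norm_term, neg_neg]
      exact (summable_nat_add_iff K).2 (S.summ_x hs)
    refine (norm_tsum_le_tsum_norm h1).trans (le_of_eq ?_)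
    simp only [S.norm_term, neg_neg]
theorem Ser.norm_F_sub_P_le (S : Ser) (K : ℕ) {s s' : ℝ} (hs : 0 < s) (h : s ≤ s') (θ : ℝ) :
    ‖S.F s θ - S.P K s' θ‖ ≤ S.M s - S.m K s' := by
  refine (S.F_sub_P K hs θ).trans (le_of_eq ?_)
  have : ∑ k ∈ Finset.range K, |S.x k s - S.x k s'| = S.m K s - S.m K s' := by
    unfold Ser.m
    rw [← Finset.sum_sub_distrib]
    apply Finset.sum_congr rfl
    intro k _
    exact abs_of_nonneg (sub_nonneg.2 (S.x_anti k h))
  rw [this]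
  ring
theorem Ser.norm_F_sub_P_le' (S : Ser) (K : ℕ) {s s' : ℝ} (hs : 0 < s') (h : s' ≤ s) (θ : ℝ) :
    ‖S.F s θ - S.P K s' θ‖ ≤ (S.m K s' - S.m K s) + (S.M s - S.m K s) := by
  refine (S.F_sub_P K (lt_of_lt_of_le hs h) θ).trans (le_of_eq ?_)
  have : ∑ k ∈ Finset.range K, |S.x k s - S.x k s'| = S.m K s' - S.m K s := by
    unfold Ser.m
    rw [← Finset.sum_sub_distrib]
    apply Finset.sum_congr rfl
    intro k _
    rw [abs_sub_comm]
    exact abs_of_nonneg (sub_nonneg.2 (S.x_anti k h))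
  rw [this]
theorem Ser.norm_P_sub_P_le (S : Ser) (K : ℕ) (Λ : ℝ) (hΛ : ∀ k < K, S.lam k ≤ Λ) (s θ θ' : ℝ) :
    ‖S.P K s θ - S.P K s θ'‖ ≤ Λ * |θ - θ'| * S.m K s := by
  unfold Ser.P Ser.m
  rw [← Finset.sum_sub_distrib, Finset.mul_sum]
  refine (norm_sum_le _ _).trans ?_
  apply Finset.sum_le_sum
  intro k hk
  have h1 : ∀ t : ℝ, Complex.exp (S.lam k * (⟨-s, t⟩ : ℂ)) =
      ((Real.exp (-(S.lam k * s)) : ℝ) : ℂ) * Complex.exp (Complex.I * ((S.lam k * t : ℝ) : ℂ)) := by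
    intro t
    rw [Complex.ofReal_exp, ← Complex.exp_add]
    congr 1
    apply Complex.ext <;> simp
  rw [h1, h1, ← mul_sub, ← mul_sub, norm_mul, norm_mul, Complex.norm_real, Real.norm_eq_abs,
    abs_of_pos (Real.exp_pos _)]
  have h2 : ‖Complex.exp (Complex.I * ((S.lam k * θ : ℝ) : ℂ)) -
      Complex.exp (Complex.I * ((S.lam k * θ' : ℝ) : ℂ))‖ ≤ Λ * |θ - θ'| := by
    have e1 : Complex.exp (Complex.I * ((S.lam k * θ : ℝ) : ℂ)) -
      Complex.exp (Complex.I * ((S.lam k * θ' : ℝ) : ℂ)) =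
      Complex.exp (Complex.I * ((S.lam k * θ' : ℝ) : ℂ)) *
        (Complex.exp (Complex.I * ((S.lam k * (θ - θ') : ℝ) : ℂ)) - 1) := by
      rw [mul_sub, mul_one, ← Complex.exp_add]
      congr 2
      push_cast
      ring
    rw [e1, norm_mul, mul_comm Complex.I, Complex.norm_exp_ofReal_mul_I, one_mul]
    refine (Real.norm_exp_I_mul_ofReal_sub_one_le).trans ?_
    rw [Real.norm_eq_abs, abs_mul, abs_of_pos (S.lam_pos k)]
    apply mul_le_mul_of_nonneg_right (hΛ k (Finset.mem_range.1 hk)) (abs_nonneg _)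
  unfold Ser.x
  have h3 : 0 ≤ ‖S.a k‖ * Real.exp (-(S.lam k * s)) := by positivity
  calc ‖S.a k‖ * (Real.exp (-(S.lam k * s)) * ‖Complex.exp (Complex.I * ((S.lam k * θ : ℝ) : ℂ)) -
      Complex.exp (Complex.I * ((S.lam k * θ' : ℝ) : ℂ))‖) =
      (‖S.a k‖ * Real.exp (-(S.lam k * s))) * ‖Complex.exp (Complex.I * ((S.lam k * θ : ℝ) : ℂ)) -
      Complex.exp (Complex.I * ((S.lam k * θ' : ℝ) : ℂ))‖ := by ring
    _ ≤ (‖S.a k‖ * Real.exp (-(S.lam k * s))) * (Λ * |θ - θ'|) := mul_le_mul_of_nonneg_left h2 h3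
    _ = Λ * |θ - θ'| * (‖S.a k‖ * Real.exp (-(S.lam k * s))) := by ring

end Pool.Agent.Helper95.Hada
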