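import Pool.Agent.Helper95.HadaLev

open Filter Topology Set

namespace Pool.Agent.Helper95.Hada

section Levels
variable {S : Ser} {d : ℝ} (L : Lev S d)

/-- a cut in the gap between level `n` and `n+1` (time `s (n+1)`) -/
structure Cut (Cs ε₁ κ : ℝ) (n : ℕ) where
  Λ : ℝ
  K : ℕ
  K' : ℕ
  hΛ : 0 < Λ
  hKK' : K ≤ K'
  lower : 1 ≤ Λ * L.η n
  upper : Cs * Λ * L.η (n + 1) ≤ ε₁
  hK : ∀ k < K, S.lam k ≤ Λ
  hK2 : ∀ k, K ≤ k → Λ < S.lam k
  hK' : ∀ k < K', S.lam k ≤ Cs * Λ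
  hK'2 : ∀ k, K' ≤ k → Cs * Λ < S.lam k
  tail_le : (1 + d) ^ (n + 1) - S.m K (L.s (n + 1)) ≤ 2 * d * (1 + d) ^ (n + 1)
  mid_le : S.m K' (L.s (n + 1)) - S.m K (L.s (n + 1)) ≤ κ * d * (1 + d) ^ (n + 1)

end Levels

/-! ===== TARGETS (prove these) ===== -/

theorem Ser.lam_lt_succ (S : Ser) (k : ℕ) : S.lam k < S.lam (k + 1) := by
  have h1 := S.ratio k
  have h2 := S.lam_pos k
  have h3 := S.one_lt_q
  nlinarith

theorem Ser.lam_mono (S : Ser) : StrictMono S.lam := strictMono_nat_of_lt_succ S.lam_lt_succ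

theorem Ser.lam_ge_pow (S : Ser) (k : ℕ) : S.q ^ k * S.lam 0 ≤ S.lam k := by
  induction k with
  | zero => simp
  | succ k ih =>
    have h1 := S.ratio k
    have h3 : 0 < S.q := lt_trans one_pos S.one_lt_q
    calc S.q ^ (k + 1) * S.lam 0 = S.q * (S.q ^ k * S.lam 0) := by ring
      _ ≤ S.q * S.lam k := mul_le_mul_of_nonneg_left ih h3.le
      _ ≤ S.lam (k + 1) := h1

theorem Ser.exists_idx (S : Ser) (Y : ℝ) :
    ∃ K : ℕ, (∀ k < K, S.lam k ≤ Y) ∧ (∀ k, K ≤ k → Y < S.lam k) := by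
  have hex : ∃ k, Y < S.lam k := by
    obtain ⟨k, hk⟩ := pow_unbounded_of_one_lt (Y / S.lam 0) S.one_lt_q
    refine ⟨k, ?_⟩
    have h0 := S.lam_pos 0
    rw [div_lt_iff₀ h0] at hk
    exact lt_of_lt_of_le hk (S.lam_ge_pow k)
  classical
  refine ⟨Nat.find hex, ?_, ?_⟩
  · intro k hk
    exact not_lt.1 (Nat.find_min hex hk)
  · intro k hk
    exact lt_of_lt_of_le (Nat.find_spec hex) (S.lam_mono.monotone hk)

theorem Ser.m_mono (S : Ser) {K K' : ℕ} (h : K ≤ K') (s : ℝ) : S.m K s ≤ S.m K' s := by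
  unfold Ser.m
  apply Finset.sum_le_sum_of_subset_of_nonneg
  · exact Finset.range_subset_range.2 h
  · intro i _ _
    exact S.x_nonneg i s

theorem exists_cut (d : ℝ) (hd : 0 < d) (Cs ε₁ κ : ℝ) (hCs : 1 < Cs) (hε₁ : 0 < ε₁) (hκ : 0 < κ) :
    ∃ Kb : ℝ, 1 < Kb ∧ ∀ (S : Ser) (L : Lev S d) (n : ℕ), Kb * L.η (n + 1) ≤ L.η n →
      Nonempty (Cut L Cs ε₁ κ n) := by
  obtain ⟨b0, hb0⟩ := exists_nat_gt (2 / κ)
  set b : ℕ := b0 + 1 with hb
  have hbpos : 0 < b := Nat.succ_pos _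
  have hbpos' : (0 : ℝ) < b := by exact_mod_cast hbpos
  have hb2 : 2 ≤ κ * b := by
    rw [div_lt_iff₀ hκ] at hb0
    have : (b0 : ℝ) ≤ b := by rw [hb]; push_cast; linarith
    nlinarith
  refine ⟨max 2 (Cs ^ b / ε₁), lt_of_lt_of_le (by norm_num) (le_max_left _ _), ?_⟩
  intro S L n hgap
  set Kb : ℝ := max 2 (Cs ^ b / ε₁) with hKb
  have hKb2 : (2 : ℝ) ≤ Kb := le_max_left _ _
  have hKbC : Cs ^ b ≤ ε₁ * Kb := by
    have h1 : Cs ^ b / ε₁ ≤ Kb := le_max_right _ _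
    rw [div_le_iff₀ hε₁] at h1
    linarith
  have hη : 0 < L.η n := L.η_pos n
  have hη1 : 0 < L.η (n + 1) := L.η_pos (n + 1)
  have hC0 : 0 < Cs := by linarith
  choose kk hkk1 hkk2 using S.exists_idx
  let Λ : ℕ → ℝ := fun j => Cs ^ j * (1 / L.η n)
  have hΛdef : ∀ j, Λ j = Cs ^ j * (1 / L.η n) := fun _ => rfl
  have hΛpos : ∀ j, 0 < Λ j := fun j => by rw [hΛdef]; positivity
  have hΛη : ∀ j, Λ j * L.η n = Cs ^ j := by
    intro j
    rw [hΛdef]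
    field_simp
  have hΛs : ∀ j, Λ (j + 1) = Cs * Λ j := by
    intro j
    rw [hΛdef, hΛdef]
    ring
  have hkmono1 : ∀ j, kk (Λ j) ≤ kk (Λ (j + 1)) := by
    intro j
    by_contra hcon
    push Not at hcon
    have h1 := hkk1 (Λ j) _ hcon
    have h2 := hkk2 (Λ (j + 1)) _ le_rfl
    rw [hΛs] at h2
    rw [hΛs] at h1
    have h3 := hΛpos j
    nlinarith
  have hkmono : Monotone (fun j => kk (Λ j)) := monotone_nat_of_le_succ hkmono1
  have hM := L.hM (n + 1)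
  -- mass above Y0
  have hmass : (1 + d) ^ (n + 1) - S.m (kk (Λ 0)) (L.s (n + 1)) ≤ 2 * (d * (1 + d) ^ n) := by
    have h1 := L.fresh n (kk (Λ 0)) (Λ 0) (fun k hk => (hkk2 (Λ 0) k hk).le)
    rw [hM, hΛη, pow_zero] at h1
    have h2 := S.m_le_M (kk (Λ 0)) (L.s_pos (n + 1))
    rw [hM] at h2
    have h3 : (1 : ℝ) / 2 ≤ 1 - Real.exp (-1) := by
      have h4 : Real.exp (-1) ≤ 1 / 2 := by
        rw [Real.exp_neg, ← one_div]
        apply one_div_le_one_div_of_le (by norm_num)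
        have := Real.add_one_le_exp (1 : ℝ)
        linarith
      linarith
    have h5 : ((1 + d) ^ (n + 1) - S.m (kk (Λ 0)) (L.s (n + 1))) * (1 / 2) ≤
      ((1 + d) ^ (n + 1) - S.m (kk (Λ 0)) (L.s (n + 1))) * (1 - Real.exp (-1)) :=
      mul_le_mul_of_nonneg_left h3 (by linarith)
    linarith
  have h1d : (1 : ℝ) ≤ 1 + d := by linarith
  have hpow : (1 + d) ^ n ≤ (1 + d) ^ (n + 1) := pow_le_pow_right₀ h1d (Nat.le_succ n)
  have hpowpos : (0 : ℝ) < (1 + d) ^ n := by positivity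
  -- pigeonhole
  have hpig : ∃ j ∈ Finset.range b, S.m (kk (Λ (j + 1))) (L.s (n + 1)) -
      S.m (kk (Λ j)) (L.s (n + 1)) ≤ 2 * (d * (1 + d) ^ n) / b := by
    apply Finset.exists_le_of_sum_le (Finset.nonempty_range_iff.2 hbpos.ne')
    rw [Finset.sum_range_sub (fun j => S.m (kk (Λ j)) (L.s (n + 1)))]
    rw [Finset.sum_const, Finset.card_range, nsmul_eq_mul, mul_div_cancel₀ _ hbpos'.ne']
    have h2 := S.m_le_M (kk (Λ b)) (L.s_pos (n + 1))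
    rw [hM] at h2
    linarith
  obtain ⟨j, hj, hjm⟩ := hpig
  rw [Finset.mem_range] at hj
  refine ⟨⟨Λ j, kk (Λ j), kk (Λ (j + 1)), hΛpos j, hkmono1 j, ?_, ?_, hkk1 (Λ j), hkk2 (Λ j), ?_,
    ?_, ?_, ?_⟩⟩
  · rw [hΛη]
    exact one_le_pow₀ hCs.le
  · rw [← hΛs]
    have h1 : Λ (j + 1) * (Kb * L.η (n + 1)) ≤ Λ (j + 1) * L.η n :=
      mul_le_mul_of_nonneg_left hgap (hΛpos _).le
    rw [hΛη] at h1
    have h2 : Cs ^ (j + 1) ≤ Cs ^ b := pow_le_pow_right₀ hCs.le hj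
    have h3 : (Λ (j + 1) * L.η (n + 1)) * Kb ≤ ε₁ * Kb := by linarith
    exact le_of_mul_le_mul_right h3 (by linarith)
  · rw [← hΛs]
    exact hkk1 _
  · rw [← hΛs]
    exact hkk2 _
  · have h1 : S.m (kk (Λ 0)) (L.s (n + 1)) ≤ S.m (kk (Λ j)) (L.s (n + 1)) :=
      S.m_mono (hkmono (Nat.zero_le j)) _
    have h2 : d * (1 + d) ^ n ≤ d * (1 + d) ^ (n + 1) := mul_le_mul_of_nonneg_left hpow hd.le
    linarith
  · have h1 : 2 * (d * (1 + d) ^ n) / b ≤ κ * d * (1 + d) ^ (n + 1) := by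
      rw [div_le_iff₀ hbpos']
      have h2 : d * (1 + d) ^ n ≤ d * (1 + d) ^ (n + 1) := mul_le_mul_of_nonneg_left hpow hd.le
      have h3 : 0 < d * (1 + d) ^ (n + 1) := by positivity
      nlinarith
    linarith

end Pool.Agent.Helper95.Hada
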