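import Mathlib

/-! Job B1: Riesz product averages: total mass and drift. -/

namespace Pool.Agent.Helper95.Hada

/-- Riesz product with amplitude one half. -/
noncomputable def rp (μ β : ℕ → ℝ) (n : ℕ) (θ : ℝ) : ℝ :=
  ∏ j ∈ Finset.range n, (1 + (1 / 2) * Real.cos (μ j * θ + β j))

lemma rp_cont (μ β : ℕ → ℝ) (n : ℕ) : Continuous (rp μ β n) := by
  unfold rp
  fun_prop

/-- mean of the Riesz product against a cosine -/
noncomputable def EE (μ β : ℕ → ℝ) (c ℓ : ℝ) (n : ℕ) (y γ : ℝ) : ℝ :=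
  (1 / (2 * ℓ)) * ∫ θ in (c - ℓ)..(c + ℓ), rp μ β n θ * Real.cos (y * θ + γ)

lemma EE_succ (μ β : ℕ → ℝ) (c ℓ : ℝ) (n : ℕ) (y γ : ℝ) :
    EE μ β c ℓ (n + 1) y γ = EE μ β c ℓ n y γ +
      (1 / 4) * EE μ β c ℓ n (y + μ n) (γ + β n) + (1 / 4) * EE μ β c ℓ n (y - μ n) (γ - β n) := by
  unfold EE
  have hc := rp_cont μ β n
  have h : ∀ θ, rp μ β (n + 1) θ * Real.cos (y * θ + γ) =
      rp μ β n θ * Real.cos (y * θ + γ) +
      (1 / 4) * (rp μ β n θ * Real.cos ((y + μ n) * θ + (γ + β n))) +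
      (1 / 4) * (rp μ β n θ * Real.cos ((y - μ n) * θ + (γ - β n))) := by
    intro θ
    have e1 : rp μ β (n + 1) θ = rp μ β n θ * (1 + (1 / 2) * Real.cos (μ n * θ + β n)) := by
      unfold rp
      rw [Finset.prod_range_succ]
    have e2 : Real.cos ((y + μ n) * θ + (γ + β n)) =
        Real.cos (y * θ + γ) * Real.cos (μ n * θ + β n) -
          Real.sin (y * θ + γ) * Real.sin (μ n * θ + β n) := by
      rw [← Real.cos_add]
      congr 1
      ring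
    have e3 : Real.cos ((y - μ n) * θ + (γ - β n)) =
        Real.cos (y * θ + γ) * Real.cos (μ n * θ + β n) +
          Real.sin (y * θ + γ) * Real.sin (μ n * θ + β n) := by
      rw [← Real.cos_sub]
      congr 1
      ring
    rw [e1, e2, e3]
    ring
  have i1 : IntervalIntegrable (fun θ => rp μ β n θ * Real.cos (y * θ + γ))
      MeasureTheory.volume (c - ℓ) (c + ℓ) := by
    apply Continuous.intervalIntegrable
    fun_prop
  have i2 : IntervalIntegrable (fun θ => (1 / 4) * (rp μ β n θ *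
      Real.cos ((y + μ n) * θ + (γ + β n)))) MeasureTheory.volume (c - ℓ) (c + ℓ) := by
    apply Continuous.intervalIntegrable
    fun_prop
  have i3 : IntervalIntegrable (fun θ => (1 / 4) * (rp μ β n θ *
      Real.cos ((y - μ n) * θ + (γ - β n)))) MeasureTheory.volume (c - ℓ) (c + ℓ) := by
    apply Continuous.intervalIntegrable
    fun_prop
  rw [intervalIntegral.integral_congr (fun θ _ => h θ)]
  rw [intervalIntegral.integral_add (i1.add i2) i3, intervalIntegral.integral_add i1 i2,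
    intervalIntegral.integral_const_mul, intervalIntegral.integral_const_mul]
  ring

lemma EE_zero (μ β : ℕ → ℝ) (c ℓ : ℝ) (hℓ : 0 < ℓ) (y γ : ℝ) (hy : y ≠ 0) :
    |EE μ β c ℓ 0 y γ| ≤ 1 / (|y| * ℓ) := by
  unfold EE
  have h : ∀ θ, rp μ β 0 θ * Real.cos (y * θ + γ) = Real.cos (y * θ + γ) := by
    intro θ
    simp [rp]
  have h1 : ∫ θ in (c - ℓ)..(c + ℓ), Real.cos (y * θ + γ) =
      y⁻¹ * (Real.sin (y * (c + ℓ) + γ) - Real.sin (y * (c - ℓ) + γ)) := by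
    rw [intervalIntegral.integral_comp_mul_add (fun t => Real.cos t) hy, integral_cos]
    simp
  rw [intervalIntegral.integral_congr (fun θ _ => h θ), h1, abs_mul, abs_mul]
  have h2 : |Real.sin (y * (c + ℓ) + γ) - Real.sin (y * (c - ℓ) + γ)| ≤ 2 := by
    have a1 := Real.sin_le_one (y * (c + ℓ) + γ)
    have a2 := Real.neg_one_le_sin (y * (c + ℓ) + γ)
    have a3 := Real.sin_le_one (y * (c - ℓ) + γ)
    have a4 := Real.neg_one_le_sin (y * (c - ℓ) + γ)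
    rw [abs_le]
    constructor <;> linarith
  have h3 : 0 < |y| := abs_pos.2 hy
  rw [abs_of_pos (by positivity : (0 : ℝ) < 1 / (2 * ℓ)), abs_inv]
  calc 1 / (2 * ℓ) * (|y|⁻¹ * |Real.sin (y * (c + ℓ) + γ) - Real.sin (y * (c - ℓ) + γ)|)
      ≤ 1 / (2 * ℓ) * (|y|⁻¹ * 2) := by gcongr
    _ = 1 / (|y| * ℓ) := by field_simp

/-- (E1) -/
lemma EE_bound (μ β : ℕ → ℝ) (hμ : ∀ j, 0 < μ j) (c ℓ : ℝ) (hℓ : 0 < ℓ) (n : ℕ) :
    ∀ y γ : ℝ, (∑ j ∈ Finset.range n, μ j) < |y| →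
      |EE μ β c ℓ n y γ| ≤ (3 / 2) ^ n / ((|y| - ∑ j ∈ Finset.range n, μ j) * ℓ) := by
  induction n with
  | zero =>
    intro y γ hy
    have hy0 : y ≠ 0 := by
      rintro rfl
      simp at hy
    simpa using EE_zero μ β c ℓ hℓ y γ hy0
  | succ n ih =>
    intro y γ hy
    rw [Finset.sum_range_succ] at hy ⊢
    rw [EE_succ]
    have hn := hμ n
    have b1 : |y| - μ n ≤ |y + μ n| := by
      have := abs_sub_abs_le_abs_sub y (-μ n)
      rw [abs_neg, abs_of_pos hn, sub_neg_eq_add] at this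
      exact this
    have b2 : |y| - μ n ≤ |y - μ n| := by
      have := abs_sub_abs_le_abs_sub y (μ n)
      rwa [abs_of_pos hn] at this
    set S := ∑ j ∈ Finset.range n, μ j with hS
    have hd : 0 < |y| - (S + μ n) := by linarith
    have key : ∀ z : ℝ, |y| - μ n ≤ |z| → ∀ δ, |EE μ β c ℓ n z δ| ≤
        (3 / 2) ^ n / ((|y| - (S + μ n)) * ℓ) := by
      intro z hz δ
      refine (ih z δ (by linarith)).trans ?_
      apply div_le_div_of_nonneg_left (by positivity) (by positivity)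
      exact mul_le_mul_of_nonneg_right (by linarith) hℓ.le
    have k1 := key y (by linarith) γ
    have k2 := key (y + μ n) b1 (γ + β n)
    have k3 := key (y - μ n) b2 (γ - β n)
    have t1 := abs_add_le (EE μ β c ℓ n y γ + (1 / 4) * EE μ β c ℓ n (y + μ n) (γ + β n))
      ((1 / 4) * EE μ β c ℓ n (y - μ n) (γ - β n))
    have t2 := abs_add_le (EE μ β c ℓ n y γ) ((1 / 4) * EE μ β c ℓ n (y + μ n) (γ + β n))
    rw [abs_mul (1 / 4 : ℝ), abs_of_pos (by norm_num : (0 : ℝ) < 1 / 4)] at t1 t2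
    have e : (3 / 2 : ℝ) ^ (n + 1) / ((|y| - (S + μ n)) * ℓ) =
        (3 / 2) * ((3 / 2) ^ n / ((|y| - (S + μ n)) * ℓ)) := by
      rw [pow_succ]
      ring
    rw [e]
    linarith

/-- growth of the partial sums -/
lemma sum_le_of_growth (μ : ℕ → ℝ) (Q : ℝ) (hQ : 1 < Q) (hμ0 : 0 < μ 0)
    (hμ : ∀ j, Q * μ j ≤ μ (j + 1)) (n : ℕ) : (∑ j ∈ Finset.range n, μ j) * (Q - 1) ≤ μ n := by
  induction n with
  | zero => simpa using hμ0.le
  | succ n ih =>
    rw [Finset.sum_range_succ, add_mul]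
    have := hμ n
    linarith

lemma pow_growth (μ : ℕ → ℝ) (Q : ℝ) (hQ : 0 ≤ Q) (hμ : ∀ j, Q * μ j ≤ μ (j + 1)) (i t : ℕ) :
    Q ^ t * μ i ≤ μ (i + t) := by
  induction t with
  | zero => simp
  | succ t ih =>
    have := hμ (i + t)
    have h2 : Q * (Q ^ t * μ i) ≤ Q * μ (i + t) := mul_le_mul_of_nonneg_left ih hQ
    calc Q ^ (t + 1) * μ i = Q * (Q ^ t * μ i) := by ring
      _ ≤ Q * μ (i + t) := h2
      _ ≤ μ (i + t + 1) := this

lemma geom_quarter (n : ℕ) : ∑ j ∈ Finset.range n, (1 / 4 : ℝ) ^ j ≤ 4 / 3 := by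
  have : ∑ j ∈ Finset.range n, (1 / 4 : ℝ) ^ j = 4 / 3 * (1 - (1 / 4) ^ n) := by
    rw [geom_sum_eq (by norm_num)]
    ring
  rw [this]
  have : (0 : ℝ) ≤ (1 / 4) ^ n := by positivity
  linarith

/-- increments: if `τ μ_j ≤ |y ± μ_j| - S_j` then the increment is small -/
lemma EE_incr (μ β : ℕ → ℝ) (hμ0 : ∀ j, 0 < μ j) (c ℓ : ℝ) (hℓ : 0 < ℓ) (j : ℕ) (y γ τ L : ℝ)
    (hτ : 0 < τ) (hL : 0 < L) (hμL : 6 ^ j * L ≤ μ j)
    (h1 : τ * μ j ≤ |y + μ j| - ∑ i ∈ Finset.range j, μ i)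
    (h2 : τ * μ j ≤ |y - μ j| - ∑ i ∈ Finset.range j, μ i) :
    |EE μ β c ℓ (j + 1) y γ - EE μ β c ℓ j y γ| ≤ (1 / 2) * (1 / 4) ^ j / (τ * L * ℓ) := by
  rw [EE_succ]
  have hp : 0 < τ * μ j := mul_pos hτ (hμ0 j)
  have key : ∀ z : ℝ, τ * μ j ≤ |z| - ∑ i ∈ Finset.range j, μ i → ∀ δ,
      |EE μ β c ℓ j z δ| ≤ (1 / 4) ^ j / (τ * L * ℓ) := by
    intro z hz δ
    refine (EE_bound μ β hμ0 c ℓ hℓ j z δ (by linarith)).trans ?_
    have e : (1 / 4 : ℝ) ^ j / (τ * L * ℓ) = (3 / 2) ^ j / (τ * (6 ^ j * L) * ℓ) := by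
      have : (3 / 2 : ℝ) ^ j = (1 / 4) ^ j * 6 ^ j := by
        rw [← mul_pow]
        norm_num
      rw [this]
      field_simp
    rw [e]
    apply div_le_div_of_nonneg_left (by positivity) (by positivity)
    have : τ * (6 ^ j * L) ≤ τ * μ j := mul_le_mul_of_nonneg_left hμL hτ.le
    exact mul_le_mul_of_nonneg_right (by linarith) hℓ.le
  have k1 := key (y + μ j) h1 (γ + β j)
  have k2 := key (y - μ j) h2 (γ - β j)
  have e : EE μ β c ℓ j y γ + (1 / 4) * EE μ β c ℓ j (y + μ j) (γ + β j) +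
      (1 / 4) * EE μ β c ℓ j (y - μ j) (γ - β j) - EE μ β c ℓ j y γ =
      (1 / 4) * EE μ β c ℓ j (y + μ j) (γ + β j) + (1 / 4) * EE μ β c ℓ j (y - μ j) (γ - β j) := by
    ring
  rw [e]
  have t1 := abs_add_le ((1 / 4) * EE μ β c ℓ j (y + μ j) (γ + β j))
    ((1 / 4) * EE μ β c ℓ j (y - μ j) (γ - β j))
  rw [abs_mul (1 / 4 : ℝ), abs_mul (1 / 4 : ℝ), abs_of_pos (by norm_num : (0 : ℝ) < 1 / 4)] at t1
  have e2 : (1 / 2 : ℝ) * (1 / 4) ^ j / (τ * L * ℓ) = (1 / 2) * ((1 / 4) ^ j / (τ * L * ℓ)) := by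
    ring
  rw [e2]
  linarith

/-- telescoping -/
lemma EE_tele (μ β : ℕ → ℝ) (c ℓ : ℝ) (y γ B : ℝ) (m n : ℕ) (hmn : m ≤ n) (hB : 0 ≤ B)
    (h : ∀ j, m ≤ j → |EE μ β c ℓ (j + 1) y γ - EE μ β c ℓ j y γ| ≤ (1 / 2) * (1 / 4) ^ j * B) :
    |EE μ β c ℓ n y γ - EE μ β c ℓ m y γ| ≤ (2 / 3) * B := by
  have h1 : ∀ n, m ≤ n → |EE μ β c ℓ n y γ - EE μ β c ℓ m y γ| ≤
      (1 / 2) * (∑ j ∈ Finset.range n, (1 / 4) ^ j) * B := by
    intro n hn
    induction n, hn using Nat.le_induction with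
    | base =>
      simp only [sub_self, abs_zero]
      have : (0 : ℝ) ≤ ∑ j ∈ Finset.range m, (1 / 4) ^ j :=
        Finset.sum_nonneg (fun _ _ => by positivity)
      positivity
    | succ n hn ih =>
      rw [Finset.sum_range_succ]
      have h2 := h n hn
      have h3 := abs_sub_le (EE μ β c ℓ (n + 1) y γ) (EE μ β c ℓ n y γ) (EE μ β c ℓ m y γ)
      have e : (1 / 2) * (∑ j ∈ Finset.range n, (1 / 4) ^ j + (1 / 4) ^ n) * B =
        (1 / 2) * (∑ j ∈ Finset.range n, (1 / 4) ^ j) * B + (1 / 2) * (1 / 4) ^ n * B := by ring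
      rw [e]
      linarith
  refine (h1 n hmn).trans ?_
  have := geom_quarter n
  gcongr
  linarith

lemma EE_zero_zero (μ β : ℕ → ℝ) (c ℓ : ℝ) (hℓ : 0 < ℓ) : EE μ β c ℓ 0 0 0 = 1 := by
  unfold EE
  simp [rp]
  field_simp
  ring

/-- total mass over an interval of half length ℓ centred at c -/
theorem riesz_mass (μ β : ℕ → ℝ) (n : ℕ) (hμ0 : 0 < μ 0) (hμ : ∀ j, 6 * μ j ≤ μ (j + 1))
    (c ℓ : ℝ) (hℓ : 0 < ℓ) :
    |(1 / (2 * ℓ)) * (∫ θ in (c - ℓ)..(c + ℓ), rp μ β n θ) - 1| ≤ 2 / (μ 0 * ℓ) := by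
  have hgrow : ∀ j, 6 ^ j * μ 0 ≤ μ j := by
    intro j
    simpa using pow_growth μ 6 (by norm_num) hμ 0 j
  have hpos : ∀ j, 0 < μ j := fun j => lt_of_lt_of_le (by positivity) (hgrow j)
  have e : (1 / (2 * ℓ)) * (∫ θ in (c - ℓ)..(c + ℓ), rp μ β n θ) = EE μ β c ℓ n 0 0 := by
    unfold EE
    simp
  rw [e, ← EE_zero_zero μ β c ℓ hℓ]
  have h1 : ∀ j, 0 ≤ j → |EE μ β c ℓ (j + 1) 0 0 - EE μ β c ℓ j 0 0| ≤
      (1 / 2) * (1 / 4) ^ j * (1 / ((4 / 5) * μ 0 * ℓ)) := by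
    intro j _
    have hs := sum_le_of_growth μ 6 (by norm_num) hμ0 hμ j
    have hj := hpos j
    have := EE_incr μ β hpos c ℓ hℓ j 0 0 (4 / 5) (μ 0) (by norm_num) hμ0 (hgrow j)
      (by rw [zero_add, abs_of_pos hj]; linarith)
      (by rw [zero_sub, abs_neg, abs_of_pos hj]; linarith)
    refine this.trans (le_of_eq ?_)
    ring
  have h2 := EE_tele μ β c ℓ 0 0 (1 / ((4 / 5) * μ 0 * ℓ)) 0 n (Nat.zero_le n) (by positivity) h1
  refine h2.trans ?_
  have e2 : (2 / 3 : ℝ) * (1 / ((4 / 5) * μ 0 * ℓ)) = (5 / 6) / (μ 0 * ℓ) := by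
    field_simp
    norm_num
  rw [e2]
  gcongr
  norm_num

/-- general bounds for the drift -/
lemma drift_aux (q : ℝ) (hq : 1 < q) (Q : ℝ) (hQ6 : 6 ≤ Q) (hQ : 2 / (1 - 1 / q) ≤ Q - 1)
    (μ β : ℕ → ℝ) (hμ : ∀ j, Q * μ j ≤ μ (j + 1)) (L : ℝ) (hL : 0 < L) (hL0 : L ≤ μ 0)
    (c ℓ : ℝ) (hℓ : 0 < ℓ) (y γ : ℝ) (hy : L ≤ y) (m n : ℕ) (hmn : m ≤ n)
    (h : ∀ j, m ≤ j → q * μ j ≤ y ∨ q * y ≤ μ j) :
    |EE μ β c ℓ n y γ - EE μ β c ℓ m y γ| ≤ (4 / 3) / ((1 - 1 / q) * (L * ℓ)) := by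
  have hq0 : 0 < q := by linarith
  set σ := 1 - 1 / q with hσ
  have hσ0 : 0 < σ := by
    rw [hσ]
    have : 1 / q < 1 := by
      rw [div_lt_one hq0]
      exact hq
    linarith
  have hy0 : 0 < y := lt_of_lt_of_le hL hy
  have hμ0 : 0 < μ 0 := lt_of_lt_of_le hL hL0
  have hgrow : ∀ j, Q ^ j * μ 0 ≤ μ j := by
    intro j
    simpa using pow_growth μ Q (by linarith) hμ 0 j
  have hgrow6 : ∀ j, 6 ^ j * L ≤ μ j := by
    intro j
    refine le_trans ?_ (hgrow j)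
    gcongr
  have hpos : ∀ j, 0 < μ j := fun j => lt_of_lt_of_le (by positivity) (hgrow6 j)
  have hS : ∀ j, ∑ i ∈ Finset.range j, μ i ≤ σ / 2 * μ j := by
    intro j
    have h1 := sum_le_of_growth μ Q (by linarith) hμ0 hμ j
    have h2 : (0 : ℝ) ≤ ∑ i ∈ Finset.range j, μ i := Finset.sum_nonneg (fun i _ => (hpos i).le)
    have h3 : (∑ i ∈ Finset.range j, μ i) * (2 / σ) ≤ μ j :=
      le_trans (mul_le_mul_of_nonneg_left hQ h2) h1
    calc ∑ i ∈ Finset.range j, μ i = σ / 2 * ((∑ i ∈ Finset.range j, μ i) * (2 / σ)) := by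
          field_simp
      _ ≤ σ / 2 * μ j := by gcongr
  have hstep : ∀ j, m ≤ j → |EE μ β c ℓ (j + 1) y γ - EE μ β c ℓ j y γ| ≤
      (1 / 2) * (1 / 4) ^ j * (2 / (σ * L * ℓ)) := by
    intro j hj
    have hμj := hpos j
    have hSj := hS j
    have hσ1 : σ ≤ 1 := by
      rw [hσ]
      have : 0 < 1 / q := by positivity
      linarith
    have hqs : q * σ = q - 1 := by
      rw [hσ]
      field_simp
    have hb : σ / 2 * μ j ≤ |y - μ j| - ∑ i ∈ Finset.range j, μ i := by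
      rcases h j hj with h1 | h1
      · -- q μ_j ≤ y
        have h2 : q * μ j - μ j ≤ |y - μ j| := le_trans (by linarith) (le_abs_self _)
        have h3 : q * μ j - μ j = q * σ * μ j := by rw [hqs]; ring
        have h4 : σ * μ j ≤ q * σ * μ j := by
          have : 0 < σ * μ j := by positivity
          nlinarith
        linarith
      · have h2 : μ j - y ≤ |y - μ j| := by
          rw [abs_sub_comm]
          exact le_abs_self _
        have h3 : y ≤ μ j / q := by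
          rw [le_div_iff₀ hq0]
          linarith
        have h4 : μ j - μ j / q = σ * μ j := by
          rw [hσ]
          ring
        linarith
    have ha : σ / 2 * μ j ≤ |y + μ j| - ∑ i ∈ Finset.range j, μ i := by
      have h2 : y + μ j ≤ |y + μ j| := le_abs_self _
      nlinarith
    have := EE_incr μ β hpos c ℓ hℓ j y γ (σ / 2) L (by positivity) hL (hgrow6 j) ha hb
    refine this.trans (le_of_eq ?_)
    field_simp
  have h2 := EE_tele μ β c ℓ y γ (2 / (σ * L * ℓ)) m n hmn (by positivity) hstep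
  refine h2.trans (le_of_eq ?_)
  field_simp
  norm_num

/-- drift: with a suitable Riesz product, the mean of a lacunary cosine sum is at least a fixed
proportion of the sum of its coefficients -/
theorem riesz_drift (q : ℝ) (hq : 1 < q) : ∃ p : ℕ, 0 < p ∧ ∃ CV : ℝ, 4 ≤ CV ∧
    ∀ (lam x α : ℕ → ℝ) (K₁ K₂ : ℕ) (c ℓ : ℝ), (∀ k, 0 < lam k) → (∀ k, q * lam k ≤ lam (k + 1)) →
      (∀ k, 0 ≤ x k) → 0 < ℓ → CV ≤ lam K₁ * ℓ →
      ∃ (μ β : ℕ → ℝ) (n : ℕ), lam K₁ ≤ μ 0 ∧ (∀ j, 6 * μ j ≤ μ (j + 1)) ∧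
        (1 / (8 * (p : ℝ))) * (∑ k ∈ Finset.Ico K₁ K₂, x k) ≤
          (1 / (2 * ℓ)) * ∫ θ in (c - ℓ)..(c + ℓ),
            rp μ β n θ * ∑ k ∈ Finset.Ico K₁ K₂, x k * Real.cos (lam k * θ + α k) := by
  have hq0 : 0 < q := by linarith
  obtain ⟨σ, hσ⟩ : ∃ σ : ℝ, σ = 1 - 1 / q := ⟨_, rfl⟩
  have hσ0 : 0 < σ := by
    rw [hσ]
    have : 1 / q < 1 := by
      rw [div_lt_one hq0]
      exact hq
    linarith
  have hσ1 : σ ≤ 1 := by
    rw [hσ]
    have : 0 < 1 / q := by positivity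
    linarith
  obtain ⟨p₀, hp₀⟩ := pow_unbounded_of_one_lt (max 6 (1 + 2 / σ)) hq
  obtain ⟨p, hp, hpQ⟩ : ∃ p : ℕ, 0 < p ∧ max 6 (1 + 2 / σ) ≤ q ^ p :=
    ⟨p₀ + 1, Nat.succ_pos _, hp₀.le.trans (pow_le_pow_right₀ hq.le (Nat.le_succ _))⟩
  have hQ6 : 6 ≤ q ^ p := le_trans (le_max_left _ _) hpQ
  have hQσ : 2 / (1 - 1 / q) ≤ q ^ p - 1 := by
    have := le_trans (le_max_right _ _) hpQ
    rw [← hσ]
    linarith
  refine ⟨p, hp, max 4 (8 * p * (4 / σ)), le_max_left _ _, ?_⟩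
  intro lam x α K₁ K₂ c ℓ hlam hratio hx hℓ hCV
  have hpR : (0 : ℝ) < p := by exact_mod_cast hp
  have hgrow : ∀ i t, q ^ t * lam i ≤ lam (i + t) := fun i t =>
    pow_growth lam q hq0.le hratio i t
  -- pigeonhole
  obtain ⟨r, hr, hrs⟩ : ∃ r ∈ Finset.range p, (1 / (p : ℝ)) * (∑ k ∈ Finset.Ico K₁ K₂, x k) ≤
      ∑ k ∈ (Finset.Ico K₁ K₂).filter (fun k => (k - K₁) % p = r), x k := by
    apply Finset.exists_le_of_sum_le ⟨0, Finset.mem_range.2 hp⟩
    rw [Finset.sum_const, Finset.card_range, nsmul_eq_mul]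
    rw [Finset.sum_fiberwise_of_maps_to (g := fun k => (k - K₁) % p)
      (fun k _ => Finset.mem_range.2 (Nat.mod_lt _ hp))]
    apply le_of_eq
    field_simp
  obtain ⟨L, hL⟩ : ∃ L : ℝ, L = lam K₁ := ⟨_, rfl⟩
  have hL0 : 0 < L := by rw [hL]; exact hlam _
  rw [← hL] at hCV
  have hLℓ : 0 < L * ℓ := mul_pos hL0 hℓ
  obtain ⟨μ, hμd⟩ : ∃ μ : ℕ → ℝ, ∀ j, μ j = lam (K₁ + r + p * j) := ⟨_, fun _ => rfl⟩
  obtain ⟨β, hβd⟩ : ∃ β : ℕ → ℝ, ∀ j, β j = α (K₁ + r + p * j) := ⟨_, fun _ => rfl⟩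
  have hμQ : ∀ j, q ^ p * μ j ≤ μ (j + 1) := by
    intro j
    rw [hμd, hμd]
    have := hgrow (K₁ + r + p * j) p
    rwa [show K₁ + r + p * j + p = K₁ + r + p * (j + 1) by ring] at this
  have hμ1 : L ≤ μ 0 := by
    rw [hμd, hL]
    have h1 := hgrow K₁ r
    have h2 : (1 : ℝ) ≤ q ^ r := one_le_pow₀ hq.le
    have h3 := hlam K₁
    simp only [mul_zero, add_zero]
    nlinarith
  have hμpos : ∀ j, 0 < μ j := fun j => by rw [hμd]; exact hlam _
  have hμ6 : ∀ j, 6 * μ j ≤ μ (j + 1) := by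
    intro j
    refine le_trans ?_ (hμQ j)
    exact mul_le_mul_of_nonneg_right hQ6 (hμpos j).le
  have hlt : ∀ i j, i < j → q * lam i ≤ lam j := by
    intro i j hij
    obtain ⟨t, rfl⟩ : ∃ t, j = i + (t + 1) := ⟨j - i - 1, by omega⟩
    refine le_trans ?_ (hgrow i (t + 1))
    have h2 : (1 : ℝ) ≤ q ^ t := one_le_pow₀ hq.le
    have h3 : 0 < q * lam i := mul_pos hq0 (hlam i)
    rw [pow_succ]
    nlinarith
  have hlamL : ∀ k, K₁ ≤ k → L ≤ lam k := by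
    intro k hk
    obtain ⟨t, rfl⟩ : ∃ t, k = K₁ + t := ⟨k - K₁, by omega⟩
    have h1 := hgrow K₁ t
    have h2 : (1 : ℝ) ≤ q ^ t := one_le_pow₀ hq.le
    have h3 := hlam K₁
    rw [hL]
    nlinarith
  have hone : 1 / (L * ℓ) ≤ 1 / (σ * (L * ℓ)) := by
    apply one_div_le_one_div_of_le (by positivity)
    nlinarith
  refine ⟨μ, β, K₂, by rw [← hL]; exact hμ1, hμ6, ?_⟩
  -- linearity
  have hlin : (1 / (2 * ℓ)) * ∫ θ in (c - ℓ)..(c + ℓ),
      rp μ β K₂ θ * ∑ k ∈ Finset.Ico K₁ K₂, x k * Real.cos (lam k * θ + α k) =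
      ∑ k ∈ Finset.Ico K₁ K₂, x k * EE μ β c ℓ K₂ (lam k) (α k) := by
    have hc := rp_cont μ β K₂
    have h : ∀ θ, rp μ β K₂ θ * ∑ k ∈ Finset.Ico K₁ K₂, x k * Real.cos (lam k * θ + α k) =
        ∑ k ∈ Finset.Ico K₁ K₂, x k * (rp μ β K₂ θ * Real.cos (lam k * θ + α k)) := by
      intro θ
      rw [Finset.mul_sum]
      refine Finset.sum_congr rfl (fun k _ => ?_)
      ring
    rw [intervalIntegral.integral_congr (fun θ _ => h θ)]
    rw [intervalIntegral.integral_finsetSum, Finset.mul_sum]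
    · refine Finset.sum_congr rfl (fun k _ => ?_)
      rw [intervalIntegral.integral_const_mul]
      unfold EE
      ring
    · intro k _
      apply Continuous.intervalIntegrable
      fun_prop
  rw [hlin]
  -- non resonant
  have hnon : ∀ k, k ∈ Finset.Ico K₁ K₂ → (k - K₁) % p ≠ r →
      -(4 / (σ * (L * ℓ))) ≤ EE μ β c ℓ K₂ (lam k) (α k) := by
    intro k hk hkr
    rw [Finset.mem_Ico] at hk
    have h1 := drift_aux q hq (q ^ p) hQ6 hQσ μ β hμQ L hL0 hμ1 c ℓ hℓ (lam k) (α k)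
      (hlamL k hk.1) 0 K₂ (Nat.zero_le _) (by
        intro j _
        rw [hμd]
        rcases lt_trichotomy (K₁ + r + p * j) k with h | h | h
        · exact Or.inl (hlt _ _ h)
        · exfalso
          apply hkr
          rw [← h, show K₁ + r + p * j - K₁ = r + p * j by omega, Nat.add_mul_mod_self_left,
            Nat.mod_eq_of_lt (Finset.mem_range.1 hr)]
        · exact Or.inr (hlt _ _ h))
    rw [← hσ] at h1
    have h2 := EE_zero μ β c ℓ hℓ (lam k) (α k) (hlam k).ne'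
    rw [abs_of_pos (hlam k)] at h2
    have h3 : 1 / (lam k * ℓ) ≤ 1 / (L * ℓ) := by
      apply one_div_le_one_div_of_le hLℓ
      exact mul_le_mul_of_nonneg_right (hlamL k hk.1) hℓ.le
    have h4 : 4 / (σ * (L * ℓ)) = 4 * (1 / (σ * (L * ℓ))) := by ring
    have h5 : 4 / 3 / (σ * (L * ℓ)) = 4 / 3 * (1 / (σ * (L * ℓ))) := by ring
    have h6 : 0 < 1 / (σ * (L * ℓ)) := by positivity
    rw [h5] at h1
    rw [h4]
    have h7 := (abs_le.1 h1).1
    have h8 := (abs_le.1 h2).1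
    linarith
  -- resonant
  have hres : ∀ k, k ∈ Finset.Ico K₁ K₂ → (k - K₁) % p = r →
      1 / 4 - 4 / (σ * (L * ℓ)) ≤ EE μ β c ℓ K₂ (lam k) (α k) := by
    intro k hk hkr
    rw [Finset.mem_Ico] at hk
    obtain ⟨m, hm⟩ : ∃ m, k = K₁ + r + p * m := by
      refine ⟨(k - K₁) / p, ?_⟩
      have := Nat.mod_add_div (k - K₁) p
      rw [hkr] at this
      omega
    have hmK : m + 1 ≤ K₂ := by
      have : m ≤ p * m := Nat.le_mul_of_pos_left m hp
      omega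
    have hy : lam k = μ m := by rw [hμd, hm]
    have hγ : α k = β m := by rw [hβd, hm]
    have h1 := drift_aux q hq (q ^ p) hQ6 hQσ μ β hμQ L hL0 hμ1 c ℓ hℓ (lam k) (α k)
      (hlamL k hk.1) (m + 1) K₂ hmK (by
        intro j hj
        right
        rw [hμd]
        apply hlt
        rw [hm]
        have : p * m < p * j := Nat.mul_lt_mul_of_pos_left (by omega) hp
        omega)
    rw [← hσ] at h1
    have h2 := EE_succ μ β c ℓ m (lam k) (α k)
    rw [hy, hγ] at h1 h2 ⊢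
    rw [sub_self, sub_self] at h2
    have hS := sum_le_of_growth μ 6 (by norm_num) (hμpos 0) hμ6 m
    have hg6 : 6 ^ m * L ≤ μ m := by
      have := pow_growth μ 6 (by norm_num) hμ6 0 m
      rw [zero_add] at this
      refine le_trans ?_ this
      gcongr
    have hb : ∀ z : ℝ, μ m ≤ z → ∀ δ, |EE μ β c ℓ m z δ| ≤ (5 / 4) * (1 / (L * ℓ)) := by
      intro z hz δ
      have hz0 : 0 < z := lt_of_lt_of_le (hμpos m) hz
      have hmp := hμpos m
      have h3 := EE_bound μ β hμpos c ℓ hℓ m z δ (by rw [abs_of_pos hz0]; linarith)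
      rw [abs_of_pos hz0] at h3
      refine h3.trans ?_
      have h4 : (4 / 5) * (6 ^ m * L) ≤ z - ∑ j ∈ Finset.range m, μ j := by linarith
      have h5 : (3 / 2 : ℝ) ^ m / ((z - ∑ j ∈ Finset.range m, μ j) * ℓ) ≤
          (3 / 2 : ℝ) ^ m / ((4 / 5) * (6 ^ m * L) * ℓ) := by
        apply div_le_div_of_nonneg_left (by positivity) (by positivity)
        exact mul_le_mul_of_nonneg_right h4 hℓ.le
      refine h5.trans ?_
      have h6 : (3 / 2 : ℝ) ^ m / ((4 / 5) * (6 ^ m * L) * ℓ) =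
          (5 / 4) * ((1 / 4) ^ m * (1 / (L * ℓ))) := by
        have : (3 / 2 : ℝ) ^ m = (1 / 4) ^ m * 6 ^ m := by
          rw [← mul_pow]
          norm_num
        rw [this]
        field_simp
      rw [h6]
      have h7 : (1 / 4 : ℝ) ^ m ≤ 1 := pow_le_one₀ (by norm_num) (by norm_num)
      have h8 : 0 < 1 / (L * ℓ) := by positivity
      nlinarith
    have b1 := (abs_le.1 (hb (μ m) le_rfl (β m))).1
    have b2 := (abs_le.1 (hb (μ m + μ m) (by linarith [hμpos m]) (β m + β m))).1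
    have b3 : 1 - 2 * (1 / (L * ℓ)) ≤ EE μ β c ℓ m 0 0 := by
      have h3 := riesz_mass μ β m (hμpos 0) hμ6 c ℓ hℓ
      have e : (1 / (2 * ℓ)) * (∫ θ in (c - ℓ)..(c + ℓ), rp μ β m θ) = EE μ β c ℓ m 0 0 := by
        unfold EE
        simp
      rw [e] at h3
      have h4 := (abs_le.1 h3).1
      have h5 : 2 / (μ 0 * ℓ) ≤ 2 * (1 / (L * ℓ)) := by
        rw [← div_eq_mul_one_div]
        apply div_le_div_of_nonneg_left (by norm_num) hLℓ
        exact mul_le_mul_of_nonneg_right hμ1 hℓ.le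
      linarith
    have h4 : 4 / (σ * (L * ℓ)) = 4 * (1 / (σ * (L * ℓ))) := by ring
    have h5 : 4 / 3 / (σ * (L * ℓ)) = 4 / 3 * (1 / (σ * (L * ℓ))) := by ring
    have h6 : 0 < 1 / (σ * (L * ℓ)) := by positivity
    rw [h5] at h1
    rw [h4]
    have h7 := (abs_le.1 h1).1
    have h8 : 0 < 1 / (L * ℓ) := by positivity
    linarith
  -- conclusion
  obtain ⟨T, hT⟩ : ∃ T : ℝ, T = ∑ k ∈ Finset.Ico K₁ K₂, x k := ⟨_, rfl⟩
  have hT0 : 0 ≤ T := by
    rw [hT]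
    exact Finset.sum_nonneg (fun k _ => hx k)
  obtain ⟨R, hR⟩ : ∃ R : ℝ, R = 4 / (σ * (L * ℓ)) := ⟨_, rfl⟩
  rw [← hR] at hnon hres
  have hlow : ∑ k ∈ Finset.Ico K₁ K₂, ((if (k - K₁) % p = r then x k else 0) * (1 / 4) - R * x k) ≤
      ∑ k ∈ Finset.Ico K₁ K₂, x k * EE μ β c ℓ K₂ (lam k) (α k) := by
    apply Finset.sum_le_sum
    intro k hk
    by_cases h : (k - K₁) % p = r
    · rw [if_pos h]
      have := mul_le_mul_of_nonneg_left (hres k hk h) (hx k)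
      linarith
    · rw [if_neg h]
      have := mul_le_mul_of_nonneg_left (hnon k hk h) (hx k)
      linarith
  rw [Finset.sum_sub_distrib, ← Finset.sum_mul, ← Finset.mul_sum, ← Finset.sum_filter, ← hT] at hlow
  rw [← hT] at hrs ⊢
  have hRp : R ≤ 1 / (8 * (p : ℝ)) := by
    rw [hR, div_le_div_iff₀ (by positivity) (by positivity)]
    have h1 := le_trans (le_max_right _ _) hCV
    have h2 : 8 * (p : ℝ) * (4 / σ) * σ ≤ L * ℓ * σ := mul_le_mul_of_nonneg_right h1 hσ0.le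
    have h3 : 8 * (p : ℝ) * (4 / σ) * σ = 8 * p * 4 := by field_simp
    linarith
  have e1 : (1 / (8 * (p : ℝ))) = (1 / (p : ℝ)) / 4 - 1 / (8 * (p : ℝ)) := by
    field_simp
    norm_num
  have h9 : (1 / (8 * (p : ℝ))) * T = (1 / (p : ℝ)) * T * (1 / 4) - 1 / (8 * (p : ℝ)) * T := by
    nth_rewrite 1 [e1]
    ring
  have h10 := mul_le_mul_of_nonneg_right hRp hT0
  linarith

end Pool.Agent.Helper95.Hada
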