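import Mathlib
import Pool.Agent.Helper95.HadaRiesz

/-! Job B2: Riesz product measures of short intervals. -/

namespace Pool.Agent.Helper95.Hada

lemma rp_factor_lower (u : ℝ) : (1 / 2 : ℝ) ≤ 1 + (1 / 2) * Real.cos u := by
  have := Real.neg_one_le_cos u
  linarith

lemma rp_factor_upper (u : ℝ) : 1 + (1 / 2) * Real.cos u ≤ 3 / 2 := by
  have := Real.cos_le_one u
  linarith

lemma rp_nonneg (μ β : ℕ → ℝ) (n : ℕ) (θ : ℝ) : 0 ≤ rp μ β n θ := by
  unfold rp
  apply Finset.prod_nonneg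
  intro j _
  have := rp_factor_lower (μ j * θ + β j)
  linarith

lemma rp_continuous (μ β : ℕ → ℝ) (n : ℕ) : Continuous (rp μ β n) := by
  unfold rp
  fun_prop

lemma rp_le (μ β : ℕ → ℝ) (n : ℕ) (θ : ℝ) : rp μ β n θ ≤ (3 / 2) ^ n := by
  unfold rp
  calc ∏ j ∈ Finset.range n, (1 + (1 / 2) * Real.cos (μ j * θ + β j))
      ≤ ∏ _j ∈ Finset.range n, (3 / 2 : ℝ) := by
        apply Finset.prod_le_prod
        · intro j _
          have := rp_factor_lower (μ j * θ + β j)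
          linarith
        · intro j _
          exact rp_factor_upper _
    _ = (3 / 2) ^ n := by rw [Finset.prod_const, Finset.card_range]

lemma rp_split (μ β : ℕ → ℝ) (k m : ℕ) (θ : ℝ) :
    rp μ β (k + m) θ = rp μ β k θ * rp (fun j => μ (k + j)) (fun j => β (k + j)) m θ := by
  unfold rp
  rw [Finset.prod_range_add]

lemma growth {μ : ℕ → ℝ} (hμ : ∀ j, 6 * μ j ≤ μ (j + 1)) (k m : ℕ) :
    6 ^ m * μ k ≤ μ (k + m) := by
  induction m with
  | zero => simp
  | succ m ih =>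
    have := hμ (k + m)
    rw [show k + (m + 1) = k + m + 1 by ring, pow_succ]
    linarith

lemma mu_pos {μ : ℕ → ℝ} (hμ0 : 0 < μ 0) (hμ : ∀ j, 6 * μ j ≤ μ (j + 1)) (k : ℕ) : 0 < μ k := by
  have := growth hμ 0 k
  rw [zero_add] at this
  exact lt_of_lt_of_le (by positivity) this

lemma sum_mu_le {μ : ℕ → ℝ} (hμ0 : 0 < μ 0) (hμ : ∀ j, 6 * μ j ≤ μ (j + 1)) (k : ℕ) :
    ∑ j ∈ Finset.range k, μ j ≤ μ k / 5 := by
  induction k with
  | zero => simp; positivity
  | succ k ih =>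
    rw [Finset.sum_range_succ]
    have := hμ k
    linarith

lemma sum_mu_le_of {μ : ℕ → ℝ} (hμ0 : 0 < μ 0) (hμ : ∀ j, 6 * μ j ≤ μ (j + 1)) {k : ℕ} {τ : ℝ}
    (hτ : 0 ≤ τ) (h : ∀ j < k, μ j ≤ τ) : ∑ j ∈ Finset.range k, μ j ≤ (6 / 5) * τ := by
  rcases Nat.eq_zero_or_pos k with h0 | h0
  · subst h0; simp; positivity
  · obtain ⟨k', rfl⟩ : ∃ k', k = k' + 1 := ⟨k - 1, by omega⟩
    rw [Finset.sum_range_succ]
    have h1 := sum_mu_le hμ0 hμ k'
    have h2 := h k' (by omega)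
    linarith

lemma exists_cut_idx {μ : ℕ → ℝ} (hμ0 : 0 < μ 0) (hμ : ∀ j, 6 * μ j ≤ μ (j + 1)) (τ : ℝ) (n : ℕ) :
    ∃ k ≤ n, (∀ j < k, μ j ≤ τ) ∧ ∀ j, k ≤ j → j < n → τ < μ j := by
  induction n with
  | zero => exact ⟨0, le_rfl, by simp, by simp⟩
  | succ n ih =>
    obtain ⟨k, hk, h1, h2⟩ := ih
    by_cases hkn : k = n
    · by_cases hn : μ n ≤ τ
      · refine ⟨n + 1, le_rfl, fun j hj => ?_, fun j hj hj' => by omega⟩
        rcases Nat.lt_succ_iff_lt_or_eq.1 hj with h | h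
        · exact h1 j (by omega)
        · rw [h]; exact hn
      · push Not at hn
        refine ⟨n, by omega, fun j hj => h1 j (by omega), fun j hj hj' => ?_⟩
        have : j = n := by omega
        rw [this]; exact hn
    · refine ⟨k, by omega, h1, fun j hj hj' => ?_⟩
      by_cases hjn : j < n
      · exact h2 j hj hjn
      · have hj2 : j = n := by omega
        rw [hj2]
        have h3 := h2 k le_rfl (by omega)
        have h4 := growth hμ k (n - k)
        rw [show k + (n - k) = n by omega] at h4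
        have h5 : (1 : ℝ) ≤ 6 ^ (n - k) := one_le_pow₀ (by norm_num)
        have h6 := mu_pos hμ0 hμ k
        nlinarith

lemma factor_lip (u v : ℝ) :
    1 + (1 / 2) * Real.cos u ≤ (1 + (1 / 2) * Real.cos v) * Real.exp |u - v| := by
  have h1 : Real.cos u - Real.cos v ≤ |u - v| := by
    have h := Real.cos_sub_cos u v
    have h2 : |Real.cos u - Real.cos v| ≤ |u - v| := by
      rw [h, abs_mul, abs_mul, abs_neg, abs_two]
      have h3 := Real.abs_sin_le_one ((u + v) / 2)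
      have h4 : |Real.sin ((u - v) / 2)| ≤ |(u - v) / 2| := Real.abs_sin_le_abs
      have h5 : |(u - v) / 2| = |u - v| / 2 := by rw [abs_div, abs_two]
      rw [h5] at h4
      have h6 := abs_nonneg (Real.sin ((u - v) / 2))
      have h7 := abs_nonneg (Real.sin ((u + v) / 2))
      nlinarith
    exact (le_abs_self _).trans h2
  have h2 := Real.add_one_le_exp |u - v|
  have h3 := rp_factor_lower v
  have h4 := abs_nonneg (u - v)
  have h5 : (1 + (1 / 2) * Real.cos v) * (|u - v| + 1) ≤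
      (1 + (1 / 2) * Real.cos v) * Real.exp |u - v| :=
    mul_le_mul_of_nonneg_left h2 (by linarith)
  nlinarith

lemma rp_lip {μ : ℕ → ℝ} (β : ℕ → ℝ) (k : ℕ) (hμ : ∀ j, 0 ≤ μ j) (t s : ℝ) :
    rp μ β k t ≤ rp μ β k s * Real.exp ((∑ j ∈ Finset.range k, μ j) * |t - s|) := by
  unfold rp
  rw [Finset.sum_mul, Real.exp_sum, ← Finset.prod_mul_distrib]
  apply Finset.prod_le_prod
  · intro j _
    have := rp_factor_lower (μ j * t + β j)
    linarith
  · intro j _
    have h := factor_lip (μ j * t + β j) (μ j * s + β j)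
    have e : |μ j * t + β j - (μ j * s + β j)| = μ j * |t - s| := by
      rw [show μ j * t + β j - (μ j * s + β j) = μ j * (t - s) by ring, abs_mul,
        abs_of_nonneg (hμ j)]
    rw [e] at h
    exact h

lemma mid_bound {μ : ℕ → ℝ} (hμ0 : 0 < μ 0) (hμ : ∀ j, 6 * μ j ≤ μ (j + 1)) {ρ δ : ℝ}
    (hδ : 0 < δ) (hδρ : δ ≤ ρ) {k d : ℕ} (h1 : d ≠ 0 → 1 / ρ < μ k)
    (h2 : ∀ j < k + d, μ j ≤ 1 / δ) :
    (3 / 2 : ℝ) ^ d ≤ (3 / 2) * (ρ / δ) ^ ((1 : ℝ) / 4) := by
  have hρ : 0 < ρ := lt_of_lt_of_le hδ hδρ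
  have hx1 : 1 ≤ ρ / δ := (one_le_div hδ).2 hδρ
  rcases Nat.eq_zero_or_pos d with h0 | h0
  · subst h0
    have : (1:ℝ) ≤ (ρ / δ) ^ ((1 : ℝ) / 4) := Real.one_le_rpow hx1 (by norm_num)
    rw [pow_zero]; linarith
  · obtain ⟨m, rfl⟩ : ∃ m, d = m + 1 := ⟨d - 1, by omega⟩
    have h3 := h1 (by omega)
    have h4 := h2 (k + m) (by omega)
    have h5 := growth hμ k m
    have h6 : (6:ℝ) ^ m ≤ ρ / δ := by
      have h7 : (6:ℝ) ^ m * (1 / ρ) ≤ 1 / δ := by
        have : (6:ℝ) ^ m * (1 / ρ) ≤ 6 ^ m * μ k := by gcongr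
        linarith
      rw [mul_one_div, div_le_iff₀ hρ] at h7
      calc (6:ℝ) ^ m ≤ 1 / δ * ρ := h7
        _ = ρ / δ := by ring
    have h8 : ((3 / 2 : ℝ) ^ m) ≤ (ρ / δ) ^ ((1 : ℝ) / 4) := by
      have h9 : ((3 / 2 : ℝ) ^ m) ^ 4 ≤ ρ / δ := by
        calc ((3 / 2 : ℝ) ^ m) ^ 4 = ((3 / 2 : ℝ) ^ 4) ^ m := by rw [← pow_mul, ← pow_mul, mul_comm]
          _ ≤ 6 ^ m := by gcongr; norm_num
          _ ≤ ρ / δ := h6
      have h10 : ((3 / 2 : ℝ) ^ m) = (((3 / 2 : ℝ) ^ m) ^ 4) ^ ((1 : ℝ) / 4) := by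
        rw [← Real.rpow_natCast (((3 / 2 : ℝ) ^ m)) 4, ← Real.rpow_mul (by positivity)]
        norm_num
      rw [h10]
      exact Real.rpow_le_rpow (by positivity) h9 (by norm_num)
    rw [pow_succ]
    linarith

/-- Measure of a union of short intervals, with few centres per interval of length `ρ`. -/
theorem riesz_interval
    (hmass : ∀ (μ β : ℕ → ℝ) (n : ℕ), 0 < μ 0 → (∀ j, 6 * μ j ≤ μ (j + 1)) → ∀ (c ℓ : ℝ), 0 < ℓ →
      |(1 / (2 * ℓ)) * (∫ θ in (c - ℓ)..(c + ℓ), rp μ β n θ) - 1| ≤ 2 / (μ 0 * ℓ))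
    (μ β : ℕ → ℝ) (n : ℕ) (hμ0 : 0 < μ 0) (hμ : ∀ j, 6 * μ j ≤ μ (j + 1))
    (c ℓ ρ δ : ℝ) (hδ : 0 < δ) (hδρ : δ ≤ ρ) (hρℓ : ρ ≤ ℓ) (hℓ : 4 ≤ μ 0 * ℓ)
    (B : Finset ℝ) (L : ℕ) (hL : ∀ y : ℝ, (B.filter (fun b => |b - y| ≤ ρ / 2)).card ≤ L) :
    ∑ b ∈ B, (1 / (2 * ℓ)) * (∫ θ in (c - ℓ)..(c + ℓ), if |b - θ| ≤ δ then rp μ β n θ else 0)
      ≤ 1000 * L * (δ / ρ) ^ ((3 : ℝ) / 4) := by
  have hρ : 0 < ρ := lt_of_lt_of_le hδ hδρ
  have hℓ0 : 0 < ℓ := lt_of_lt_of_le hρ hρℓ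
  obtain ⟨k1, hk1n, hk1a, hk1b⟩ := exists_cut_idx hμ0 hμ (1 / ρ) n
  obtain ⟨k2, hk2n, hk2a, hk2b⟩ := exists_cut_idx hμ0 hμ (1 / δ) n
  have hinv : 1 / ρ ≤ 1 / δ := one_div_le_one_div_of_le hδ hδρ
  have hk12 : k1 ≤ k2 := by
    by_contra h
    push Not at h
    have h1 := hk1a k2 h
    have h2 := hk2b k2 le_rfl (by omega)
    linarith
  obtain ⟨d, rfl⟩ := Nat.exists_eq_add_of_le hk12
  obtain ⟨m, rfl⟩ := Nat.exists_eq_add_of_le hk2n
  set Plo : ℝ → ℝ := rp μ β k1 with hPlo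
  set Pmid : ℝ → ℝ := rp (fun j => μ (k1 + j)) (fun j => β (k1 + j)) d with hPmid
  set Phi : ℝ → ℝ := rp (fun j => μ (k1 + d + j)) (fun j => β (k1 + d + j)) m with hPhi
  have hsplit : ∀ θ, rp μ β (k1 + d + m) θ = Plo θ * Pmid θ * Phi θ := by
    intro θ
    rw [rp_split, rp_split]
  have hmid : ∀ θ, Pmid θ ≤ (3 / 2) * (ρ / δ) ^ ((1 : ℝ) / 4) := fun θ =>
    (rp_le _ _ _ _).trans (mid_bound hμ0 hμ hδ hδρ (fun h0 => hk1b k1 le_rfl (by omega)) hk2a)
  set M : ℝ := (3 / 2) * (ρ / δ) ^ ((1 : ℝ) / 4) with hM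
  have hM0 : 0 ≤ M := by positivity
  have hPlo0 : ∀ θ, 0 ≤ Plo θ := rp_nonneg _ _ _
  have hPmid0 : ∀ θ, 0 ≤ Pmid θ := rp_nonneg _ _ _
  have hPhi0 : ∀ θ, 0 ≤ Phi θ := rp_nonneg _ _ _
  have hPloc : Continuous Plo := rp_continuous _ _ _
  have hPhic : Continuous Phi := rp_continuous _ _ _
  have hPc : Continuous (rp μ β (k1 + d + m)) := rp_continuous _ _ _
  -- high part
  have hhigh : ∀ b, ∫ θ in Set.Icc (b - δ) (b + δ), Phi θ ≤ 6 * δ := by
    intro b
    rw [MeasureTheory.integral_Icc_eq_integral_Ioc,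
      ← intervalIntegral.integral_of_le (by linarith : b - δ ≤ b + δ)]
    rcases Nat.eq_zero_or_pos m with h0 | h0
    · have : Phi = fun _ => 1 := by
        funext θ
        rw [hPhi, h0]; simp [rp]
      rw [this, intervalIntegral.integral_const, smul_eq_mul]
      linarith
    · have h1 : 1 / δ < μ (k1 + d) := hk2b (k1 + d) le_rfl (by omega)
      have h2 := hmass (fun j => μ (k1 + d + j)) (fun j => β (k1 + d + j)) m
        (mu_pos hμ0 hμ _) (fun j => hμ _) b δ hδ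
      have h3 : 2 / (μ (k1 + d + 0) * δ) ≤ 2 := by
        rw [add_zero]
        have h4 : 1 < μ (k1 + d) * δ := by
          rwa [div_lt_iff₀ hδ] at h1
        rw [div_le_iff₀ (by linarith)]
        linarith
      have h5 := (abs_le.1 (h2.trans h3)).2
      have h6 : 1 / (2 * δ) * (∫ θ in (b - δ)..(b + δ), Phi θ) ≤ 3 := by linarith
      rw [one_div, inv_mul_le_iff₀ (by positivity)] at h6
      linarith
  -- low part
  have hexp : Real.exp ((6 / 5) * (1 / ρ) * (3 / 2 * ρ)) ≤ 8 := by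
    have e : (6 / 5) * (1 / ρ) * (3 / 2 * ρ) = 9 / 5 := by field_simp; norm_num
    rw [e]
    have h1 : Real.exp (9 / 5) ≤ Real.exp 1 * Real.exp 1 := by
      rw [← Real.exp_add]
      exact Real.exp_le_exp.2 (by norm_num)
    have h2 := Real.exp_one_lt_d9
    have h3 := Real.exp_pos 1
    nlinarith
  have hsum := sum_mu_le_of hμ0 hμ (by positivity : (0:ℝ) ≤ 1 / ρ) hk1a
  have hsum0 : 0 ≤ ∑ j ∈ Finset.range k1, μ j :=
    Finset.sum_nonneg fun j _ => (mu_pos hμ0 hμ j).le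
  have hlow1 : ∀ b t s, t ∈ Set.Icc (b - δ) (b + δ) → s ∈ Set.Icc (b - ρ / 2) (b + ρ / 2) →
      Plo t ≤ 8 * Plo s := by
    intro b t s ht hs
    have h1 := rp_lip β k1 (fun j => (mu_pos hμ0 hμ j).le) t s
    have h2 : |t - s| ≤ 3 / 2 * ρ := by
      rw [abs_le]
      constructor <;> linarith [ht.1, ht.2, hs.1, hs.2]
    have h3 : (∑ j ∈ Finset.range k1, μ j) * |t - s| ≤ (6 / 5) * (1 / ρ) * (3 / 2 * ρ) :=
      mul_le_mul hsum h2 (abs_nonneg _) (by positivity)
    have h4 := (Real.exp_le_exp.2 h3).trans hexp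
    calc Plo t ≤ Plo s * Real.exp ((∑ j ∈ Finset.range k1, μ j) * |t - s|) := h1
      _ ≤ Plo s * 8 := mul_le_mul_of_nonneg_left h4 (hPlo0 s)
      _ = 8 * Plo s := mul_comm _ _
  set K : ℝ → ℝ := fun b => ∫ s in Set.Icc (b - ρ / 2) (b + ρ / 2), Plo s with hK
  have hlow : ∀ b t, t ∈ Set.Icc (b - δ) (b + δ) → Plo t ≤ (8 / ρ) * K b := by
    intro b t ht
    have h1 : ∫ _s in Set.Icc (b - ρ / 2) (b + ρ / 2), Plo t ≤
        ∫ s in Set.Icc (b - ρ / 2) (b + ρ / 2), 8 * Plo s := by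
      apply MeasureTheory.setIntegral_mono_on
      · exact (continuous_const).integrableOn_Icc
      · exact (continuous_const.mul hPloc).integrableOn_Icc
      · exact measurableSet_Icc
      · intro s hs
        exact hlow1 b t s ht hs
    rw [MeasureTheory.integral_const_mul, MeasureTheory.setIntegral_const,
      Real.volume_real_Icc_of_le (by linarith), smul_eq_mul] at h1
    have h2 : b + ρ / 2 - (b - ρ / 2) = ρ := by ring
    rw [h2] at h1
    have h3 : (8 / ρ) * K b = (8 * K b) / ρ := by ring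
    rw [h3, le_div_iff₀ hρ]
    linarith
  have hK0 : ∀ b, 0 ≤ K b := fun b =>
    MeasureTheory.setIntegral_nonneg measurableSet_Icc fun s _ => hPlo0 s
  -- full integral near a centre
  have hI : ∀ b, ∫ θ in Set.Icc (b - δ) (b + δ), rp μ β (k1 + d + m) θ ≤
      (8 / ρ) * K b * M * (6 * δ) := by
    intro b
    have hc0 : 0 ≤ (8 / ρ) * K b * M := by
      have := hK0 b
      positivity
    calc ∫ θ in Set.Icc (b - δ) (b + δ), rp μ β (k1 + d + m) θ
        ≤ ∫ θ in Set.Icc (b - δ) (b + δ), (8 / ρ) * K b * M * Phi θ := by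
          apply MeasureTheory.setIntegral_mono_on
          · exact hPc.integrableOn_Icc
          · exact (continuous_const.mul hPhic).integrableOn_Icc
          · exact measurableSet_Icc
          · intro θ hθ
            rw [hsplit]
            apply mul_le_mul_of_nonneg_right _ (hPhi0 θ)
            exact mul_le_mul (hlow b θ hθ) (hmid θ) (hPmid0 θ) (by
              have := hK0 b
              positivity)
      _ = (8 / ρ) * K b * M * ∫ θ in Set.Icc (b - δ) (b + δ), Phi θ :=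
          MeasureTheory.integral_const_mul _ _
      _ ≤ (8 / ρ) * K b * M * (6 * δ) := mul_le_mul_of_nonneg_left (hhigh b) hc0
  -- the indicator integral
  have hJ : ∀ b, (∫ θ in (c - ℓ)..(c + ℓ), if |b - θ| ≤ δ then rp μ β (k1 + d + m) θ else 0) ≤
      if |b - c| ≤ 2 * ℓ then (8 / ρ) * K b * M * (6 * δ) else 0 := by
    intro b
    rw [intervalIntegral.integral_of_le (by linarith : c - ℓ ≤ c + ℓ)]
    split_ifs with hb
    · refine le_trans ?_ (hI b)
      have e : (fun θ => if |b - θ| ≤ δ then rp μ β (k1 + d + m) θ else 0) =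
          (Set.Icc (b - δ) (b + δ)).indicator (rp μ β (k1 + d + m)) := by
        funext θ
        rw [Set.indicator_apply]
        have : |b - θ| ≤ δ ↔ θ ∈ Set.Icc (b - δ) (b + δ) := by
          rw [abs_le, Set.mem_Icc]
          constructor <;> rintro ⟨h1, h2⟩ <;> constructor <;> linarith
        by_cases h : |b - θ| ≤ δ
        · rw [if_pos h, if_pos (this.1 h)]
        · rw [if_neg h, if_neg (fun h' => h (this.2 h'))]
      rw [e, MeasureTheory.setIntegral_indicator measurableSet_Icc]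
      apply MeasureTheory.setIntegral_mono_set
      · exact hPc.integrableOn_Icc
      · exact Filter.Eventually.of_forall fun θ => rp_nonneg _ _ _ _
      · exact Filter.Eventually.of_forall (fun θ hθ => hθ.2)
    · apply le_of_eq
      rw [MeasureTheory.setIntegral_congr_fun (g := fun _ => (0:ℝ)) measurableSet_Ioc]
      · simp
      · intro θ hθ
        simp only
        rw [if_neg]
        intro h
        apply hb
        have h1 : |θ - c| ≤ ℓ := by
          rw [abs_le]; constructor <;> linarith [hθ.1, hθ.2]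
        calc |b - c| = |(b - θ) + (θ - c)| := by congr 1; ring
          _ ≤ |b - θ| + |θ - c| := abs_add_le _ _
          _ ≤ 2 * ℓ := by linarith
  -- summation
  have hsumK : ∑ b ∈ B, (if |b - c| ≤ 2 * ℓ then K b else 0) ≤ L * (7 * ℓ) := by
    have h1 : ∀ b ∈ B, (if |b - c| ≤ 2 * ℓ then K b else 0) ≤
        ∫ s in Set.Icc (c - 3 * ℓ) (c + 3 * ℓ),
          (Set.Icc (b - ρ / 2) (b + ρ / 2)).indicator Plo s := by
      intro b _
      split_ifs with hb
      · rw [MeasureTheory.setIntegral_indicator measurableSet_Icc, hK]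
        rw [abs_le] at hb
        have : Set.Icc (c - 3 * ℓ) (c + 3 * ℓ) ∩ Set.Icc (b - ρ / 2) (b + ρ / 2) =
            Set.Icc (b - ρ / 2) (b + ρ / 2) := by
          apply Set.inter_eq_right.2
          intro s hs
          rw [Set.mem_Icc] at hs ⊢
          constructor <;> linarith [hs.1, hs.2, hb.1, hb.2]
        rw [this]
      · apply MeasureTheory.setIntegral_nonneg measurableSet_Icc
        intro s _
        exact Set.indicator_nonneg (fun s _ => hPlo0 s) s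
    refine (Finset.sum_le_sum h1).trans ?_
    have hint : ∀ b ∈ B, MeasureTheory.IntegrableOn
        ((Set.Icc (b - ρ / 2) (b + ρ / 2)).indicator Plo) (Set.Icc (c - 3 * ℓ) (c + 3 * ℓ)) := by
      intro b _
      exact MeasureTheory.Integrable.indicator hPloc.integrableOn_Icc measurableSet_Icc
    rw [← MeasureTheory.integral_finset_sum B hint]
    have h2 : ∫ s in Set.Icc (c - 3 * ℓ) (c + 3 * ℓ),
        ∑ b ∈ B, (Set.Icc (b - ρ / 2) (b + ρ / 2)).indicator Plo s ≤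
        ∫ s in Set.Icc (c - 3 * ℓ) (c + 3 * ℓ), L * Plo s := by
      apply MeasureTheory.setIntegral_mono_on
      · exact MeasureTheory.integrable_finset_sum B hint
      · exact (continuous_const.mul hPloc).integrableOn_Icc
      · exact measurableSet_Icc
      · intro s _
        have h3 : ∑ b ∈ B, (Set.Icc (b - ρ / 2) (b + ρ / 2)).indicator Plo s =
            ((B.filter (fun b => |b - s| ≤ ρ / 2)).card : ℝ) * Plo s := by
          rw [← nsmul_eq_mul, ← Finset.sum_const, Finset.sum_filter]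
          refine Finset.sum_congr rfl fun b _ => ?_
          rw [Set.indicator_apply]
          have : |b - s| ≤ ρ / 2 ↔ s ∈ Set.Icc (b - ρ / 2) (b + ρ / 2) := by
            rw [abs_le, Set.mem_Icc]
            constructor <;> rintro ⟨h1, h2⟩ <;> constructor <;> linarith
          by_cases h : |b - s| ≤ ρ / 2
          · rw [if_pos h, if_pos (this.1 h)]
          · rw [if_neg h, if_neg (fun h' => h (this.2 h'))]
        rw [h3]
        apply mul_le_mul_of_nonneg_right _ (hPlo0 s)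
        exact_mod_cast hL s
    refine h2.trans ?_
    rw [MeasureTheory.integral_const_mul]
    apply mul_le_mul_of_nonneg_left _ (by positivity)
    rw [MeasureTheory.integral_Icc_eq_integral_Ioc,
      ← intervalIntegral.integral_of_le (by linarith : c - 3 * ℓ ≤ c + 3 * ℓ)]
    have h4 := hmass μ β k1 hμ0 hμ c (3 * ℓ) (by positivity)
    have h5 : 2 / (μ 0 * (3 * ℓ)) ≤ 1 / 6 := by
      rw [div_le_iff₀ (by positivity)]
      linarith
    have h6 := (abs_le.1 (h4.trans h5)).2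
    have h7 : 1 / (2 * (3 * ℓ)) * (∫ θ in (c - 3 * ℓ)..(c + 3 * ℓ), Plo θ) ≤ 7 / 6 := by linarith
    rw [one_div, inv_mul_le_iff₀ (by positivity)] at h7
    linarith
  have hfinal : ∑ b ∈ B, (1 / (2 * ℓ)) *
      (∫ θ in (c - ℓ)..(c + ℓ), if |b - θ| ≤ δ then rp μ β (k1 + d + m) θ else 0) ≤
      (1 / (2 * ℓ)) * ((8 / ρ) * M * (6 * δ)) * (L * (7 * ℓ)) := by
    calc ∑ b ∈ B, (1 / (2 * ℓ)) *
        (∫ θ in (c - ℓ)..(c + ℓ), if |b - θ| ≤ δ then rp μ β (k1 + d + m) θ else 0)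
        ≤ ∑ b ∈ B, (1 / (2 * ℓ)) *
          (if |b - c| ≤ 2 * ℓ then (8 / ρ) * K b * M * (6 * δ) else 0) := by
          apply Finset.sum_le_sum
          intro b _
          exact mul_le_mul_of_nonneg_left (hJ b) (by positivity)
      _ = (1 / (2 * ℓ)) * ((8 / ρ) * M * (6 * δ)) *
          ∑ b ∈ B, (if |b - c| ≤ 2 * ℓ then K b else 0) := by
          rw [Finset.mul_sum]
          refine Finset.sum_congr rfl fun b _ => ?_
          split_ifs
          · ring
          · ring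
      _ ≤ (1 / (2 * ℓ)) * ((8 / ρ) * M * (6 * δ)) * (L * (7 * ℓ)) :=
          mul_le_mul_of_nonneg_left hsumK (by positivity)
  refine hfinal.trans ?_
  have hxy : (ρ / δ) ^ ((1 : ℝ) / 4) * (δ / ρ) = (δ / ρ) ^ ((3 : ℝ) / 4) := by
    have h1 : ρ / δ = (δ / ρ)⁻¹ := by rw [inv_div]
    rw [h1, Real.inv_rpow (by positivity), ← Real.rpow_neg (by positivity)]
    have h2 : (δ / ρ) = (δ / ρ) ^ (1:ℝ) := (Real.rpow_one _).symm
    nth_rewrite 2 [h2]
    rw [← Real.rpow_add (by positivity)]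
    norm_num
  have e : (1 / (2 * ℓ)) * ((8 / ρ) * M * (6 * δ)) * (L * (7 * ℓ)) =
      252 * L * ((ρ / δ) ^ ((1 : ℝ) / 4) * (δ / ρ)) := by
    rw [hM]; field_simp; ring
  rw [e, hxy]
  have : 0 ≤ (L : ℝ) * (δ / ρ) ^ ((3 : ℝ) / 4) := by positivity
  nlinarith

end Pool.Agent.Helper95.Hada
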