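import Pool.Agent.Helper95.HadaCore

open Filter Topology Set

namespace Pool.Agent.Helper95.Hada

/-! C1: levels -/
theorem Ser.summable_x (S : Ser) {s : ℝ} (hs : 0 < s) : Summable (fun k => S.x k s) := S.summ s hs

theorem Ser.M_anti' (S : Ser) {s s' : ℝ} (hs : 0 < s) (h : s ≤ s') : S.M s' ≤ S.M s :=
  Summable.tsum_le_tsum (fun k => S.x_anti k h) (S.summable_x (hs.trans_le h)) (S.summable_x hs)

theorem Ser.M_nonneg' (S : Ser) (s : ℝ) : 0 ≤ S.M s := tsum_nonneg fun k => S.x_nonneg k s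

theorem Ser.lam_zero_le' (S : Ser) (k : ℕ) : S.lam 0 ≤ S.lam k := by
  induction k with
  | zero => exact le_rfl
  | succ k ih =>
    have h1 := S.ratio k
    have h2 := S.lam_pos k
    have h3 := S.one_lt_q
    nlinarith

theorem Ser.continuousOn_M' (S : Ser) {s₀ : ℝ} (hs : 0 < s₀) : ContinuousOn S.M (Ici s₀) := by
  refine continuousOn_tsum (f := fun k s => S.x k s) (u := fun k => S.x k s₀) ?_ (S.summable_x hs) ?_
  · intro k
    unfold Ser.x
    fun_prop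
  · intro k s hs'
    rw [Real.norm_eq_abs, abs_of_nonneg (S.x_nonneg k s)]
    exact S.x_anti k hs'

theorem Ser.M_decay' (S : Ser) {s₁ s₂ : ℝ} (hs : 0 < s₁) (h : s₁ ≤ s₂) :
    S.M s₂ ≤ Real.exp (-(S.lam 0 * (s₂ - s₁))) * S.M s₁ := by
  unfold Ser.M
  rw [← tsum_mul_left]
  refine Summable.tsum_le_tsum (fun k => ?_) (S.summable_x (hs.trans_le h))
    ((S.summable_x hs).mul_left _)
  unfold Ser.x
  have h1 : Real.exp (-(S.lam 0 * (s₂ - s₁))) * (‖S.a k‖ * Real.exp (-(S.lam k * s₁)))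
      = ‖S.a k‖ * Real.exp (-(S.lam 0 * (s₂ - s₁)) + -(S.lam k * s₁)) := by
    rw [Real.exp_add]; ring
  rw [h1]
  apply mul_le_mul_of_nonneg_left _ (norm_nonneg _)
  apply Real.exp_le_exp.2
  have h2 := S.lam_zero_le' k
  nlinarith

theorem Ser.exists_M_eq' (S : Ser) (hS : Tendsto S.M (𝓝[>] 0) atTop) (c : ℝ) (hc : 1 ≤ c) :
    ∃ s : ℝ, 0 < s ∧ S.M s = c := by
  obtain ⟨s₁, h1, h2⟩ := ((hS.eventually_ge_atTop c).and self_mem_nhdsWithin).exists
  have hs1 : 0 < s₁ := h2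
  have hl := S.lam_pos 0
  have hM := S.M_nonneg' s₁
  set s₂ := s₁ + S.M s₁ / S.lam 0 with hs2
  have h12 : s₁ ≤ s₂ := by
    have : 0 ≤ S.M s₁ / S.lam 0 := div_nonneg hM hl.le
    linarith
  have h3 : S.M s₂ ≤ c := by
    have h4 := S.M_decay' hs1 h12
    have h5 : S.lam 0 * (s₂ - s₁) = S.M s₁ := by
      rw [hs2]; field_simp; ring
    rw [h5] at h4
    have h6 : Real.exp (-S.M s₁) * S.M s₁ ≤ 1 := by
      rw [Real.exp_neg, inv_mul_le_iff₀ (Real.exp_pos _), mul_one]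
      linarith [Real.add_one_le_exp (S.M s₁)]
    linarith
  have hcont : ContinuousOn S.M (Icc s₁ s₂) :=
    (S.continuousOn_M' hs1).mono (fun x hx => hx.1)
  obtain ⟨s, hs, hs'⟩ := intermediate_value_Icc' h12 hcont ⟨h3, h1⟩
  exact ⟨s, hs1.trans_le hs.1, hs'⟩

theorem exists_lev (S : Ser) (hS : Tendsto S.M (𝓝[>] 0) atTop) (d : ℝ) (hd : 0 < d) :
    Nonempty (Lev S d) := by
  have h : ∀ n : ℕ, ∃ s : ℝ, 0 < s ∧ S.M s = (1 + d) ^ n := fun n =>
    S.exists_M_eq' hS _ (one_le_pow₀ (by linarith))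
  choose s hs hM using h
  exact ⟨⟨s, hd, hs, hM⟩⟩

section Levels
variable {S : Ser} {d : ℝ} (L : Lev S d)

theorem Lev.anti : StrictAnti L.s := by
  refine strictAnti_nat_of_succ_lt fun n => ?_
  by_contra hcon
  push_neg at hcon
  have h1 := S.M_anti' (L.s_pos n) hcon
  rw [L.hM, L.hM] at h1
  have h2 : (1 + d) ^ n < (1 + d) ^ (n + 1) :=
    pow_lt_pow_right₀ (by linarith [L.d_pos]) (Nat.lt_succ_self n)
  linarith

theorem Lev.η_pos (n : ℕ) : 0 < L.η n := sub_pos.2 (L.anti (Nat.lt_succ_self n))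

include L in
theorem Lev.exists_ne' : ∃ k, S.a k ≠ 0 := by
  by_contra hcon
  push_neg at hcon
  have h1 := L.hM 0
  have h2 : S.M (L.s 0) = 0 := by
    unfold Ser.M Ser.x
    simp [hcon]
  rw [h2] at h1
  simp at h1

include L in
theorem Lev.M_strict' {u v : ℝ} (hu : 0 < u) (huv : u < v) : S.M v < S.M u := by
  obtain ⟨k, hk⟩ := L.exists_ne'
  refine Summable.tsum_lt_tsum (i := k) (fun j => S.x_anti j huv.le) ?_
    (S.summable_x (hu.trans huv)) (S.summable_x hu)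
  unfold Ser.x
  apply mul_lt_mul_of_pos_left _ (norm_pos_iff.2 hk)
  apply Real.exp_lt_exp.2
  have := S.lam_pos k
  nlinarith

theorem Ser.x_mul' (S : Ser) (k : ℕ) (t h : ℝ) :
    S.x k (t - h) * S.x k (t + h) = S.x k t * S.x k t := by
  unfold Ser.x
  have h1 : ‖S.a k‖ * Real.exp (-(S.lam k * (t - h))) * (‖S.a k‖ * Real.exp (-(S.lam k * (t + h))))
      = ‖S.a k‖ * ‖S.a k‖ * (Real.exp (-(S.lam k * (t - h))) * Real.exp (-(S.lam k * (t + h)))) := by
    ring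
  have h2 : ‖S.a k‖ * Real.exp (-(S.lam k * t)) * (‖S.a k‖ * Real.exp (-(S.lam k * t)))
      = ‖S.a k‖ * ‖S.a k‖ * (Real.exp (-(S.lam k * t)) * Real.exp (-(S.lam k * t))) := by
    ring
  rw [h1, h2, ← Real.exp_add, ← Real.exp_add]
  congr 2
  ring

theorem amgm_aux' {A B C e : ℝ} (hA : 0 ≤ A) (hB : 0 ≤ B) (hC : 0 ≤ C) (he : 0 < e)
    (h : A * B = C * C) : C ≤ (A * e⁻¹ + B * e) * 2⁻¹ := by
  have hp : 0 ≤ A * e⁻¹ := mul_nonneg hA (inv_nonneg.2 he.le)
  have hq : 0 ≤ B * e := mul_nonneg hB he.le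
  have hpq : (A * e⁻¹) * (B * e) = C * C := by
    rw [← h]; field_simp
  by_contra hcon
  push_neg at hcon
  generalize A * e⁻¹ = p at *
  generalize B * e = q at *
  have h1 : p + q < 2 * C := by linarith
  nlinarith [sq_nonneg (p - q)]

theorem Lev.η_anti : Antitone L.η := by
  refine antitone_nat_of_succ_le fun n => ?_
  have hd := L.d_pos
  have hh := L.η_pos n
  have hη1 : L.η (n + 1) = L.s (n + 1) - L.s (n + 1 + 1) := rfl
  set h := L.η n with hdef
  set t := L.s (n + 1) with tdef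
  have hsn : L.s n = t + h := by rw [hdef, Lev.η]; ring
  rw [hη1]
  by_contra hcon
  push_neg at hcon
  have hlt : L.s (n + 1 + 1) < t - h := by linarith
  have hpos : 0 < t - h := (L.s_pos _).trans hlt
  have ht : 0 < t := L.s_pos _
  have hM2 := L.M_strict' (L.s_pos _) hlt
  rw [L.hM] at hM2
  have hsum : S.M t ≤ (S.M (t - h) * (1 + d)⁻¹ + S.M (t + h) * (1 + d)) * 2⁻¹ := by
    have s1 := S.summable_x hpos
    have s2 := S.summable_x (s := t + h) (by linarith)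
    have : (S.M (t - h) * (1 + d)⁻¹ + S.M (t + h) * (1 + d)) * 2⁻¹
        = ∑' k, (S.x k (t - h) * (1 + d)⁻¹ + S.x k (t + h) * (1 + d)) * 2⁻¹ := by
      unfold Ser.M
      rw [tsum_mul_right, Summable.tsum_add (s1.mul_right _) (s2.mul_right _), tsum_mul_right,
        tsum_mul_right]
    rw [this]
    refine Summable.tsum_le_tsum (fun k => ?_) (S.summable_x ht)
      (((s1.mul_right _).add (s2.mul_right _)).mul_right _)
    exact amgm_aux' (S.x_nonneg _ _) (S.x_nonneg _ _) (S.x_nonneg _ _) (by linarith)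
      (S.x_mul' k t h)
  have hMt : S.M t = (1 + d) ^ (n + 1) := L.hM _
  have hMth : S.M (t + h) = (1 + d) ^ n := by rw [← hsn]; exact L.hM _
  rw [hMt, hMth] at hsum
  have h1 : (1 + d) ^ (n + 1) = (1 + d) ^ n * (1 + d) := pow_succ _ _
  have h2 : (1 + d) ^ (n + 1 + 1) = (1 + d) ^ (n + 1) * (1 + d) := pow_succ _ _
  have h3 : (1 + d) ^ (n + 1) ≤ S.M (t - h) * (1 + d)⁻¹ := by linarith
  rw [← div_eq_mul_inv, le_div_iff₀ (by linarith)] at h3
  linarith

theorem Lev.tendsto_s : Tendsto L.s atTop (𝓝 0) := by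
  have hd := L.d_pos
  refine tendsto_order.2 ⟨fun a ha => ?_, fun e he => ?_⟩
  · exact Eventually.of_forall fun n => ha.trans (L.s_pos n)
  · obtain ⟨N, hN⟩ := pow_unbounded_of_one_lt (S.M e) (show 1 < 1 + d by linarith)
    refine (eventually_ge_atTop N).mono fun n hn => ?_
    refine (L.anti.antitone hn).trans_lt ?_
    by_contra hcon
    push_neg at hcon
    have h1 := S.M_anti' he hcon
    rw [L.hM] at h1
    linarith

/-! C2: mass distribution. -/
theorem Ser.summable_x' (S : Ser) {s : ℝ} (hs : 0 < s) : Summable (fun k => S.x k s) :=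
  S.summ s hs

theorem Ser.tail_eq2 (S : Ser) (K : ℕ) {s : ℝ} (hs : 0 < s) :
    S.M s - S.m K s = ∑' k, S.x (k + K) s := by
  have h := (S.summable_x' hs).sum_add_tsum_nat_add K
  simp only [Ser.M, Ser.m]
  rw [← h]; ring

theorem Ser.tail_nonneg (S : Ser) (K : ℕ) {s : ℝ} (hs : 0 < s) : 0 ≤ S.M s - S.m K s := by
  have := S.m_le_M K hs
  linarith

theorem Ser.m_nonneg (S : Ser) (K : ℕ) (s : ℝ) : 0 ≤ S.m K s :=
  Finset.sum_nonneg fun k _ => S.x_nonneg k s

theorem Ser.x_eq (S : Ser) (k : ℕ) (s s' : ℝ) :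
    S.x k s' = S.x k s * Real.exp (S.lam k * (s - s')) := by
  simp only [Ser.x]
  rw [mul_assoc, ← Real.exp_add]
  congr 2
  ring

theorem Lev.high (n K : ℕ) (Y : ℝ) (hY : ∀ k, K ≤ k → Y ≤ S.lam k) :
    S.M (L.s n) - S.m K (L.s n) ≤ Real.exp (-(Y * L.η n)) * (1 + d) ^ (n + 1) := by
  have hη := L.η_pos n
  have h1 : S.M (L.s n) - S.m K (L.s n) ≤
      Real.exp (-(Y * L.η n)) * (S.M (L.s (n + 1)) - S.m K (L.s (n + 1))) := by
    rw [S.tail_eq2 K (L.s_pos n), S.tail_eq2 K (L.s_pos (n + 1)), ← tsum_mul_left]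
    refine Summable.tsum_le_tsum (fun k => ?_) ?_ ?_
    · rw [S.x_eq (k + K) (L.s (n + 1)) (L.s n), mul_comm]
      refine mul_le_mul_of_nonneg_right ?_ (S.x_nonneg _ _)
      apply Real.exp_le_exp.mpr
      have h2 := hY (k + K) (Nat.le_add_left _ _)
      have h3 : Y * L.η n ≤ S.lam (k + K) * L.η n := mul_le_mul_of_nonneg_right h2 hη.le
      simp only [Lev.η] at h3 ⊢
      linarith
    · exact (summable_nat_add_iff K).mpr (S.summable_x' (L.s_pos n))
    · exact ((summable_nat_add_iff K).mpr (S.summable_x' (L.s_pos (n + 1)))).mul_left _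
  refine h1.trans (mul_le_mul_of_nonneg_left ?_ (Real.exp_pos _).le)
  have h2 := S.m_nonneg K (L.s (n + 1))
  rw [← L.hM (n + 1)]
  linarith

theorem Lev.fresh (n K : ℕ) (Y : ℝ) (hY : ∀ k, K ≤ k → Y ≤ S.lam k) :
    (S.M (L.s (n + 1)) - S.m K (L.s (n + 1))) * (1 - Real.exp (-(Y * L.η n))) ≤ d * (1 + d) ^ n := by
  have hη := L.η_pos n
  have h1 : (S.M (L.s n) - S.m K (L.s n)) ≤
      Real.exp (-(Y * L.η n)) * (S.M (L.s (n + 1)) - S.m K (L.s (n + 1))) := by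
    rw [S.tail_eq2 K (L.s_pos n), S.tail_eq2 K (L.s_pos (n + 1)), ← tsum_mul_left]
    refine Summable.tsum_le_tsum (fun k => ?_) ?_ ?_
    · rw [S.x_eq (k + K) (L.s (n + 1)) (L.s n), mul_comm]
      refine mul_le_mul_of_nonneg_right ?_ (S.x_nonneg _ _)
      apply Real.exp_le_exp.mpr
      have h2 := hY (k + K) (Nat.le_add_left _ _)
      have h3 : Y * L.η n ≤ S.lam (k + K) * L.η n := mul_le_mul_of_nonneg_right h2 hη.le
      simp only [Lev.η] at h3 ⊢
      linarith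
    · exact (summable_nat_add_iff K).mpr (S.summable_x' (L.s_pos n))
    · exact ((summable_nat_add_iff K).mpr (S.summable_x' (L.s_pos (n + 1)))).mul_left _
  have h2 : S.m K (L.s n) ≤ S.m K (L.s (n + 1)) := by
    refine Finset.sum_le_sum fun k _ => S.x_anti k ?_
    simp only [Lev.η] at hη
    linarith
  have h3 : S.M (L.s (n + 1)) - S.M (L.s n) = d * (1 + d) ^ n := by
    rw [L.hM, L.hM]; ring
  nlinarith

theorem Lev.notlow (n K : ℕ) (y : ℝ) (hy0 : 0 ≤ y) (hy : ∀ k < K, S.lam k ≤ y) :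
    d * (1 + d) ^ n - y * L.η n * (1 + d) ^ (n + 1) ≤ S.M (L.s (n + 1)) - S.m K (L.s (n + 1)) := by
  have hη := L.η_pos n
  have h3 : S.M (L.s (n + 1)) - S.M (L.s n) = d * (1 + d) ^ n := by
    rw [L.hM, L.hM]; ring
  have h4 : S.m K (L.s (n + 1)) - S.m K (L.s n) ≤ y * L.η n * S.m K (L.s (n + 1)) := by
    simp only [Ser.m]
    rw [← Finset.sum_sub_distrib, Finset.mul_sum]
    refine Finset.sum_le_sum fun k hk => ?_
    have hk' : k < K := by simpa using hk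
    rw [S.x_eq k (L.s (n + 1)) (L.s n)]
    have h5 := S.x_nonneg k (L.s (n + 1))
    have h6 : 1 + S.lam k * (L.s (n + 1) - L.s n) ≤ Real.exp (S.lam k * (L.s (n + 1) - L.s n)) := by
      have := Real.add_one_le_exp (S.lam k * (L.s (n + 1) - L.s n))
      linarith
    have h7 : S.lam k * L.η n ≤ y * L.η n := mul_le_mul_of_nonneg_right (hy k hk') hη.le
    have h8 : 1 - Real.exp (S.lam k * (L.s (n + 1) - L.s n)) ≤ y * L.η n := by
      simp only [Lev.η] at h7 ⊢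
      linarith
    have h9 := mul_le_mul_of_nonneg_left h8 h5
    linarith
  have h5 : S.m K (L.s (n + 1)) ≤ (1 + d) ^ (n + 1) := by
    rw [← L.hM (n + 1)]
    exact S.m_le_M K (L.s_pos _)
  have h6 : y * L.η n * S.m K (L.s (n + 1)) ≤ y * L.η n * (1 + d) ^ (n + 1) :=
    mul_le_mul_of_nonneg_left h5 (mul_nonneg hy0 hη.le)
  have h7 := S.tail_nonneg K (L.s_pos n)
  linarith

theorem pow_kappa (d κ : ℝ) (hd : 0 < d) (hκ : 0 ≤ κ) (hκ1 : κ ≤ 1) (j : ℕ) :
    (1 + κ * d) ^ j - 1 ≤ κ * ((1 + d) ^ j - 1) := by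
  induction j with
  | zero => simp
  | succ j ih =>
    have h1 : 0 ≤ κ * d := mul_nonneg hκ hd.le
    have h2 : (1 : ℝ) ≤ (1 + d) ^ j := one_le_pow₀ (by linarith)
    have h3 : (1 + κ * d) ^ (j + 1) = (1 + κ * d) ^ j * (1 + κ * d) := pow_succ _ _
    have h4 : (1 + d) ^ (j + 1) = (1 + d) ^ j * (1 + d) := pow_succ _ _
    rw [h3, h4]
    have h5 : (1 + κ * d) ^ j * (1 + κ * d) ≤ (1 + κ * ((1 + d) ^ j - 1)) * (1 + κ * d) :=
      mul_le_mul_of_nonneg_right (by linarith) (by linarith)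
    have h6 : 0 ≤ (κ * d) * (1 - κ) * ((1 + d) ^ j - 1) :=
      mul_nonneg (mul_nonneg h1 (by linarith)) (by linarith)
    nlinarith

/-- growth of old terms -/
theorem Lev.growth (n N : ℕ) (hnN : n ≤ N) (κ : ℝ) (hκ : 0 ≤ κ) (hκ1 : κ ≤ 1) (A : Finset ℕ)
    (hA : ∀ k ∈ A, Real.exp (S.lam k * L.η n) ≤ 1 + κ * d) :
    ∑ k ∈ A, S.x k (L.s N) ≤ ∑ k ∈ A, S.x k (L.s n) + κ * ((1 + d) ^ N - (1 + d) ^ n) := by
  have hd := L.d_pos
  obtain ⟨j, rfl⟩ := Nat.exists_eq_add_of_le hnN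
  have h1 : ∀ j : ℕ, L.s n - L.s (n + j) ≤ j * L.η n := by
    intro j
    induction j with
    | zero => simp
    | succ j ih =>
      have h2 : L.η (n + j) ≤ L.η n := L.η_anti (Nat.le_add_right _ _)
      have h3 : L.s (n + (j + 1)) = L.s (n + j) - L.η (n + j) := by
        simp only [Lev.η]
        rw [← add_assoc]; ring
      rw [h3]
      push_cast
      linarith
  have hterm : ∀ k ∈ A, S.x k (L.s (n + j)) ≤ S.x k (L.s n) * (1 + κ * ((1 + d) ^ j - 1)) := by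
    intro k hk
    rw [S.x_eq k (L.s n) (L.s (n + j))]
    refine mul_le_mul_of_nonneg_left ?_ (S.x_nonneg _ _)
    calc Real.exp (S.lam k * (L.s n - L.s (n + j)))
        ≤ Real.exp (j * (S.lam k * L.η n)) := by
          apply Real.exp_le_exp.mpr
          have := mul_le_mul_of_nonneg_left (h1 j) (S.lam_pos k).le
          linarith
      _ = (Real.exp (S.lam k * L.η n)) ^ j := by rw [Real.exp_nat_mul]
      _ ≤ (1 + κ * d) ^ j := pow_le_pow_left₀ (Real.exp_pos _).le (hA k hk) j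
      _ ≤ 1 + κ * ((1 + d) ^ j - 1) := by
          have := pow_kappa d κ hd hκ hκ1 j
          linarith
  have hsum : ∑ k ∈ A, S.x k (L.s n) ≤ (1 + d) ^ n := by
    rw [← L.hM n]
    exact (S.summable_x' (L.s_pos n)).sum_le_tsum A (fun k _ => S.x_nonneg k _)
  have h2 : (1 : ℝ) ≤ (1 + d) ^ j := one_le_pow₀ (by linarith)
  calc ∑ k ∈ A, S.x k (L.s (n + j))
      ≤ ∑ k ∈ A, S.x k (L.s n) * (1 + κ * ((1 + d) ^ j - 1)) := Finset.sum_le_sum hterm
    _ = ∑ k ∈ A, S.x k (L.s n) + κ * ((1 + d) ^ j - 1) * ∑ k ∈ A, S.x k (L.s n) := by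
        rw [← Finset.sum_mul]; ring
    _ ≤ ∑ k ∈ A, S.x k (L.s n) + κ * ((1 + d) ^ j - 1) * (1 + d) ^ n := by
        have := mul_le_mul_of_nonneg_left hsum (mul_nonneg hκ (by linarith : 0 ≤ (1 + d) ^ j - 1))
        linarith
    _ = ∑ k ∈ A, S.x k (L.s n) + κ * ((1 + d) ^ (n + j) - (1 + d) ^ n) := by
        rw [pow_add]; ring

end Levels

end Pool.Agent.Helper95.Hada
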