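import Mathlib
import Pool.Agent.Helper95.HadaInterval

/-! Job G: selection lemma (potential method). -/

namespace Pool.Agent.Helper95.Hada

/-- potential of a finite family of bad intervals `(centre, radius)` seen from the arc of centre `θ`
and radius `2ℓ` -/
noncomputable def W (P : Finset (ℝ × ℝ)) (θ ℓ : ℝ) : ℝ :=
  ∑ b ∈ P, if |b.1 - θ| ≤ 2 * ℓ + b.2 then min 1 (Real.sqrt (b.2 / ℓ)) else 0


theorem rp_pos' (μ β : ℕ → ℝ) (n : ℕ) (θ : ℝ) : 0 < rp μ β n θ := by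
  unfold rp
  apply Finset.prod_pos
  intro j _
  have := Real.neg_one_le_cos (μ j * θ + β j)
  linarith

theorem rp_cont' (μ β : ℕ → ℝ) (n : ℕ) : Continuous (rp μ β n) := by
  unfold rp
  fun_prop

/-- weight of one bad interval -/
noncomputable def wt (ℓ x h θ : ℝ) : ℝ :=
  if |x - θ| ≤ 2 * ℓ + h then min 1 (Real.sqrt (h / ℓ)) else 0

theorem wt_nonneg (ℓ x h θ : ℝ) : 0 ≤ wt ℓ x h θ := by
  unfold wt
  split_ifs
  · exact le_min zero_le_one (Real.sqrt_nonneg _)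
  · exact le_rfl

theorem W_eq (P : Finset (ℝ × ℝ)) (θ ℓ : ℝ) : W P θ ℓ = ∑ b ∈ P, wt ℓ b.1 b.2 θ := rfl

theorem integrable_if (D : ℝ → ℝ) (hD : Continuous D) (a b x δ : ℝ) :
    IntervalIntegrable (fun θ => if |x - θ| ≤ δ then D θ else 0) MeasureTheory.volume a b := by
  have h := hD.intervalIntegrable (μ := MeasureTheory.volume) a b
  have hm : MeasurableSet {θ : ℝ | |x - θ| ≤ δ} :=
    measurableSet_le (by fun_prop) (by fun_prop)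
  have he : (fun θ => if |x - θ| ≤ δ then D θ else 0) = {θ : ℝ | |x - θ| ≤ δ}.indicator D := by
    funext θ
    simp only [Set.indicator_apply, Set.mem_ofPred_eq]
  rw [he]
  exact ⟨h.1.indicator hm, h.2.indicator hm⟩

theorem int_wt (D : ℝ → ℝ) (a b ℓ x h : ℝ) :
    ∫ θ in a..b, D θ * wt ℓ x h θ = min 1 (Real.sqrt (h / ℓ)) *
      ∫ θ in a..b, (if |x - θ| ≤ 2 * ℓ + h then D θ else 0) := by
  rw [← intervalIntegral.integral_const_mul]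
  congr 1
  funext θ
  unfold wt
  split_ifs <;> ring

theorem integrable_wt (D : ℝ → ℝ) (hD : Continuous D) (a b ℓ x h : ℝ) :
    IntervalIntegrable (fun θ => D θ * wt ℓ x h θ) MeasureTheory.volume a b := by
  have h1 := (integrable_if D hD a b x (2 * ℓ + h)).const_mul (min 1 (Real.sqrt (h / ℓ)))
  have he : (fun θ => D θ * wt ℓ x h θ) = (fun θ => min 1 (Real.sqrt (h / ℓ)) *
      (if |x - θ| ≤ 2 * ℓ + h then D θ else 0)) := by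
    funext θ
    unfold wt
    split_ifs <;> ring
  rw [he]
  exact h1

theorem rpow14 (x : ℝ) (hx : 0 ≤ x) : x ^ ((1 : ℝ) / 4) = Real.sqrt (Real.sqrt x) := by
  rw [Real.sqrt_eq_rpow, Real.sqrt_eq_rpow, ← Real.rpow_mul hx]
  norm_num

theorem rpow34 (x : ℝ) (hx : 0 ≤ x) :
    x ^ ((3 : ℝ) / 4) = Real.sqrt x * Real.sqrt (Real.sqrt x) := by
  rw [← rpow14 x hx, Real.sqrt_eq_rpow, ← Real.rpow_add_of_nonneg hx (by norm_num) (by norm_num)]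
  norm_num

theorem rpow34_le (x y : ℝ) (hx : 0 ≤ x) (hy : 0 ≤ y) (hxy : x ≤ 3 * y) :
    x ^ ((3 : ℝ) / 4) ≤ 3 * (Real.sqrt y * Real.sqrt (Real.sqrt y)) := by
  rw [← rpow34 y hy]
  have h1 : x ^ ((3 : ℝ) / 4) ≤ (3 * y) ^ ((3 : ℝ) / 4) :=
    Real.rpow_le_rpow hx hxy (by norm_num)
  have h2 : (3 * y) ^ ((3 : ℝ) / 4) = 3 ^ ((3 : ℝ) / 4) * y ^ ((3 : ℝ) / 4) :=
    Real.mul_rpow (by norm_num) hy
  have h3 : (3 : ℝ) ^ ((3 : ℝ) / 4) ≤ 3 ^ (1 : ℝ) :=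
    Real.rpow_le_rpow_of_exponent_le (by norm_num) (by norm_num)
  rw [Real.rpow_one] at h3
  have h4 : 0 ≤ y ^ ((3 : ℝ) / 4) := Real.rpow_nonneg hy _
  calc x ^ ((3 : ℝ) / 4) ≤ 3 ^ ((3 : ℝ) / 4) * y ^ ((3 : ℝ) / 4) := by rw [← h2]; exact h1
    _ ≤ 3 * y ^ ((3 : ℝ) / 4) := by gcongr

/-- old intervals -/
theorem old_bd (c w r₀ ℓ ℓ' h q : ℝ) (hc : 0 < c) (hw1 : 24000 * Real.sqrt w ≤ c)
    (hr₀ : 0 < r₀) (hr₁ : 24000 * r₀ ^ ((1 : ℝ) / 4) ≤ c) (hℓ : 0 < ℓ) (hℓ' : 0 < ℓ')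
    (hℓℓ' : ℓ' ≤ r₀ * ℓ) (hh : 0 < h) (hhw : Real.sqrt (h / ℓ) < w) (hq0 : 0 ≤ q)
    (hq : q ≤ 1000 * ((2 * ℓ' + h) / ℓ) ^ ((3 : ℝ) / 4)) :
    min 1 (Real.sqrt (h / ℓ')) * q ≤ c / 8 * Real.sqrt (h / ℓ) := by
  have hs0 : 0 ≤ Real.sqrt (h / ℓ) := Real.sqrt_nonneg _
  by_cases hcase : ℓ' ≤ h
  · have h1 : (2 * ℓ' + h) / ℓ ≤ 3 * (h / ℓ) := by
      rw [← mul_div_assoc]
      gcongr
      linarith
    have h2 := rpow34_le _ _ (by positivity) (by positivity) h1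
    have h3 : Real.sqrt (Real.sqrt (h / ℓ)) ≤ Real.sqrt w := Real.sqrt_le_sqrt hhw.le
    have h4 : min 1 (Real.sqrt (h / ℓ')) * q ≤ 1 * q := by
      gcongr
      exact min_le_left _ _
    calc min 1 (Real.sqrt (h / ℓ')) * q ≤ q := by linarith
      _ ≤ 1000 * (3 * (Real.sqrt (h / ℓ) * Real.sqrt (Real.sqrt (h / ℓ)))) := by linarith
      _ ≤ 1000 * (3 * (Real.sqrt (h / ℓ) * Real.sqrt w)) := by gcongr
      _ = (3000 * Real.sqrt w) * Real.sqrt (h / ℓ) := by ring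
      _ ≤ c / 8 * Real.sqrt (h / ℓ) := by gcongr; linarith
  · push Not at hcase
    have h1 : (2 * ℓ' + h) / ℓ ≤ 3 * (ℓ' / ℓ) := by
      rw [← mul_div_assoc]
      gcongr
      linarith
    have h2 := rpow34_le _ _ (by positivity) (by positivity) h1
    have h3 : Real.sqrt (Real.sqrt (ℓ' / ℓ)) ≤ r₀ ^ ((1 : ℝ) / 4) := by
      rw [rpow14 r₀ hr₀.le]
      apply Real.sqrt_le_sqrt
      apply Real.sqrt_le_sqrt
      rw [div_le_iff₀ hℓ]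
      exact hℓℓ'
    have h5 : Real.sqrt (h / ℓ') * Real.sqrt (ℓ' / ℓ) = Real.sqrt (h / ℓ) := by
      rw [← Real.sqrt_mul (by positivity)]
      congr 1
      field_simp
    calc min 1 (Real.sqrt (h / ℓ')) * q ≤ Real.sqrt (h / ℓ') * q := by
          gcongr
          exact min_le_right _ _
      _ ≤ Real.sqrt (h / ℓ') *
          (1000 * (3 * (Real.sqrt (ℓ' / ℓ) * Real.sqrt (Real.sqrt (ℓ' / ℓ))))) := by
          gcongr
          linarith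
      _ = 3000 * (Real.sqrt (h / ℓ') * Real.sqrt (ℓ' / ℓ)) * Real.sqrt (Real.sqrt (ℓ' / ℓ)) := by
          ring
      _ = 3000 * Real.sqrt (h / ℓ) * Real.sqrt (Real.sqrt (ℓ' / ℓ)) := by rw [h5]
      _ ≤ 3000 * Real.sqrt (h / ℓ) * r₀ ^ ((1 : ℝ) / 4) := by gcongr
      _ = (3000 * r₀ ^ ((1 : ℝ) / 4)) * Real.sqrt (h / ℓ) := by ring
      _ ≤ c / 8 * Real.sqrt (h / ℓ) := by gcongr; linarith

/-- new intervals -/
theorem new_bd (Lm : ℝ) (hLm : 0 ≤ Lm) (ℓ' ρ τ q : ℝ) (hℓ' : 0 < ℓ') (hρ : 0 < ρ)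
    (hτ : 0 < τ) (hτ' : τ ≤ 1) (hρℓ : ℓ' ≤ ρ) (hq0 : 0 ≤ q)
    (hq : q ≤ 1000 * Lm * ((2 * ℓ' + τ * ρ) / ρ) ^ ((3 : ℝ) / 4)) :
    min 1 (Real.sqrt (τ * ρ / ℓ')) * q ≤ 3000 * Lm * Real.sqrt τ := by
  by_cases hcase : ℓ' ≤ τ * ρ
  · have h1 : (2 * ℓ' + τ * ρ) / ρ ≤ 3 * τ := by
      rw [div_le_iff₀ hρ]
      linarith
    have h2 := rpow34_le _ _ (by positivity) hτ.le h1
    have h3 : Real.sqrt (Real.sqrt τ) ≤ 1 := by
      exact Real.sqrt_le_one.mpr (Real.sqrt_le_one.mpr hτ')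
    have h4 : min 1 (Real.sqrt (τ * ρ / ℓ')) * q ≤ 1 * q := by
      gcongr
      exact min_le_left _ _
    calc min 1 (Real.sqrt (τ * ρ / ℓ')) * q ≤ q := by linarith
      _ ≤ 1000 * Lm * ((2 * ℓ' + τ * ρ) / ρ) ^ ((3 : ℝ) / 4) := hq
      _ ≤ 1000 * Lm * (3 * (Real.sqrt τ * Real.sqrt (Real.sqrt τ))) := by gcongr
      _ ≤ 1000 * Lm * (3 * (Real.sqrt τ * 1)) := by gcongr
      _ = 3000 * Lm * Real.sqrt τ := by ring
  · push Not at hcase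
    have h1 : (2 * ℓ' + τ * ρ) / ρ ≤ 3 * (ℓ' / ρ) := by
      rw [← mul_div_assoc]
      gcongr
      linarith
    have h2 := rpow34_le _ _ (by positivity) (by positivity) h1
    have h3 : Real.sqrt (Real.sqrt (ℓ' / ρ)) ≤ 1 := by
      exact Real.sqrt_le_one.mpr (Real.sqrt_le_one.mpr ((div_le_one hρ).mpr hρℓ))
    have h5 : Real.sqrt (τ * ρ / ℓ') * Real.sqrt (ℓ' / ρ) = Real.sqrt τ := by
      rw [← Real.sqrt_mul (by positivity)]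
      congr 1
      field_simp
    calc min 1 (Real.sqrt (τ * ρ / ℓ')) * q ≤ Real.sqrt (τ * ρ / ℓ') * q := by
          gcongr
          exact min_le_right _ _
      _ ≤ Real.sqrt (τ * ρ / ℓ') *
          (1000 * Lm * (3 * (Real.sqrt (ℓ' / ρ) * Real.sqrt (Real.sqrt (ℓ' / ρ))))) := by
          gcongr
          exact hq.trans (by gcongr)
      _ = 3000 * Lm * (Real.sqrt (τ * ρ / ℓ') * Real.sqrt (ℓ' / ρ)) *
          Real.sqrt (Real.sqrt (ℓ' / ρ)) := by ring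
      _ = 3000 * Lm * Real.sqrt τ * Real.sqrt (Real.sqrt (ℓ' / ρ)) := by rw [h5]
      _ ≤ 3000 * Lm * Real.sqrt τ * 1 := by gcongr
      _ = 3000 * Lm * Real.sqrt τ := by ring

theorem sum_biUnion_le' (N : Finset ℕ) (f : ℕ → Finset (ℝ × ℝ)) (g : ℝ × ℝ → ℝ)
    (hg : ∀ b, 0 ≤ g b) : ∑ b ∈ N.biUnion f, g b ≤ ∑ i ∈ N, ∑ b ∈ f i, g b := by
  classical
  induction N using Finset.induction_on with
  | empty => simp
  | insert a s ha ih =>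
    rw [Finset.biUnion_insert, Finset.sum_insert ha]
    have h1 := Finset.sum_union_inter (s₁ := f a) (s₂ := s.biUnion f) (f := g)
    have h2 : 0 ≤ ∑ b ∈ f a ∩ s.biUnion f, g b := Finset.sum_nonneg (fun b _ => hg b)
    linarith

set_option maxHeartbeats 4000000 in
theorem select_aux
    -- facts about Riesz products proved elsewhere
    (hmass : ∀ (μ β : ℕ → ℝ) (n : ℕ), 0 < μ 0 → (∀ j, 6 * μ j ≤ μ (j + 1)) → ∀ (c ℓ : ℝ), 0 < ℓ →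
      |(1 / (2 * ℓ)) * (∫ θ in (c - ℓ)..(c + ℓ), rp μ β n θ) - 1| ≤ 2 / (μ 0 * ℓ))
    (hint : ∀ (μ β : ℕ → ℝ) (n : ℕ), 0 < μ 0 → (∀ j, 6 * μ j ≤ μ (j + 1)) →
      ∀ (c ℓ ρ δ : ℝ), 0 < δ → δ ≤ ρ → ρ ≤ ℓ → 4 ≤ μ 0 * ℓ →
      ∀ (B : Finset ℝ) (L : ℕ), (∀ y : ℝ, (B.filter (fun b => |b - y| ≤ ρ / 2)).card ≤ L) →
      ∑ b ∈ B, (1 / (2 * ℓ)) * (∫ θ in (c - ℓ)..(c + ℓ), if |b - θ| ≤ δ then rp μ β n θ else 0)
        ≤ 1000 * L * (δ / ρ) ^ ((3 : ℝ) / 4))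
    (c w r₀ : ℝ) (hc : 0 < c) (hc1 : c ≤ 1 / 32) (hw : 0 < w) (hw1 : 24000 * Real.sqrt w ≤ c)
    (hr₀ : 0 < r₀) (hr₁ : 24000 * r₀ ^ ((1 : ℝ) / 4) ≤ c)
    (μ β : ℕ → ℝ) (n : ℕ) (hμ0 : 0 < μ 0) (hμ : ∀ j, 6 * μ j ≤ μ (j + 1))
    (θ₀ ℓ ℓ' T V κ : ℝ) (hℓ' : 0 < ℓ') (hℓℓ' : ℓ' ≤ r₀ * ℓ) (hμℓ : 4 ≤ μ 0 * ℓ)
    (hT : 0 < T) (hκ : 0 < κ) (hV : 0 ≤ V)
    (X : ℝ → ℝ) (hX : Continuous X) (hXV : ∀ θ, X θ ≤ V)
    (hdrift : 4 * c * V ≤ (1 / (2 * ℓ)) * ∫ θ in (θ₀ - ℓ)..(θ₀ + ℓ), rp μ β n θ * X θ)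
    (Pold : Finset (ℝ × ℝ)) (hPold : ∀ b ∈ Pold, 0 < b.2) (hW : W Pold θ₀ ℓ < w)
    (N : Finset ℕ) (ρ τ : ℕ → ℝ) (B : ℕ → Finset ℝ) (Lm : ℕ)
    (hB : ∀ i ∈ N, ∀ y : ℝ, ((B i).filter (fun b => |b - y| ≤ ρ i / 2)).card ≤ Lm)
    (hρ : ∀ i ∈ N, 4 * ℓ' ≤ ρ i) (hρ' : ∀ i ∈ N, ρ i ≤ ℓ)
    (hτ : ∀ i ∈ N, 0 < τ i) (hτ' : ∀ i ∈ N, τ i ≤ 1 / 2)
    (hsum : 24000 * Lm * ∑ i ∈ N, Real.sqrt (τ i) ≤ c * w) :
    ∃ θ : ℝ, |θ - θ₀| ≤ ℓ ∧ 2 * c * V - κ * T ≤ X θ ∧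
      W (Pold ∪ N.biUnion (fun i => (B i).image (fun b => (b, τ i * ρ i)))) θ ℓ' < w := by
  classical
  set D := rp μ β n with hDdef
  have hDpos : ∀ θ, 0 < D θ := rp_pos' μ β n
  have hDc : Continuous D := rp_cont' μ β n
  have hℓ : 0 < ℓ := by
    by_contra hcon
    push Not at hcon
    have : r₀ * ℓ ≤ 0 := mul_nonpos_of_nonneg_of_nonpos hr₀.le hcon
    linarith
  -- smallness of w and r₀
  have hsw : Real.sqrt w ≤ 1 / 100 := by linarith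
  have hw100 : w ≤ 1 / 100 := by
    have h1 : w = Real.sqrt w * Real.sqrt w := (Real.mul_self_sqrt hw.le).symm
    have h2 : Real.sqrt w * Real.sqrt w ≤ 1 / 100 * 1 := by
      gcongr
      linarith
    linarith
  have hr100 : r₀ ≤ 1 / 100 := by
    rw [rpow14 r₀ hr₀.le] at hr₁
    have h0 : Real.sqrt (Real.sqrt r₀) ≤ 1 / 100 := by linarith
    have h00 := Real.sqrt_nonneg (Real.sqrt r₀)
    have h1 : Real.sqrt r₀ = Real.sqrt (Real.sqrt r₀) * Real.sqrt (Real.sqrt r₀) :=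
      (Real.mul_self_sqrt (Real.sqrt_nonneg _)).symm
    have h2 : Real.sqrt r₀ ≤ 1 / 100 := by nlinarith
    have h3 : r₀ = Real.sqrt r₀ * Real.sqrt r₀ := (Real.mul_self_sqrt hr₀.le).symm
    have h4 := Real.sqrt_nonneg r₀
    nlinarith
  have hℓ'ℓ : ℓ' ≤ ℓ / 100 := by
    have : r₀ * ℓ ≤ 1 / 100 * ℓ := by gcongr
    linarith
  have hAnn : 0 < 1 / (2 * ℓ) := by positivity
  have hJnn : ∀ x δ, 0 ≤ ∫ θ in (θ₀ - ℓ)..(θ₀ + ℓ), (if |x - θ| ≤ δ then D θ else 0) := by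
    intro x δ
    apply intervalIntegral.integral_nonneg (by linarith)
    intro u _
    split_ifs
    · exact (hDpos u).le
    · exact le_rfl
  -- single interval bound
  have hsingle : ∀ x δ, 0 < δ → δ ≤ ℓ →
      (1 / (2 * ℓ)) * ∫ θ in (θ₀ - ℓ)..(θ₀ + ℓ), (if |x - θ| ≤ δ then D θ else 0)
        ≤ 1000 * (δ / ℓ) ^ ((3 : ℝ) / 4) := by
    intro x δ hδ hδ'
    have h := hint μ β n hμ0 hμ θ₀ ℓ ℓ δ hδ hδ' le_rfl hμℓ {x} 1 (by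
      intro y
      exact (Finset.card_filter_le _ _).trans (by simp))
    simpa using h
  -- old family
  have hold : (1 / (2 * ℓ)) * ∫ θ in (θ₀ - ℓ)..(θ₀ + ℓ), D θ * W Pold θ ℓ' ≤ c / 8 * w := by
    have h1 : ∫ θ in (θ₀ - ℓ)..(θ₀ + ℓ), D θ * W Pold θ ℓ'
        = ∑ b ∈ Pold, ∫ θ in (θ₀ - ℓ)..(θ₀ + ℓ), D θ * wt ℓ' b.1 b.2 θ := by
      rw [← intervalIntegral.integral_finsetSum
        (fun b _ => integrable_wt D hDc _ _ ℓ' b.1 b.2)]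
      congr 1
      funext θ
      rw [W_eq, Finset.mul_sum]
    rw [h1, Finset.mul_sum]
    have h2 : ∀ b ∈ Pold, (1 / (2 * ℓ)) * ∫ θ in (θ₀ - ℓ)..(θ₀ + ℓ), D θ * wt ℓ' b.1 b.2 θ
        ≤ c / 8 * wt ℓ b.1 b.2 θ₀ := by
      intro b hb
      have hb2 := hPold b hb
      by_cases hrel : |b.1 - θ₀| ≤ 2 * ℓ + b.2
      · have hterm : wt ℓ b.1 b.2 θ₀ = min 1 (Real.sqrt (b.2 / ℓ)) := by
          unfold wt; rw [if_pos hrel]
        have hlt : min 1 (Real.sqrt (b.2 / ℓ)) < w := by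
          rw [← hterm]
          refine lt_of_le_of_lt ?_ hW
          rw [W_eq]
          exact Finset.single_le_sum (f := fun b : ℝ × ℝ => wt ℓ b.1 b.2 θ₀)
            (fun b _ => wt_nonneg _ _ _ _) hb
        have hsq : Real.sqrt (b.2 / ℓ) < w := by
          rcases min_lt_iff.mp hlt with h | h
          · linarith
          · exact h
        have hmin : min 1 (Real.sqrt (b.2 / ℓ)) = Real.sqrt (b.2 / ℓ) :=
          min_eq_right (by linarith)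
        have hh : b.2 ≤ ℓ / 100 := by
          have h3 : b.2 / ℓ = Real.sqrt (b.2 / ℓ) * Real.sqrt (b.2 / ℓ) :=
            (Real.mul_self_sqrt (by positivity)).symm
          have h4 := Real.sqrt_nonneg (b.2 / ℓ)
          have h5 : b.2 / ℓ ≤ 1 / 100 := by nlinarith
          rw [div_le_iff₀ hℓ] at h5
          linarith
        rw [hterm, hmin, int_wt]
        have hq := hsingle b.1 (2 * ℓ' + b.2) (by linarith) (by linarith)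
        have := old_bd c w r₀ ℓ ℓ' b.2 _ hc hw1 hr₀ hr₁ hℓ hℓ' hℓℓ' hb2 hsq
          (mul_nonneg hAnn.le (hJnn b.1 (2 * ℓ' + b.2))) hq
        calc _ = min 1 (Real.sqrt (b.2 / ℓ')) * ((1 / (2 * ℓ)) *
              ∫ θ in (θ₀ - ℓ)..(θ₀ + ℓ), (if |b.1 - θ| ≤ 2 * ℓ' + b.2 then D θ else 0)) := by ring
          _ ≤ _ := this
      · have hterm : wt ℓ b.1 b.2 θ₀ = 0 := by
          unfold wt; rw [if_neg hrel]
        push Not at hrel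
        have hz : ∫ θ in (θ₀ - ℓ)..(θ₀ + ℓ), D θ * wt ℓ' b.1 b.2 θ = 0 := by
          rw [intervalIntegral.integral_congr (g := fun _ => (0:ℝ))]
          · simp
          · intro θ hθ
            rw [Set.uIcc_of_le (by linarith)] at hθ
            have h5 : |b.1 - θ₀| ≤ |b.1 - θ| + |θ - θ₀| := abs_sub_le _ _ _
            have h6 : |θ - θ₀| ≤ ℓ := by
              rw [abs_le]; constructor <;> linarith [hθ.1, hθ.2]
            have h7 : ¬ |b.1 - θ| ≤ 2 * ℓ' + b.2 := by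
              push Not
              linarith
            simp only [wt, if_neg h7, mul_zero]
        rw [hz, hterm]
        simp
    calc _ ≤ ∑ b ∈ Pold, c / 8 * wt ℓ b.1 b.2 θ₀ := Finset.sum_le_sum h2
      _ = c / 8 * W Pold θ₀ ℓ := by rw [W_eq, Finset.mul_sum]
      _ ≤ c / 8 * w := by gcongr
  -- new family
  have hnew : ∀ i ∈ N, (1 / (2 * ℓ)) * ∫ θ in (θ₀ - ℓ)..(θ₀ + ℓ),
      D θ * ∑ b ∈ B i, wt ℓ' b (τ i * ρ i) θ ≤ 3000 * Lm * Real.sqrt (τ i) := by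
    intro i hi
    have hρi := hρ i hi
    have hρi' := hρ' i hi
    have hτi := hτ i hi
    have hτi' := hτ' i hi
    have hρpos : 0 < ρ i := by linarith
    have h1 : ∫ θ in (θ₀ - ℓ)..(θ₀ + ℓ), D θ * ∑ b ∈ B i, wt ℓ' b (τ i * ρ i) θ
        = ∑ b ∈ B i, ∫ θ in (θ₀ - ℓ)..(θ₀ + ℓ), D θ * wt ℓ' b (τ i * ρ i) θ := by
      rw [← intervalIntegral.integral_finsetSum
        (fun b _ => integrable_wt D hDc _ _ ℓ' b (τ i * ρ i))]
      congr 1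
      funext θ
      rw [Finset.mul_sum]
    have hτρ : τ i * ρ i ≤ ρ i / 2 := by
      have : τ i * ρ i ≤ 1 / 2 * ρ i := by gcongr
      linarith
    have hτρ0 : 0 < τ i * ρ i := by positivity
    have hq := hint μ β n hμ0 hμ θ₀ ℓ (ρ i) (2 * ℓ' + τ i * ρ i) (by linarith) (by linarith)
      hρi' hμℓ (B i) Lm (hB i hi)
    have := new_bd Lm (Nat.cast_nonneg _) ℓ' (ρ i) (τ i) _ hℓ' hρpos hτi (by linarith)
      (by linarith) (Finset.sum_nonneg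
        (fun b _ => mul_nonneg hAnn.le (hJnn b (2 * ℓ' + τ i * ρ i)))) hq
    rw [h1]
    calc _ = min 1 (Real.sqrt (τ i * ρ i / ℓ')) * ∑ b ∈ B i, ((1 / (2 * ℓ)) *
          ∫ θ in (θ₀ - ℓ)..(θ₀ + ℓ), (if |b - θ| ≤ 2 * ℓ' + τ i * ρ i then D θ else 0)) := by
          rw [Finset.mul_sum, Finset.mul_sum]
          apply Finset.sum_congr rfl
          intro b _
          rw [int_wt]
          ring
      _ ≤ _ := this
  -- the total weight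
  set Wt : ℝ → ℝ := fun θ => W Pold θ ℓ' + ∑ i ∈ N, ∑ b ∈ B i, wt ℓ' b (τ i * ρ i) θ with hWt
  have hWt0 : ∀ θ, 0 ≤ Wt θ := by
    intro θ
    apply add_nonneg
    · rw [W_eq]; exact Finset.sum_nonneg (fun b _ => wt_nonneg _ _ _ _)
    · exact Finset.sum_nonneg (fun i _ => Finset.sum_nonneg (fun b _ => wt_nonneg _ _ _ _))
  have hWle : ∀ θ, W (Pold ∪ N.biUnion (fun i => (B i).image (fun b => (b, τ i * ρ i)))) θ ℓ'
      ≤ Wt θ := by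
    intro θ
    rw [W_eq]
    have h1 := Finset.sum_union_inter (s₁ := Pold)
      (s₂ := N.biUnion (fun i => (B i).image (fun b => (b, τ i * ρ i))))
      (f := fun b : ℝ × ℝ => wt ℓ' b.1 b.2 θ)
    have h2 : 0 ≤ ∑ b ∈ Pold ∩ N.biUnion (fun i => (B i).image (fun b => (b, τ i * ρ i))),
      wt ℓ' b.1 b.2 θ := Finset.sum_nonneg (fun b _ => wt_nonneg _ _ _ _)
    have h3 := sum_biUnion_le' N (fun i => (B i).image (fun b => (b, τ i * ρ i)))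
      (fun b => wt ℓ' b.1 b.2 θ) (fun b => wt_nonneg _ _ _ _)
    have h4 : ∑ i ∈ N, ∑ b ∈ (B i).image (fun b => (b, τ i * ρ i)), wt ℓ' b.1 b.2 θ
        = ∑ i ∈ N, ∑ b ∈ B i, wt ℓ' b (τ i * ρ i) θ := by
      apply Finset.sum_congr rfl
      intro i _
      rw [Finset.sum_image]
      intro x _ y _ hxy
      exact (Prod.mk.inj hxy).1
    rw [h4] at h3
    simp only [hWt, W_eq]
    linarith
  have hI2 : IntervalIntegrable D MeasureTheory.volume (θ₀ - ℓ) (θ₀ + ℓ) :=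
    hDc.intervalIntegrable _ _
  have hI1 : IntervalIntegrable (fun θ => D θ * X θ) MeasureTheory.volume (θ₀ - ℓ) (θ₀ + ℓ) :=
    (hDc.mul hX).intervalIntegrable _ _
  have hIold : IntervalIntegrable (fun θ => D θ * W Pold θ ℓ') MeasureTheory.volume
      (θ₀ - ℓ) (θ₀ + ℓ) := by
    have he : (fun θ => D θ * W Pold θ ℓ') = ∑ b ∈ Pold, fun θ => D θ * wt ℓ' b.1 b.2 θ := by
      funext θ
      rw [W_eq, Finset.mul_sum, Finset.sum_apply]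
    rw [he]
    exact IntervalIntegrable.sum _ (fun b _ => integrable_wt D hDc _ _ ℓ' b.1 b.2)
  have hInew : ∀ i ∈ N, IntervalIntegrable (fun θ => D θ * ∑ b ∈ B i, wt ℓ' b (τ i * ρ i) θ)
      MeasureTheory.volume (θ₀ - ℓ) (θ₀ + ℓ) := by
    intro i _
    have he : (fun θ => D θ * ∑ b ∈ B i, wt ℓ' b (τ i * ρ i) θ)
        = ∑ b ∈ B i, fun θ => D θ * wt ℓ' b (τ i * ρ i) θ := by
      funext θ
      rw [Finset.mul_sum, Finset.sum_apply]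
    rw [he]
    exact IntervalIntegrable.sum _ (fun b _ => integrable_wt D hDc _ _ ℓ' b _)
  have hI3' : IntervalIntegrable (fun θ => ∑ i ∈ N, D θ * ∑ b ∈ B i, wt ℓ' b (τ i * ρ i) θ)
      MeasureTheory.volume (θ₀ - ℓ) (θ₀ + ℓ) := by
    have he : (fun θ => ∑ i ∈ N, D θ * ∑ b ∈ B i, wt ℓ' b (τ i * ρ i) θ)
        = ∑ i ∈ N, fun θ => D θ * ∑ b ∈ B i, wt ℓ' b (τ i * ρ i) θ := by
      funext θ
      rw [Finset.sum_apply]
    rw [he]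
    exact IntervalIntegrable.sum _ hInew
  have hDW : ∀ θ, D θ * Wt θ = D θ * W Pold θ ℓ' +
      ∑ i ∈ N, D θ * ∑ b ∈ B i, wt ℓ' b (τ i * ρ i) θ := by
    intro θ
    simp only [hWt, mul_add, Finset.mul_sum]
  have hI3 : IntervalIntegrable (fun θ => D θ * Wt θ) MeasureTheory.volume (θ₀ - ℓ) (θ₀ + ℓ) := by
    simp only [hDW]
    exact hIold.add hI3'
  have hAW : (1 / (2 * ℓ)) * ∫ θ in (θ₀ - ℓ)..(θ₀ + ℓ), D θ * Wt θ ≤ c * w / 4 := by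
    simp only [hDW]
    rw [intervalIntegral.integral_add hIold hI3', intervalIntegral.integral_finsetSum hInew,
      mul_add, Finset.mul_sum]
    have h1 : ∑ i ∈ N, (1 / (2 * ℓ)) * ∫ θ in (θ₀ - ℓ)..(θ₀ + ℓ),
        D θ * ∑ b ∈ B i, wt ℓ' b (τ i * ρ i) θ ≤ ∑ i ∈ N, 3000 * Lm * Real.sqrt (τ i) :=
      Finset.sum_le_sum hnew
    have h3 : ∑ i ∈ N, 3000 * (Lm:ℝ) * Real.sqrt (τ i) = 3000 * Lm * ∑ i ∈ N, Real.sqrt (τ i) :=
      (Finset.mul_sum _ _ _).symm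
    have h2 : 3000 * (Lm:ℝ) * ∑ i ∈ N, Real.sqrt (τ i) ≤ c * w / 8 := by linarith
    rw [h3] at h1
    calc _ ≤ c / 8 * w + c * w / 8 := add_le_add hold (h1.trans h2)
      _ = c * w / 4 := by ring
  have hAD := hmass μ β n hμ0 hμ θ₀ ℓ hℓ
  have h2mu : 2 / (μ 0 * ℓ) ≤ 1 / 2 := by
    rw [div_le_iff₀ (by positivity)]
    linarith
  have hAD' := abs_le.mp (hAD.trans h2mu)
  set aD := (1 / (2 * ℓ)) * ∫ θ in (θ₀ - ℓ)..(θ₀ + ℓ), rp μ β n θ with haD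
  have hKpos : 0 < V + κ * T := by positivity
  set K := (V + κ * T) / w with hK
  have hK0 : 0 < K := by positivity
  have hKw : K * w = V + κ * T := by rw [hK]; field_simp
  set Φ : ℝ → ℝ := fun θ => X θ - 2 * c * V - K * Wt θ + κ * T with hΦ
  have hex : ∃ θ ∈ Set.Icc (θ₀ - ℓ) (θ₀ + ℓ), 0 < Φ θ := by
    by_contra hcon
    push Not at hcon
    have hneg : ∫ θ in (θ₀ - ℓ)..(θ₀ + ℓ), -(D θ * Φ θ) ≥ 0 := by
      apply intervalIntegral.integral_nonneg (by linarith)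
      intro u hu
      have := mul_nonpos_of_nonneg_of_nonpos (hDpos u).le (hcon u hu)
      linarith
    rw [intervalIntegral.integral_neg] at hneg
    have hexp : ∫ θ in (θ₀ - ℓ)..(θ₀ + ℓ), D θ * Φ θ
        = (∫ θ in (θ₀ - ℓ)..(θ₀ + ℓ), D θ * X θ) - (2 * c * V) * (∫ θ in (θ₀ - ℓ)..(θ₀ + ℓ), D θ)
          - K * (∫ θ in (θ₀ - ℓ)..(θ₀ + ℓ), D θ * Wt θ)
          + (κ * T) * (∫ θ in (θ₀ - ℓ)..(θ₀ + ℓ), D θ) := by
      rw [← intervalIntegral.integral_const_mul, ← intervalIntegral.integral_const_mul,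
        ← intervalIntegral.integral_const_mul,
        ← intervalIntegral.integral_sub hI1 (hI2.const_mul _),
        ← intervalIntegral.integral_sub (hI1.sub (hI2.const_mul _)) (hI3.const_mul _),
        ← intervalIntegral.integral_add ((hI1.sub (hI2.const_mul _)).sub (hI3.const_mul _))
          (hI2.const_mul _)]
      congr 1
      funext θ
      simp only [hΦ]
      ring
    have hpos : 0 < (1 / (2 * ℓ)) * ∫ θ in (θ₀ - ℓ)..(θ₀ + ℓ), D θ * Φ θ := by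
      rw [hexp]
      have e1 : (1 / (2 * ℓ)) * ((∫ θ in (θ₀ - ℓ)..(θ₀ + ℓ), D θ * X θ)
          - (2 * c * V) * (∫ θ in (θ₀ - ℓ)..(θ₀ + ℓ), D θ)
          - K * (∫ θ in (θ₀ - ℓ)..(θ₀ + ℓ), D θ * Wt θ)
          + (κ * T) * (∫ θ in (θ₀ - ℓ)..(θ₀ + ℓ), D θ))
          = (1 / (2 * ℓ)) * (∫ θ in (θ₀ - ℓ)..(θ₀ + ℓ), D θ * X θ) - (2 * c * V) * aD
            - K * ((1 / (2 * ℓ)) * ∫ θ in (θ₀ - ℓ)..(θ₀ + ℓ), D θ * Wt θ) + (κ * T) * aD := by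
        rw [haD]
        ring
      rw [e1]
      have e2 : (2 * c * V) * aD ≤ (2 * c * V) * (3 / 2) := by
        gcongr
        linarith [hAD'.2]
      have e3 : K * ((1 / (2 * ℓ)) * ∫ θ in (θ₀ - ℓ)..(θ₀ + ℓ), D θ * Wt θ)
          ≤ K * (c * w / 4) := by gcongr
      have e4 : K * (c * w / 4) = c / 4 * (V + κ * T) := by rw [← hKw]; ring
      have e5 : (κ * T) * (1 / 2) ≤ (κ * T) * aD := by
        gcongr
        linarith [hAD'.1]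
      have e6 : 0 < κ * T := by positivity
      have e7 : 0 ≤ c * V := by positivity
      nlinarith
    have h9 : (1 / (2 * ℓ)) * ∫ θ in (θ₀ - ℓ)..(θ₀ + ℓ), D θ * Φ θ ≤ 0 := by
      apply mul_nonpos_of_nonneg_of_nonpos hAnn.le
      linarith
    linarith
  obtain ⟨θ, hθ, hΦθ⟩ := hex
  refine ⟨θ, ?_, ?_, ?_⟩
  · rw [abs_le]; constructor <;> linarith [hθ.1, hθ.2]
  · have h1 : 0 ≤ K * Wt θ := mul_nonneg hK0.le (hWt0 θ)
    simp only [hΦ] at hΦθ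
    linarith
  · refine lt_of_le_of_lt (hWle θ) ?_
    have h1 := hXV θ
    simp only [hΦ] at hΦθ
    have h2 : 0 ≤ 2 * c * V := by positivity
    have h3 : K * Wt θ < K * w := by
      rw [hKw]
      linarith
    exact lt_of_mul_lt_mul_left h3 hK0.le

theorem select
    (c w r₀ : ℝ) (hc : 0 < c) (hc1 : c ≤ 1 / 32) (hw : 0 < w) (hw1 : 24000 * Real.sqrt w ≤ c)
    (hr₀ : 0 < r₀) (hr₁ : 24000 * r₀ ^ ((1 : ℝ) / 4) ≤ c)
    (μ β : ℕ → ℝ) (n : ℕ) (hμ0 : 0 < μ 0) (hμ : ∀ j, 6 * μ j ≤ μ (j + 1))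
    (θ₀ ℓ ℓ' T V κ : ℝ) (hℓ' : 0 < ℓ') (hℓℓ' : ℓ' ≤ r₀ * ℓ) (hμℓ : 4 ≤ μ 0 * ℓ)
    (hT : 0 < T) (hκ : 0 < κ) (hV : 0 ≤ V)
    (X : ℝ → ℝ) (hX : Continuous X) (hXV : ∀ θ, X θ ≤ V)
    (hdrift : 4 * c * V ≤ (1 / (2 * ℓ)) * ∫ θ in (θ₀ - ℓ)..(θ₀ + ℓ), rp μ β n θ * X θ)
    (Pold : Finset (ℝ × ℝ)) (hPold : ∀ b ∈ Pold, 0 < b.2) (hW : W Pold θ₀ ℓ < w)
    (N : Finset ℕ) (ρ τ : ℕ → ℝ) (B : ℕ → Finset ℝ) (Lm : ℕ)
    (hB : ∀ i ∈ N, ∀ y : ℝ, ((B i).filter (fun b => |b - y| ≤ ρ i / 2)).card ≤ Lm)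
    (hρ : ∀ i ∈ N, 4 * ℓ' ≤ ρ i) (hρ' : ∀ i ∈ N, ρ i ≤ ℓ)
    (hτ : ∀ i ∈ N, 0 < τ i) (hτ' : ∀ i ∈ N, τ i ≤ 1 / 2)
    (hsum : 24000 * Lm * ∑ i ∈ N, Real.sqrt (τ i) ≤ c * w) :
    ∃ θ : ℝ, |θ - θ₀| ≤ ℓ ∧ 2 * c * V - κ * T ≤ X θ ∧
      W (Pold ∪ N.biUnion (fun i => (B i).image (fun b => (b, τ i * ρ i)))) θ ℓ' < w := by
  exact select_aux (fun μ β n h1 h2 c ℓ h3 => riesz_mass μ β n h1 h2 c ℓ h3)
    (fun μ β n h1 h2 c ℓ ρ δ h3 h4 h5 h6 B L h7 => riesz_interval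
      (fun μ β n h1 h2 c ℓ h3 => riesz_mass μ β n h1 h2 c ℓ h3) μ β n h1 h2 c ℓ ρ δ h3 h4 h5 h6 B L h7)
    c w r₀ hc hc1 hw hw1 hr₀ hr₁ μ β n hμ0 hμ θ₀ ℓ ℓ' T V κ hℓ' hℓℓ' hμℓ hT hκ hV X hX hXV hdrift
    Pold hPold hW N ρ τ B Lm hB hρ hρ' hτ hτ' hsum

end Pool.Agent.Helper95.Hada
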