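import Pool.Agent.Helper95.HadaAvoid
import Pool.Agent.Helper95.HadaSelect

open Filter Topology Set

namespace Pool.Agent.Helper95.Hada

/-- all numerical parameters, depending on `q` only -/
structure Par (q : ℝ) where
  p : ℕ
  CV : ℝ
  c : ℝ
  Cs : ℝ
  hp : 0 < p
  hCV : 4 ≤ CV
  drift : ∀ (lam x α : ℕ → ℝ) (K₁ K₂ : ℕ) (c ℓ : ℝ), (∀ k, 0 < lam k) →
      (∀ k, q * lam k ≤ lam (k + 1)) → (∀ k, 0 ≤ x k) → 0 < ℓ → CV ≤ lam K₁ * ℓ →
      ∃ (μ β : ℕ → ℝ) (n : ℕ), lam K₁ ≤ μ 0 ∧ (∀ j, 6 * μ j ≤ μ (j + 1)) ∧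
        (1 / (8 * (p : ℝ))) * (∑ k ∈ Finset.Ico K₁ K₂, x k) ≤
          (1 / (2 * ℓ)) * ∫ θ in (c - ℓ)..(c + ℓ),
            rp μ β n θ * ∑ k ∈ Finset.Ico K₁ K₂, x k * Real.cos (lam k * θ + α k)
  c_pos : 0 < c
  c_le : c ≤ 1 / 32
  c_eq : 1 / (8 * (p : ℝ)) = 4 * c
  one_lt_Cs : 1 < Cs
  Cs1 : CV ≤ (c ^ 2 / 16) * Cs
  Cs2 : Real.log (1 + (c / 40) * (c / 20)) ≤ (c / 24000) ^ 4 * Cs
  Cs3 : Real.log (1 + (c / 40) * (c / 20)) ≤ (c ^ 2 / 16) * Cs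

namespace Par
variable {q : ℝ} (R : Par q)
noncomputable def κ : ℝ := R.c / 40
noncomputable def κ' : ℝ := R.c / 4
noncomputable def ε : ℝ := R.c ^ 2 / 16
noncomputable def d : ℝ := R.c / 20
noncomputable def ε₁ : ℝ := Real.log (1 + R.κ * R.d)
noncomputable def w : ℝ := (R.c / 24000) ^ 2
noncomputable def r₀ : ℝ := (R.c / 24000) ^ 4
end Par

theorem exists_par (q : ℝ) (hq : 1 < q) : Nonempty (Par q) := by
  obtain ⟨p, hp, CV, hCV, hdrift⟩ := riesz_drift q hq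
  have hp' : (0 : ℝ) < p := by exact_mod_cast hp
  have hp1 : (1 : ℝ) ≤ p := by exact_mod_cast hp
  set c : ℝ := 1 / (32 * (p : ℝ)) with hc
  have hcpos : 0 < c := by positivity
  have hcle : c ≤ 1 / 32 := by
    rw [hc]
    apply one_div_le_one_div_of_le (by norm_num)
    linarith
  set E : ℝ := Real.log (1 + (c / 40) * (c / 20)) with hE
  have h1 : 0 < (c / 24000) ^ 4 := by positivity
  have h2 : 0 < c ^ 2 / 16 := by positivity
  set Cs : ℝ := max (max 2 (CV / (c ^ 2 / 16))) (max (E / (c / 24000) ^ 4) (E / (c ^ 2 / 16))) with hCs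
  have hm1 : CV / (c ^ 2 / 16) ≤ Cs := (le_max_right _ _).trans (le_max_left _ _)
  have hm2 : E / (c / 24000) ^ 4 ≤ Cs := (le_max_left _ _).trans (le_max_right _ _)
  have hm3 : E / (c ^ 2 / 16) ≤ Cs := (le_max_right _ _).trans (le_max_right _ _)
  have hm0 : (2 : ℝ) ≤ Cs := (le_max_left _ _).trans (le_max_left _ _)
  exact ⟨{
    p := p
    CV := CV
    c := c
    Cs := Cs
    hp := hp
    hCV := hCV
    drift := hdrift
    c_pos := hcpos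
    c_le := hcle
    c_eq := by rw [hc]; field_simp; norm_num
    one_lt_Cs := by linarith
    Cs1 := by rw [div_le_iff₀ h2] at hm1; linarith
    Cs2 := by rw [div_le_iff₀ h1] at hm2; linarith
    Cs3 := by rw [div_le_iff₀ h2] at hm3; linarith }⟩

/-- the state at a cut: `P` is large on the arc of radius `2ε/Λ` around `θ₀` -/
def Good {q : ℝ} (R : Par q) {S : Ser} (L : Lev S R.d) {g : ℕ} (C : Cut L R.Cs R.ε₁ R.κ g)
    (θ₀ : ℝ) : Prop :=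
  ∀ θ, |θ - θ₀| ≤ 2 * (R.ε / C.Λ) →
    R.c * S.m C.K (L.s (g + 1)) - R.κ' * (1 + R.d) ^ (g + 1) ≤ ‖S.P C.K (L.s (g + 1)) θ‖

/-! ===== TARGETS (prove these) ===== -/

theorem Ser.M_anti_aux (S : Ser) {s s' : ℝ} (hs : 0 < s) (h : s ≤ s') : S.M s' ≤ S.M s := by
  have := S.tail_anti 0 hs h
  simpa [Ser.m] using this

theorem Ser.m_anti_aux (S : Ser) (K : ℕ) {s s' : ℝ} (h : s ≤ s') : S.m K s' ≤ S.m K s :=
  Finset.sum_le_sum fun k _ => S.x_anti k h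

/-! safe lemmas -/
theorem Good.large {q : ℝ} {R : Par q} {S : Ser} {L : Lev S R.d} {g : ℕ}
    {C : Cut L R.Cs R.ε₁ R.κ g} {θ₀ : ℝ} (h : Good R L C θ₀) (θ : ℝ)
    (hθ : |θ - θ₀| ≤ 2 * (R.ε / C.Λ)) :
    (R.c * (73 / 100)) * (1 + R.d) ^ (g + 1) ≤ ‖S.P C.K (L.s (g + 1)) θ‖ := by
  have h1 := h θ hθ
  have h2 := C.tail_le
  have hc := R.c_pos
  have hc1 := R.c_le
  have hd : R.d = R.c / 20 := rfl
  have hk : R.κ' = R.c / 4 := rfl
  have hM : 0 < (1 + R.d) ^ (g + 1) := by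
    have : 0 < 1 + R.d := by rw [hd]; linarith
    positivity
  set M := (1 + R.d) ^ (g + 1) with hMdef
  set m := S.m C.K (L.s (g + 1)) with hm
  refine le_trans ?_ h1
  rw [hk]
  have h3 : 2 * R.d * M ≤ (1 / 320) * M := by
    apply mul_le_mul_of_nonneg_right _ hM.le
    rw [hd]; linarith
  have h4 : (1 - 1 / 320) * M ≤ m := by linarith
  have h5 : R.c * ((1 - 1 / 320) * M) ≤ R.c * m := mul_le_mul_of_nonneg_left h4 hc.le
  nlinarith [mul_pos hc hM]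

theorem Good.left {q : ℝ} {R : Par q} {S : Ser} {L : Lev S R.d} {g : ℕ}
    {C : Cut L R.Cs R.ε₁ R.κ g} {θ₀ : ℝ} (h : Good R L C θ₀) (θ : ℝ)
    (hθ : |θ - θ₀| ≤ 2 * (R.ε / C.Λ)) (s : ℝ) (hs : s ∈ Icc (L.s (g + 2)) (L.s (g + 1))) :
    (R.c / 4) * (1 + R.d) ^ (g + 1) ≤ ‖S.F s θ‖ := by
  have h1 := h.large θ hθ
  have h2 := C.tail_le
  have hc := R.c_pos
  have hc1 := R.c_le
  have hd : R.d = R.c / 20 := rfl
  have hM : 0 < (1 + R.d) ^ (g + 1) := by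
    have : 0 < 1 + R.d := by rw [hd]; linarith
    positivity
  have hs0 : 0 < s := lt_of_lt_of_le (L.s_pos _) hs.1
  have h3 := S.norm_F_sub_P_le C.K hs0 hs.2 θ
  have h4 := S.M_anti_aux (L.s_pos (g + 2)) hs.1
  rw [L.hM] at h4
  have h5 : (1 + R.d) ^ (g + 2) = (1 + R.d) * (1 + R.d) ^ (g + 1) := by ring
  rw [h5] at h4
  have h6 : ‖S.P C.K (L.s (g + 1)) θ‖ - ‖S.F s θ‖ ≤ ‖S.F s θ - S.P C.K (L.s (g + 1)) θ‖ := by
    rw [norm_sub_rev]; exact norm_sub_norm_le _ _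
  set M := (1 + R.d) ^ (g + 1) with hMdef
  have h7 : R.d * M = R.c * M / 20 := by rw [hd]; ring
  have h8 : 0 < R.c * M := mul_pos hc hM
  have h9 : 2 * R.d * M = R.c * M / 10 := by rw [hd]; ring
  nlinarith

theorem Good.right {q : ℝ} {R : Par q} {S : Ser} {L : Lev S R.d} {g : ℕ}
    {C : Cut L R.Cs R.ε₁ R.κ g} {θ₀ : ℝ} (h : Good R L C θ₀) (θ : ℝ)
    (hθ : |θ - θ₀| ≤ 2 * (R.ε / C.Λ)) (s : ℝ) (hs : s ∈ Icc (L.s (g + 1)) (L.s g)) :
    (R.c / 4) * (1 + R.d) ^ (g + 1) ≤ ‖S.F s θ‖ := by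
  have h1 := h.large θ hθ
  have h2 := C.tail_le
  have hc := R.c_pos
  have hc1 := R.c_le
  have hd : R.d = R.c / 20 := rfl
  have hd0 : 0 < 1 + R.d := by rw [hd]; linarith
  have hM : 0 < (1 + R.d) ^ (g + 1) := by positivity
  have hMg : 0 < (1 + R.d) ^ g := by positivity
  have hs0 : 0 < s := lt_of_lt_of_le (L.s_pos _) hs.1
  have h3 := S.norm_F_sub_P_le' C.K (L.s_pos (g + 1)) hs.1 θ
  have h4 := S.M_anti_aux hs0 hs.2
  rw [L.hM] at h4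
  have h5 := S.tail_anti C.K (L.s_pos (g + 1)) hs.1
  rw [L.hM] at h5
  have h10 := S.m_le_M C.K (L.s_pos (g + 1))
  rw [L.hM] at h10
  have h6 : ‖S.P C.K (L.s (g + 1)) θ‖ - ‖S.F s θ‖ ≤ ‖S.F s θ - S.P C.K (L.s (g + 1)) θ‖ := by
    rw [norm_sub_rev]; exact norm_sub_norm_le _ _
  have h11 : (1 + R.d) ^ (g + 1) = (1 + R.d) * (1 + R.d) ^ g := by ring
  have h12 : (1 + R.d) ^ g ≤ (1 + R.d) ^ (g + 1) := by
    rw [h11]; nlinarith [hd]
  have h13 : R.d * (1 + R.d) ^ g ≤ R.d * (1 + R.d) ^ (g + 1) :=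
    mul_le_mul_of_nonneg_left h12 (by rw [hd]; linarith)
  have h14 : (1 + R.d) ^ (g + 1) - (1 + R.d) ^ g ≤ R.d * (1 + R.d) ^ (g + 1) := by
    nlinarith
  set M := (1 + R.d) ^ (g + 1) with hMdef
  have h7 : R.d * M = R.c * M / 20 := by rw [hd]; ring
  have h8 : 0 < R.c * M := mul_pos hc hM
  have h9 : 2 * R.d * M = R.c * M / 10 := by rw [hd]; ring
  linarith

/-! ===== TARGETS (prove these) ===== -/

theorem Ser.re_P (S : Ser) (K : ℕ) (s θ : ℝ) :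
    (S.P K s θ).re = ∑ k ∈ Finset.Ico 0 K, S.x k s * Real.cos (S.lam k * θ + (S.a k).arg) := by
  rw [Ser.P, Complex.re_sum, Finset.range_eq_Ico]
  refine Finset.sum_congr rfl fun k _ => ?_
  have h1 : (S.lam k : ℂ) * (⟨-s, θ⟩ : ℂ) = ⟨-(S.lam k * s), S.lam k * θ⟩ := by
    apply Complex.ext <;> simp
  rw [h1]
  have h2 : S.a k = ‖S.a k‖ * Complex.exp ((S.a k).arg * Complex.I) :=
    (Complex.norm_mul_exp_arg_mul_I (S.a k)).symm
  conv_lhs => rw [h2]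
  rw [mul_assoc, ← Complex.exp_add, Complex.re_ofReal_mul, Complex.exp_re, Ser.x]
  simp only [Complex.add_re, Complex.mul_re, Complex.ofReal_re, Complex.I_re, mul_zero,
    Complex.ofReal_im, Complex.I_im, mul_one, sub_self, zero_add, Complex.add_im, Complex.mul_im,
    add_zero]
  rw [add_comm (S.lam k * θ)]
  ring

theorem init {q : ℝ} (R : Par q) {S : Ser} (hq : S.q = q) (L : Lev S R.d) {g : ℕ}
    (C : Cut L R.Cs R.ε₁ R.κ g) : ∃ θ₀ : ℝ, Good R L C θ₀ := by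
  have hc := R.c_pos
  have hc1 := R.c_le
  have hs : 0 < L.s (g + 1) := L.s_pos _
  have hd : 0 < R.d := L.d_pos
  have hM : 0 < (1 + R.d) ^ (g + 1) := by positivity
  have hV : 0 ≤ S.m C.K (L.s (g + 1)) := Finset.sum_nonneg fun k _ => S.x_nonneg k _
  have hε : 0 < R.ε := by unfold Par.ε; positivity
  have hκ : 0 < R.κ := by unfold Par.κ; positivity
  have hw : 0 < R.w := by unfold Par.w; positivity
  have hr : 0 < R.r₀ := by unfold Par.r₀; positivity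
  have hl2 : 0 < R.ε / C.Λ := div_pos hε C.hΛ
  have hlam := S.lam_pos 0
  have hCV : 0 < R.CV := lt_of_lt_of_le (by norm_num) R.hCV
  set l : ℝ := R.CV / S.lam 0 + (R.ε / C.Λ) / R.r₀ with hl
  have hl0 : 0 < l := by positivity
  have hll : R.CV ≤ S.lam 0 * l := by
    have h1 : S.lam 0 * l = R.CV + S.lam 0 * ((R.ε / C.Λ) / R.r₀) := by
      rw [hl]; field_simp
    have h2 : 0 ≤ S.lam 0 * ((R.ε / C.Λ) / R.r₀) := by positivity
    linarith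
  obtain ⟨μ, β, n, hμ0, hμ, hdr⟩ := R.drift S.lam (fun k => S.x k (L.s (g + 1)))
    (fun k => (S.a k).arg) 0 C.K 0 l S.lam_pos (fun k => hq ▸ S.ratio k)
    (fun k => S.x_nonneg k _) hl0 hll
  have a1 : 24000 * Real.sqrt R.w ≤ R.c := by
    unfold Par.w
    rw [Real.sqrt_sq (by positivity)]
    linarith
  have a2 : 24000 * R.r₀ ^ ((1 : ℝ) / 4) ≤ R.c := by
    unfold Par.r₀
    have : ((R.c / 24000) ^ 4 : ℝ) ^ ((1 : ℝ) / 4) = R.c / 24000 := by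
      rw [← Real.rpow_natCast, ← Real.rpow_mul (by positivity)]
      norm_num
    rw [this]; linarith
  have a3 : R.ε / C.Λ ≤ R.r₀ * l := by
    rw [hl]
    have h1 : R.r₀ * (R.CV / S.lam 0 + (R.ε / C.Λ) / R.r₀) = R.r₀ * (R.CV / S.lam 0) + R.ε / C.Λ := by
      field_simp
    have h2 : 0 ≤ R.r₀ * (R.CV / S.lam 0) := by positivity
    linarith
  have a4 : 4 ≤ μ 0 * l := by
    have h1 : S.lam 0 * l ≤ μ 0 * l := mul_le_mul_of_nonneg_right hμ0 hl0.le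
    have := R.hCV
    linarith
  have a5 : Continuous (fun θ : ℝ => ∑ k ∈ Finset.Ico 0 C.K, S.x k (L.s (g + 1)) *
      Real.cos (S.lam k * θ + (S.a k).arg)) := by
    fun_prop
  have a6 : ∀ θ : ℝ, (fun θ : ℝ => ∑ k ∈ Finset.Ico 0 C.K, S.x k (L.s (g + 1)) *
      Real.cos (S.lam k * θ + (S.a k).arg)) θ ≤ S.m C.K (L.s (g + 1)) := by
    intro θ
    simp only [Ser.m, Finset.range_eq_Ico]
    refine Finset.sum_le_sum fun k _ => ?_
    have := Real.cos_le_one (S.lam k * θ + (S.a k).arg)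
    have := S.x_nonneg k (L.s (g + 1))
    nlinarith
  have a7 : 4 * R.c * S.m C.K (L.s (g + 1)) ≤ (1 / (2 * l)) * ∫ θ in (0 - l)..(0 + l),
      rp μ β n θ * (fun θ : ℝ => ∑ k ∈ Finset.Ico 0 C.K, S.x k (L.s (g + 1)) *
      Real.cos (S.lam k * θ + (S.a k).arg)) θ := by
    rw [← R.c_eq]
    simpa only [Ser.m, Finset.range_eq_Ico] using hdr
  obtain ⟨t, -, ht, -⟩ := select R.c R.w R.r₀ hc hc1 hw a1 hr a2 μ β n (hlam.trans_le hμ0) hμ
    0 l (R.ε / C.Λ) ((1 + R.d) ^ (g + 1)) (S.m C.K (L.s (g + 1))) R.κ hl2 a3 a4 hM hκ hV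
    _ a5 a6 a7 ∅ (by simp) (by simpa [W] using hw) ∅ (fun _ => 0) (fun _ => 0) (fun _ => ∅) 0
    (by simp) (by simp) (by simp) (by simp) (by simp) (by simp; positivity)
  refine ⟨t, fun θ hθ => ?_⟩
  have h1 : ‖S.P C.K (L.s (g + 1)) t - S.P C.K (L.s (g + 1)) θ‖ ≤
      C.Λ * |t - θ| * S.m C.K (L.s (g + 1)) := S.norm_P_sub_P_le C.K C.Λ C.hK _ _ _
  have h2 : ‖S.P C.K (L.s (g + 1)) t‖ ≤ ‖S.P C.K (L.s (g + 1)) θ‖ +
      ‖S.P C.K (L.s (g + 1)) t - S.P C.K (L.s (g + 1)) θ‖ := by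
    have := norm_add_le (S.P C.K (L.s (g + 1)) θ) (S.P C.K (L.s (g + 1)) t - S.P C.K (L.s (g + 1)) θ)
    simpa using this
  have h3 : (S.P C.K (L.s (g + 1)) t).re ≤ ‖S.P C.K (L.s (g + 1)) t‖ := Complex.re_le_norm _
  rw [S.re_P] at h3
  have h4 : C.Λ * |t - θ| ≤ 2 * R.ε := by
    rw [abs_sub_comm]
    calc C.Λ * |θ - t| ≤ C.Λ * (2 * (R.ε / C.Λ)) := mul_le_mul_of_nonneg_left hθ C.hΛ.le
      _ = 2 * R.ε := by have := C.hΛ; field_simp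
  have h5 : C.Λ * |t - θ| * S.m C.K (L.s (g + 1)) ≤ 2 * R.ε * S.m C.K (L.s (g + 1)) :=
    mul_le_mul_of_nonneg_right h4 hV
  have h6 : 2 * R.ε ≤ R.c := by
    unfold Par.ε; nlinarith
  have h7 : R.κ ≤ R.κ' := by
    unfold Par.κ Par.κ'; linarith
  have h8 : 2 * R.ε * S.m C.K (L.s (g + 1)) ≤ R.c * S.m C.K (L.s (g + 1)) :=
    mul_le_mul_of_nonneg_right h6 hV
  have h9 : R.κ * (1 + R.d) ^ (g + 1) ≤ R.κ' * (1 + R.d) ^ (g + 1) :=
    mul_le_mul_of_nonneg_right h7 hM.le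
  nlinarith

/-! ===== TARGETS (prove these) ===== -/


/-- one term of the series -/
noncomputable def Ser.tm (S : Ser) (k : ℕ) (s θ : ℝ) : ℂ :=
  S.a k * Complex.exp (S.lam k * (⟨-s, θ⟩ : ℂ))

theorem Ser.P_eq (S : Ser) (K : ℕ) (s θ : ℝ) : S.P K s θ = ∑ k ∈ Finset.range K, S.tm k s θ := rfl

theorem exp_split (l s θ : ℝ) : Complex.exp (l * (⟨-s, θ⟩ : ℂ)) =
    (Real.exp (-(l * s)) : ℂ) * Complex.exp ((l * θ : ℝ) * Complex.I) := by
  rw [Complex.ofReal_exp, ← Complex.exp_add]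
  congr 1
  apply Complex.ext <;> simp

theorem Ser.norm_tm (S : Ser) (k : ℕ) (s θ : ℝ) : ‖S.tm k s θ‖ = S.x k s := by
  rw [Ser.tm, Ser.x, norm_mul, exp_split, norm_mul, Complex.norm_exp_ofReal_mul_I, mul_one,
    Complex.norm_real, Real.norm_eq_abs, abs_of_pos (Real.exp_pos _)]

theorem Ser.norm_tm_sub (S : Ser) (k : ℕ) {s s' : ℝ} (h : s ≤ s') (θ : ℝ) :
    ‖S.tm k s θ - S.tm k s' θ‖ = S.x k s - S.x k s' := by
  have h1 : S.tm k s θ - S.tm k s' θ =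
      (S.a k * Complex.exp ((S.lam k * θ : ℝ) * Complex.I)) *
        ((Real.exp (-(S.lam k * s)) - Real.exp (-(S.lam k * s')) : ℝ) : ℂ) := by
    rw [Ser.tm, Ser.tm, exp_split, exp_split]
    push_cast
    ring
  have h2 : Real.exp (-(S.lam k * s')) ≤ Real.exp (-(S.lam k * s)) := by
    apply Real.exp_le_exp.2
    have := mul_le_mul_of_nonneg_left h (S.lam_pos k).le
    linarith
  rw [h1, norm_mul, norm_mul, Complex.norm_exp_ofReal_mul_I, mul_one, Complex.norm_real,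
    Real.norm_eq_abs, abs_of_nonneg (sub_nonneg.2 h2), Ser.x, Ser.x]
  ring

theorem Ser.re_tm (S : Ser) {u : ℂ} (hu : ‖u‖ = 1) (k : ℕ) (s θ : ℝ) :
    (u * S.tm k s θ).re = S.x k s * Real.cos (S.lam k * θ + Complex.arg (u * S.a k)) := by
  have h1 : u * S.a k = (‖S.a k‖ : ℂ) * Complex.exp (Complex.arg (u * S.a k) * Complex.I) := by
    have h := (Complex.norm_mul_exp_arg_mul_I (u * S.a k)).symm
    rw [norm_mul, hu, one_mul] at h
    exact h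
  generalize Complex.arg (u * S.a k) = α at h1 ⊢
  have h2 : u * S.tm k s θ = ((S.x k s : ℝ) : ℂ) *
      Complex.exp ((S.lam k * θ + α : ℝ) * Complex.I) := by
    rw [Ser.tm, exp_split, ← mul_assoc, h1, Ser.x]
    push_cast
    rw [add_mul, Complex.exp_add]
    ring
  rw [h2, Complex.re_ofReal_mul, Complex.exp_ofReal_mul_I_re]

theorem norm_unit_sub {z z₀ : ℂ} (hz : z ≠ 0) (hz₀ : z₀ ≠ 0) :
    ‖z / ‖z‖ - z₀ / ‖z₀‖‖ ≤ 2 * ‖z - z₀‖ / ‖z₀‖ := by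
  have hr : 0 < ‖z‖ := norm_pos_iff.2 hz
  have hr₀ : 0 < ‖z₀‖ := norm_pos_iff.2 hz₀
  have hrc : (‖z‖ : ℂ) ≠ 0 := by exact_mod_cast hr.ne'
  have hrc₀ : (‖z₀‖ : ℂ) ≠ 0 := by exact_mod_cast hr₀.ne'
  have h1 : z / ‖z‖ - z₀ / ‖z₀‖ = (z - z₀) / ‖z₀‖ + (z / ‖z‖) * ((‖z₀‖ - ‖z‖ : ℝ) / ‖z₀‖ : ℂ) := by
    push_cast
    field_simp
    ring
  have h2 : ‖z / ‖z‖‖ = 1 := by
    rw [norm_div, Complex.norm_real, Real.norm_eq_abs, abs_of_pos hr, div_self hr.ne']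
  have h3 : ‖((‖z₀‖ - ‖z‖ : ℝ) / ‖z₀‖ : ℂ)‖ ≤ ‖z - z₀‖ / ‖z₀‖ := by
    rw [norm_div, Complex.norm_real, Complex.norm_real, Real.norm_eq_abs, Real.norm_eq_abs,
      abs_of_pos hr₀]
    gcongr
    rw [abs_sub_comm]
    exact abs_norm_sub_norm_le z z₀
  rw [h1]
  refine (norm_add_le _ _).trans ?_
  rw [norm_mul, h2, one_mul, norm_div, Complex.norm_real, Real.norm_eq_abs, abs_of_pos hr₀]
  have h4 : 2 * ‖z - z₀‖ / ‖z₀‖ = ‖z - z₀‖ / ‖z₀‖ + ‖z - z₀‖ / ‖z₀‖ := by ring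
  rw [h4]
  linarith

/-- lower bound of `‖z + v‖` through the direction of a nearby `z₀` -/
theorem lower_dir {z z₀ v : ℂ} (hz : z ≠ 0) (hz₀ : z₀ ≠ 0) {δ V : ℝ} (hV : ‖v‖ ≤ V)
    (hδ : 2 * ‖z - z₀‖ / ‖z₀‖ ≤ δ) :
    ‖z‖ + ((starRingEnd ℂ (z₀ / ‖z₀‖)) * v).re - δ * V ≤ ‖z + v‖ := by
  have hr : 0 < ‖z‖ := norm_pos_iff.2 hz
  set w : ℂ := z / ‖z‖ with hw
  set u : ℂ := z₀ / ‖z₀‖ with hu
  have hw1 : ‖w‖ = 1 := by
    rw [hw, norm_div, Complex.norm_real, Real.norm_eq_abs, abs_of_pos hr, div_self hr.ne']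
  have h1 : ((starRingEnd ℂ w) * (z + v)).re ≤ ‖z + v‖ := by
    refine (Complex.re_le_norm _).trans ?_
    rw [norm_mul, RCLike.norm_conj, hw1, one_mul]
  have h2 : ((starRingEnd ℂ w) * (z + v)).re = ‖z‖ + ((starRingEnd ℂ u) * v).re +
      ((starRingEnd ℂ (w - u)) * v).re := by
    have h3 : (starRingEnd ℂ w) * z = (‖z‖ : ℂ) := by
      rw [hw, map_div₀, Complex.conj_ofReal, div_mul_eq_mul_div, ← Complex.normSq_eq_conj_mul_self,
        Complex.normSq_eq_norm_sq]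
      have : (‖z‖ : ℂ) ≠ 0 := by exact_mod_cast hr.ne'
      push_cast
      field_simp
    rw [mul_add, h3, map_sub, sub_mul, Complex.add_re, Complex.ofReal_re, Complex.sub_re]
    ring
  have h4 : |((starRingEnd ℂ (w - u)) * v).re| ≤ δ * V := by
    refine (Complex.abs_re_le_norm _).trans ?_
    rw [norm_mul, RCLike.norm_conj]
    have h5 : ‖w - u‖ ≤ δ := (norm_unit_sub hz hz₀).trans hδ
    exact mul_le_mul h5 hV (norm_nonneg _) ((norm_nonneg _).trans h5)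
  have h6 := neg_abs_le ((starRingEnd ℂ (w - u)) * v).re
  linarith

theorem num36 {c : ℝ} (hc : 0 < c) (hc1 : c ≤ 1 / 32) : 36 * (c ^ 2 / 16) ≤ 1 := by
  nlinarith

theorem num2 {c : ℝ} (hc : 0 < c) (hc1 : c ≤ 1 / 32) : 2 * (c ^ 2 / 16) ≤ c / 2 := by
  nlinarith

/-- one window: from the cut `C` at `g` to the cut `C'` at `g' > g` -/
theorem step {q : ℝ} (R : Par q) {S : Ser} (hq : S.q = q) (L : Lev S R.d) {g g' : ℕ} (hgg' : g < g')
    (C : Cut L R.Cs R.ε₁ R.κ g) (C' : Cut L R.Cs R.ε₁ R.κ g') (θ₀ : ℝ) (hG : Good R L C θ₀)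
    (Pold : Finset (ℝ × ℝ)) (hPold : ∀ b ∈ Pold, 0 < b.2) (hW : W Pold θ₀ (R.ε / C.Λ) < R.w)
    (N : Finset ℕ) (hN : ∀ n ∈ N, g < n ∧ n + 1 < g')
    (τ : ℕ → ℝ) (B : ℕ → Finset ℝ) (Lm : ℕ)
    (hB : ∀ n ∈ N, ∀ y : ℝ, ((B n).filter (fun b => |b - y| ≤ (L.η (n + 2) / 9) / 2)).card ≤ Lm)
    (hτ : ∀ n ∈ N, 0 < τ n) (hτ' : ∀ n ∈ N, τ n ≤ 1 / 2)
    (hsum : 24000 * Lm * ∑ n ∈ N, Real.sqrt (τ n) ≤ R.c * R.w) :
    R.ε / C'.Λ ≤ R.r₀ * (R.ε / C.Λ) ∧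
    ∃ θ : ℝ, |θ - θ₀| ≤ R.ε / C.Λ ∧ Good R L C' θ ∧
      W (Pold ∪ N.biUnion (fun n => (B n).image (fun b => (b, τ n * (L.η (n + 2) / 9))))) θ
        (R.ε / C'.Λ) < R.w := by
  have hc := R.c_pos
  have hc1 := R.c_le
  have hκ : R.κ = R.c / 40 := rfl
  have hκ' : R.κ' = R.c / 4 := rfl
  have hε : R.ε = R.c ^ 2 / 16 := rfl
  have hd : R.d = R.c / 20 := rfl
  have hw : R.w = (R.c / 24000) ^ 2 := rfl
  have hr₀ : R.r₀ = (R.c / 24000) ^ 4 := rfl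
  have hCs : 1 < R.Cs := R.one_lt_Cs
  have hCs0 : 0 < R.Cs := by linarith
  have hεpos : 0 < R.ε := by rw [hε]; positivity
  have hκpos : 0 < R.κ := by rw [hκ]; positivity
  have hdpos : 0 < R.d := by rw [hd]; positivity
  have hr₀pos : 0 < R.r₀ := by rw [hr₀]; positivity
  have hwpos : 0 < R.w := by rw [hw]; positivity
  have hκd : 0 < R.κ * R.d := mul_pos hκpos hdpos
  have hκ1 : R.κ ≤ 1 := by rw [hκ]; linarith
  have hd1 : R.d ≤ 1 := by rw [hd]; linarith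
  have hκd1 : R.κ * R.d ≤ 1 := by
    calc R.κ * R.d ≤ 1 * 1 := mul_le_mul hκ1 hd1 hdpos.le zero_le_one
      _ = 1 := one_mul 1
  have hr₀1 : R.r₀ ≤ 1 / 2 := by
    rw [hr₀]
    have h1 : R.c / 24000 ≤ 1 / 2 := by linarith
    have h0 : 0 ≤ R.c / 24000 := by positivity
    calc (R.c / 24000) ^ 4 ≤ (1 / 2) ^ 4 := pow_le_pow_left₀ h0 h1 4
      _ ≤ 1 / 2 := by norm_num
  have hε36 : 36 * R.ε ≤ 1 := by
    rw [hε]
    exact num36 hc hc1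
  have hε₁ : R.ε₁ = Real.log (1 + R.κ * R.d) := rfl
  have hε₁pos : 0 < R.ε₁ := by rw [hε₁]; exact Real.log_pos (by linarith)
  have hε₁le : R.ε₁ ≤ R.κ * R.d := by
    rw [hε₁]
    have := Real.log_le_sub_one_of_pos (show 0 < 1 + R.κ * R.d by linarith)
    linarith
  have hexpε₁ : Real.exp R.ε₁ = 1 + R.κ * R.d := Real.exp_log (by linarith)
  have hCs1 : R.CV ≤ R.ε * R.Cs := R.Cs1
  have hCs2 : R.ε₁ ≤ R.r₀ * R.Cs := R.Cs2
  have hCs3 : R.ε₁ ≤ R.ε * R.Cs := R.Cs3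
  have hη1 : L.η g' ≤ L.η (g + 1) := L.η_anti hgg'
  have hΛ := C.hΛ
  have hΛ' := C'.hΛ
  have hηg := L.η_pos (g + 1)
  have hupper := C.upper
  have hlower : 1 ≤ C'.Λ * L.η (g + 1) :=
    C'.lower.trans (mul_le_mul_of_nonneg_left hη1 hΛ'.le)
  have hr1 : C.Λ * L.η (g + 1) ≤ R.r₀ := by
    have h2 : R.Cs * (C.Λ * L.η (g + 1)) ≤ R.Cs * R.r₀ := by
      calc R.Cs * (C.Λ * L.η (g + 1)) = R.Cs * C.Λ * L.η (g + 1) := by ring
        _ ≤ R.ε₁ := hupper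
        _ ≤ R.r₀ * R.Cs := hCs2
        _ = R.Cs * R.r₀ := mul_comm _ _
    exact le_of_mul_le_mul_left h2 hCs0
  have hr2 : C.Λ ≤ R.r₀ * C'.Λ := by
    have h2 : C.Λ * L.η (g + 1) ≤ (R.r₀ * C'.Λ) * L.η (g + 1) := by
      calc C.Λ * L.η (g + 1) ≤ R.r₀ := hr1
        _ = R.r₀ * 1 := (mul_one _).symm
        _ ≤ R.r₀ * (C'.Λ * L.η (g + 1)) := mul_le_mul_of_nonneg_left hlower hr₀pos.le
        _ = (R.r₀ * C'.Λ) * L.η (g + 1) := by ring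
    exact le_of_mul_le_mul_right h2 hηg
  set ℓ := R.ε / C.Λ with hℓ
  set ℓ' := R.ε / C'.Λ with hℓ'
  have hℓΛ : ℓ * C.Λ = R.ε := div_mul_cancel₀ _ hΛ.ne'
  have hℓ'Λ : ℓ' * C'.Λ = R.ε := div_mul_cancel₀ _ hΛ'.ne'
  have hℓpos : 0 < ℓ := div_pos hεpos hΛ
  have hℓ'pos : 0 < ℓ' := div_pos hεpos hΛ'
  have hgoal1 : ℓ' ≤ R.r₀ * ℓ := by
    have h2 : ℓ' * C.Λ ≤ (R.r₀ * ℓ) * C.Λ := by
      calc ℓ' * C.Λ ≤ ℓ' * (R.r₀ * C'.Λ) := mul_le_mul_of_nonneg_left hr2 hℓ'pos.le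
        _ = R.r₀ * (ℓ' * C'.Λ) := by ring
        _ = R.r₀ * (ℓ * C.Λ) := by rw [hℓ'Λ, hℓΛ]
        _ = (R.r₀ * ℓ) * C.Λ := by ring
    exact le_of_mul_le_mul_right h2 hΛ
  refine ⟨hgoal1, ?_⟩
  have hℓ'2 : 2 * ℓ' ≤ ℓ := by
    have h2 : R.r₀ * ℓ ≤ 1 / 2 * ℓ := mul_le_mul_of_nonneg_right hr₀1 hℓpos.le
    linarith
  -- `K' ≤ C'.K`
  have hCsΛ : R.Cs * C.Λ ≤ C'.Λ := by
    have h2 : (R.Cs * C.Λ) * L.η (g + 1) ≤ C'.Λ * L.η (g + 1) := by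
      calc R.Cs * C.Λ * L.η (g + 1) ≤ R.ε₁ := hupper
        _ ≤ 1 := hε₁le.trans hκd1
        _ ≤ C'.Λ * L.η (g + 1) := hlower
    exact le_of_mul_le_mul_right h2 hηg
  have hKK : C.K' ≤ C'.K := by
    by_contra hcon
    push Not at hcon
    have h2 := C.hK' _ hcon
    have h3 := C'.hK2 C'.K le_rfl
    linarith
  have hlamK : R.CV ≤ S.lam C.K' * ℓ := by
    have h2 := C.hK'2 C.K' le_rfl
    calc R.CV ≤ R.ε * R.Cs := hCs1
      _ = (R.Cs * C.Λ) * ℓ := by rw [← hℓΛ]; ring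
      _ ≤ S.lam C.K' * ℓ := mul_le_mul_of_nonneg_right h2.le hℓpos.le
  -- notation
  set Mn := (1 + R.d) ^ (g + 1) with hMn
  set MN := (1 + R.d) ^ (g' + 1) with hMN
  have hMnpos : 0 < Mn := by positivity
  have hT0 : R.d * Mn ≤ MN - Mn := by
    have h2 : (1 + R.d) ^ (g + 1 + 1) ≤ MN :=
      pow_le_pow_right₀ (by linarith) (by omega)
    rw [pow_succ] at h2
    have h3 : (1 + R.d) ^ (g + 1) * (1 + R.d) = Mn + R.d * Mn := by rw [hMn]; ring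
    rw [h3] at h2
    linarith
  set T := MN - Mn with hT
  have hTpos : 0 < T := lt_of_lt_of_le (mul_pos hdpos hMnpos) hT0
  set sn := L.s (g + 1) with hsn
  set sN := L.s (g' + 1) with hsN
  have hsNn : sN ≤ sn := L.anti.antitone (by omega)
  have hsnpos : 0 < sn := L.s_pos _
  set z₀ := S.P C.K sn θ₀ with hz₀
  have hz₀l : (R.c * (73 / 100)) * Mn ≤ ‖z₀‖ := hG.large θ₀ (by
    rw [sub_self, abs_zero]; positivity)
  have hz₀pos : 0 < ‖z₀‖ := lt_of_lt_of_le (by positivity) hz₀l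
  have hz₀ne : z₀ ≠ 0 := norm_pos_iff.1 hz₀pos
  set u : ℂ := (starRingEnd ℂ) (z₀ / ‖z₀‖) with hu
  have hu1 : ‖u‖ = 1 := by
    rw [hu, RCLike.norm_conj, norm_div, Complex.norm_real, Real.norm_eq_abs, abs_of_pos hz₀pos,
      div_self hz₀pos.ne']
  set α : ℕ → ℝ := fun k => Complex.arg (u * S.a k) with hα
  set V : ℝ := ∑ k ∈ Finset.Ico C.K' C'.K, S.x k sN with hVdef
  have hV0 : 0 ≤ V := Finset.sum_nonneg fun k _ => S.x_nonneg k sN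
  set X : ℝ → ℝ := fun θ => ∑ k ∈ Finset.Ico C.K' C'.K, S.x k sN * Real.cos (S.lam k * θ + α k)
    with hX
  set Vs : ℝ → ℂ := fun θ => ∑ k ∈ Finset.Ico C.K' C'.K, S.tm k sN θ with hVs
  have hXVs : ∀ θ, (u * Vs θ).re = X θ := by
    intro θ
    simp only [hVs, hX, Finset.mul_sum, Complex.re_sum]
    exact Finset.sum_congr rfl fun k _ => S.re_tm hu1 k sN θ
  have hVsV : ∀ θ, ‖Vs θ‖ ≤ V := by
    intro θ
    refine (norm_sum_le _ _).trans (le_of_eq ?_)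
    exact Finset.sum_congr rfl fun k _ => S.norm_tm k sN θ
  have hXcont : Continuous X := by
    simp only [hX]
    fun_prop
  have hXV : ∀ θ, X θ ≤ V := by
    intro θ
    refine Finset.sum_le_sum fun k _ => ?_
    calc S.x k sN * Real.cos (S.lam k * θ + α k) ≤ S.x k sN * 1 :=
          mul_le_mul_of_nonneg_left (Real.cos_le_one _) (S.x_nonneg k sN)
      _ = S.x k sN := mul_one _
  obtain ⟨μ, β, nn, hμK, hμ6, hdr⟩ := R.drift S.lam (fun k => S.x k sN) α C.K' C'.K θ₀ ℓ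
    S.lam_pos (fun k => by rw [← hq]; exact S.ratio k) (fun k => S.x_nonneg k sN) hℓpos hlamK
  have hμ0 : 0 < μ 0 := lt_of_lt_of_le (S.lam_pos _) hμK
  have hμℓ : 4 ≤ μ 0 * ℓ :=
    (R.hCV.trans hlamK).trans (mul_le_mul_of_nonneg_right hμK hℓpos.le)
  have hsqrt : Real.sqrt R.w = R.c / 24000 := by
    rw [hw, Real.sqrt_sq (by positivity)]
  have hroot : R.r₀ ^ ((1 : ℝ) / 4) = R.c / 24000 := by
    rw [hr₀, ← Real.rpow_natCast, ← Real.rpow_mul (by positivity)]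
    norm_num
  obtain ⟨θ', hθ', hXθ', hWθ'⟩ := select R.c R.w R.r₀ hc hc1 hwpos
    (by rw [hsqrt]; linarith) hr₀pos (by rw [hroot]; linarith) μ β nn hμ0 hμ6 θ₀ ℓ ℓ' T V R.κ
    hℓ'pos hgoal1 hμℓ hTpos hκpos hV0 X hXcont hXV
    (by rw [← R.c_eq]; exact hdr) Pold hPold hW N (fun n => L.η (n + 2) / 9) τ B Lm hB
    (by
      intro n hn
      have h2 : L.η g' ≤ L.η (n + 2) := L.η_anti (by have := (hN n hn).2; omega)
      have h3 := C'.lower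
      have h4 : ℓ' ≤ R.ε * L.η g' := by
        calc ℓ' = ℓ' * 1 := (mul_one _).symm
          _ ≤ ℓ' * (C'.Λ * L.η g') := mul_le_mul_of_nonneg_left h3 hℓ'pos.le
          _ = (ℓ' * C'.Λ) * L.η g' := by ring
          _ = R.ε * L.η g' := by rw [hℓ'Λ]
      have h5 : 36 * (R.ε * L.η g') ≤ L.η g' := by
        have := mul_le_mul_of_nonneg_right hε36 (L.η_pos g').le
        linarith
      show 4 * ℓ' ≤ L.η (n + 2) / 9
      linarith)
    (by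
      intro n hn
      have h2 : L.η (n + 2) ≤ L.η (g + 1) := L.η_anti (by have := (hN n hn).1; omega)
      have h3 : L.η (g + 1) * C.Λ ≤ ℓ * C.Λ := by
        rw [hℓΛ]
        have h4 : R.Cs * (L.η (g + 1) * C.Λ) ≤ R.Cs * R.ε := by
          calc R.Cs * (L.η (g + 1) * C.Λ) = R.Cs * C.Λ * L.η (g + 1) := by ring
            _ ≤ R.ε₁ := hupper
            _ ≤ R.ε * R.Cs := hCs3
            _ = R.Cs * R.ε := mul_comm _ _
        exact le_of_mul_le_mul_left h4 hCs0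
      have h5 : L.η (g + 1) ≤ ℓ := le_of_mul_le_mul_right h3 hΛ
      have h6 := L.η_pos (n + 2)
      show L.η (n + 2) / 9 ≤ ℓ
      linarith)
    hτ hτ' hsum
  refine ⟨θ', hθ', ?_, hWθ'⟩
  intro θ hθ
  have hθ0 : |θ - θ₀| ≤ 2 * ℓ := by
    have h2 : θ - θ₀ = (θ - θ') + (θ' - θ₀) := by ring
    rw [h2]
    refine (abs_add_le _ _).trans ?_
    linarith
  set z := S.P C.K sn θ with hz
  have hzl : (R.c * (73 / 100)) * Mn ≤ ‖z‖ := hG.large θ hθ0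
  have hzpos : 0 < ‖z‖ := lt_of_lt_of_le (by positivity) hzl
  have hzne : z ≠ 0 := norm_pos_iff.1 hzpos
  have hzG : R.c * S.m C.K sn - R.κ' * Mn ≤ ‖z‖ := hG θ hθ0
  set m := S.m C.K sn with hm
  have hmM : m ≤ Mn := by
    have := S.m_le_M C.K hsnpos
    rwa [L.hM] at this
  have hm0 : 0 ≤ m := Finset.sum_nonneg fun k _ => S.x_nonneg k sn
  have hzz : ‖z - z₀‖ ≤ 2 * R.ε * Mn := by
    have h2 := S.norm_P_sub_P_le C.K C.Λ C.hK sn θ θ₀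
    refine h2.trans ?_
    calc C.Λ * |θ - θ₀| * m ≤ C.Λ * (2 * ℓ) * m := by gcongr
      _ = 2 * (ℓ * C.Λ) * m := by ring
      _ = 2 * R.ε * m := by rw [hℓΛ]
      _ ≤ 2 * R.ε * Mn := by gcongr
  have hδ : 2 * ‖z - z₀‖ / ‖z₀‖ ≤ R.c / 2 := by
    rw [div_le_iff₀ hz₀pos]
    have h2 : 2 * (2 * R.ε * Mn) ≤ R.c / 2 * ((R.c * (73 / 100)) * Mn) := by
      rw [hε]
      have h3 : 0 < R.c ^ 2 * Mn := by positivity
      calc 2 * (2 * (R.c ^ 2 / 16) * Mn) = 1 / 4 * (R.c ^ 2 * Mn) := by ring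
        _ ≤ 73 / 200 * (R.c ^ 2 * Mn) := by linarith
        _ = R.c / 2 * ((R.c * (73 / 100)) * Mn) := by ring
    calc 2 * ‖z - z₀‖ ≤ 2 * (2 * R.ε * Mn) := by linarith
      _ ≤ R.c / 2 * ((R.c * (73 / 100)) * Mn) := h2
      _ ≤ R.c / 2 * ‖z₀‖ := by gcongr
  have hdir := lower_dir hzne hz₀ne (hVsV θ) hδ
  have hdir' : ‖z‖ + X θ - R.c / 2 * V ≤ ‖z + Vs θ‖ := by
    rw [← hXVs θ]
    exact hdir
  have hXX : X θ' - 2 * R.ε * V ≤ X θ := by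
    have h2 : |X θ' - X θ| ≤ 2 * R.ε * V := by
      rw [hX]
      simp only
      rw [← Finset.sum_sub_distrib]
      refine (Finset.abs_sum_le_sum_abs _ _).trans ?_
      rw [hVdef, Finset.mul_sum]
      refine Finset.sum_le_sum fun k hk => ?_
      have hk' : S.lam k ≤ C'.Λ := C'.hK k (Finset.mem_Ico.1 hk).2
      rw [← mul_sub, abs_mul, abs_of_nonneg (S.x_nonneg k sN), mul_comm]
      refine mul_le_mul_of_nonneg_right ?_ (S.x_nonneg k sN)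
      refine (Real.abs_cos_sub_cos_le _ _).trans ?_
      have h3 : S.lam k * θ' + α k - (S.lam k * θ + α k) = S.lam k * (θ' - θ) := by ring
      rw [h3, abs_mul, abs_of_pos (S.lam_pos k), abs_sub_comm]
      calc S.lam k * |θ - θ'| ≤ C'.Λ * (2 * ℓ') := by
            refine mul_le_mul hk' hθ (abs_nonneg _) hΛ'.le
        _ = 2 * (ℓ' * C'.Λ) := by ring
        _ = 2 * R.ε := by rw [hℓ'Λ]
    have h3 := (abs_le.1 h2).2
    linarith
  -- growth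
  have hgrA : ∀ k < C.K', Real.exp (S.lam k * L.η (g + 1)) ≤ 1 + R.κ * R.d := by
    intro k hk
    rw [← hexpε₁]
    apply Real.exp_le_exp.2
    calc S.lam k * L.η (g + 1) ≤ (R.Cs * C.Λ) * L.η (g + 1) :=
          mul_le_mul_of_nonneg_right (C.hK' k hk) hηg.le
      _ ≤ R.ε₁ := hupper
  have hgr1 : S.m C.K sN ≤ m + R.κ * T :=
    L.growth (g + 1) (g' + 1) (by omega) R.κ hκpos.le hκ1 (Finset.range C.K)
      (fun k hk => hgrA k (lt_of_lt_of_le (Finset.mem_range.1 hk) C.hKK'))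
  have hgr2 : ∑ k ∈ Finset.Ico C.K C.K', S.x k sN ≤
      ∑ k ∈ Finset.Ico C.K C.K', S.x k sn + R.κ * T :=
    L.growth (g + 1) (g' + 1) (by omega) R.κ hκpos.le hκ1 (Finset.Ico C.K C.K')
      (fun k hk => hgrA k (Finset.mem_Ico.1 hk).2)
  have hmid : ∑ k ∈ Finset.Ico C.K C.K', S.x k sn ≤ R.κ * T := by
    have h2 := C.mid_le
    have h3 : S.m C.K' sn - S.m C.K sn = ∑ k ∈ Finset.Ico C.K C.K', S.x k sn := by
      rw [Ser.m, Ser.m, Finset.sum_Ico_eq_sub _ C.hKK']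
    rw [h3] at h2
    refine h2.trans ?_
    calc R.κ * R.d * Mn = R.κ * (R.d * Mn) := by ring
      _ ≤ R.κ * T := mul_le_mul_of_nonneg_left hT0 hκpos.le
  have hgr2' : ∑ k ∈ Finset.Ico C.K C.K', S.x k sN ≤ 2 * (R.κ * T) := by linarith
  -- the decomposition
  have hdec : S.P C'.K sN θ = (z + Vs θ) + (∑ k ∈ Finset.range C.K, (S.tm k sN θ - S.tm k sn θ)) +
      ∑ k ∈ Finset.Ico C.K C.K', S.tm k sN θ := by
    have h2 : S.P C'.K sN θ = ∑ k ∈ Finset.range C.K, S.tm k sN θ +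
        ∑ k ∈ Finset.Ico C.K C.K', S.tm k sN θ + Vs θ := by
      rw [Ser.P_eq, ← Finset.sum_range_add_sum_Ico _ hKK,
        ← Finset.sum_range_add_sum_Ico _ C.hKK']
    rw [h2, Finset.sum_sub_distrib, hz, Ser.P_eq]
    ring
  have hmdec : S.m C'.K sN = S.m C.K sN + ∑ k ∈ Finset.Ico C.K C.K', S.x k sN + V := by
    rw [Ser.m, ← Finset.sum_range_add_sum_Ico _ hKK, ← Finset.sum_range_add_sum_Ico _ C.hKK']
    rfl
  have hE1 : ‖∑ k ∈ Finset.range C.K, (S.tm k sN θ - S.tm k sn θ)‖ ≤ R.κ * T := by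
    refine (norm_sum_le _ _).trans ?_
    have h2 : ∑ k ∈ Finset.range C.K, ‖S.tm k sN θ - S.tm k sn θ‖ = S.m C.K sN - m := by
      rw [hm, Ser.m, Ser.m, ← Finset.sum_sub_distrib]
      exact Finset.sum_congr rfl fun k _ => S.norm_tm_sub k hsNn θ
    rw [h2]
    linarith
  have hE2 : ‖∑ k ∈ Finset.Ico C.K C.K', S.tm k sN θ‖ ≤ 2 * (R.κ * T) := by
    refine (norm_sum_le _ _).trans ?_
    have h2 : ∑ k ∈ Finset.Ico C.K C.K', ‖S.tm k sN θ‖ = ∑ k ∈ Finset.Ico C.K C.K', S.x k sN :=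
      Finset.sum_congr rfl fun k _ => S.norm_tm k sN θ
    rw [h2]
    exact hgr2'
  have hfin : ‖z + Vs θ‖ - 3 * (R.κ * T) ≤ ‖S.P C'.K sN θ‖ := by
    rw [hdec]
    have h2 := norm_sub_norm_le (z + Vs θ)
      (-((∑ k ∈ Finset.range C.K, (S.tm k sN θ - S.tm k sn θ)) +
        ∑ k ∈ Finset.Ico C.K C.K', S.tm k sN θ))
    rw [norm_neg, sub_neg_eq_add, ← add_assoc] at h2
    have h3 := norm_add_le (∑ k ∈ Finset.range C.K, (S.tm k sN θ - S.tm k sn θ))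
      (∑ k ∈ Finset.Ico C.K C.K', S.tm k sN θ)
    linarith
  show R.c * S.m C'.K sN - R.κ' * MN ≤ ‖S.P C'.K sN θ‖
  have hm' : S.m C'.K sN ≤ m + 3 * (R.κ * T) + V := by
    rw [hmdec]
    linarith
  have hcm : R.c * S.m C'.K sN ≤ R.c * m + R.κ * T + R.c * V := by
    have h2 : R.c * S.m C'.K sN ≤ R.c * (m + 3 * (R.κ * T) + V) :=
      mul_le_mul_of_nonneg_left hm' hc.le
    have h3 : R.c * (3 * (R.κ * T)) ≤ R.κ * T := by
      have h4 : 0 < R.κ * T := mul_pos hκpos hTpos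
      have h5 : R.c * (3 * (R.κ * T)) ≤ 1 / 32 * (3 * (R.κ * T)) :=
        mul_le_mul_of_nonneg_right hc1 (by linarith)
      linarith
    have h6 : R.c * (m + 3 * (R.κ * T) + V) = R.c * m + R.c * (3 * (R.κ * T)) + R.c * V := by
      ring
    rw [h6] at h2
    linarith
  have hεV : 2 * R.ε * V ≤ R.c / 2 * V := by
    refine mul_le_mul_of_nonneg_right ?_ hV0
    rw [hε]
    exact num2 hc hc1
  have hκκ : 5 * (R.κ * T) ≤ R.κ' * T := by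
    rw [hκ, hκ']
    have h2 : 0 < R.c * T := mul_pos hc hTpos
    calc 5 * (R.c / 40 * T) = 1 / 8 * (R.c * T) := by ring
      _ ≤ 1 / 4 * (R.c * T) := by linarith
      _ = R.c / 4 * T := by ring
  have hMNT : R.κ' * MN = R.κ' * Mn + R.κ' * T := by rw [hT]; ring
  have hc2 : R.c / 2 * V = 1 / 2 * (R.c * V) := by ring
  have hc3 : 2 * R.c * V = 2 * (R.c * V) := by ring
  rw [hc3] at hXθ'
  rw [hc2] at hdir' hεV
  linarith

end Pool.Agent.Helper95.Hada
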